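import Pool.Agent.W558.RM.Loc3c
import Pool.Agent.W418.WR.Chart

/-!
# The charts are regular
-/

set_option autoImplicit false
set_option linter.unusedVariables false
set_option linter.unusedSectionVars false

namespace Pool.Agent.RM558

open IsLocalRing Pool.Agent.W418.LU2 Pool.Agent.W418.WR

lemma range_fin {O E : Type} [CommRing O] [Field E] [Algebra O E]
    (hinj : Function.Injective (algebraMap O E))
    (hfin : ∀ 𝔭 : Ideal O, 𝔭.IsPrime → 𝔭 ≠ ⊥ → Finite (O ⧸ 𝔭)) :
    ∀ 𝔭 : Ideal (algebraMap O E).range, 𝔭.IsPrime → 𝔭 ≠ ⊥ →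
      Finite ((algebraMap O E).range ⧸ 𝔭) := by
  intro 𝔭 hp h0
  let φ : O →+* (algebraMap O E).range := (algebraMap O E).rangeRestrict
  have hφ : Function.Surjective φ := (algebraMap O E).rangeRestrict_surjective
  have h1 : 𝔭.comap φ ≠ ⊥ := by
    intro h
    apply h0
    rw [eq_bot_iff]
    intro z hz
    obtain ⟨o, rfl⟩ := hφ z
    have h2 : o ∈ 𝔭.comap φ := hz
    rw [h, Ideal.mem_bot] at h2
    rw [h2, map_zero]
    exact Ideal.zero_mem _
  have h2 := hfin (𝔭.comap φ) (hp.comap φ) h1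
  exact Finite.of_surjective (Ideal.quotientMap 𝔭 φ le_rfl)
    (Ideal.quotientMap_surjective hφ)

section chart

variable {O E F : Type} [CommRing O] [IsDedekindDomain O] [Field E] [Algebra O E]
  [IsFractionRing O E] [Field F] [Algebra E F] [Algebra O F] [IsScalarTower O E F]
  (hfin : ∀ 𝔭 : Ideal O, 𝔭.IsPrime → 𝔭 ≠ ⊥ → Finite (O ⧸ 𝔭))
  (hF : ∀ y : Fin 3 × Bool → F, IntermediateField.adjoin E (Set.range y) = ⊤ →
    AlgebraicIndependent E y)

include hfin hF

theorem chart3 {a b c d : E}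
    (hM : ∀ W : Subring E, Loc W → (algebraMap O E).range ≤ W →
      Mx W (algebraMap O E).range a b c d)
    (hM' : ∀ W : Subring E, Loc W → (algebraMap O E).range ≤ W →
      Mx W (algebraMap O E).range (-d) (-c) (-b) (-a))
    (u v : Fin 3 → F)
    (huv : IntermediateField.adjoin E (Set.range u ∪ Set.range v) = ⊤)
    (hu0 : nm3 (algebraMap E F a) (algebraMap E F b) (algebraMap E F c) (algebraMap E F d) u ≠ 0)
    (hv0 : nm3 (algebraMap E F a) (algebraMap E F b) (algebraMap E F c) (algebraMap E F d) v ≠ 0)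
    (f : F) (hf : f ∈ Submodule.span O (Fm (algebraMap E F a) (algebraMap E F b)
      (algebraMap E F c) (algebraMap E F d) u v)) (hf0 : f ≠ 0) (C : Subalgebra O F)
    (hC : C = Algebra.adjoin O {w : F | ∃ m ∈ Submodule.span O (Fm (algebraMap E F a)
      (algebraMap E F b) (algebraMap E F c) (algebraMap E F d) u v), w = m / f})
    (q : Ideal C) [hq : q.IsPrime] : IsRegularLocalRing (Localization.AtPrime q) := by
  classical
  obtain ⟨A, hA, hCA, hfrac, hreg⟩ := exists_loc (C.val : C →+* F) Subtype.val_injective q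
  apply hreg
  have hCA' : ∀ z ∈ C, z ∈ A := fun z hz => hCA ⟨z, hz⟩
  -- the base ring
  let R : Subring E := (algebraMap O E).range
  have hRded : IsDedekindDomain R := range_ded
  have hRA : ∀ r ∈ R, algebraMap E F r ∈ A := by
    rintro _ ⟨o, rfl⟩
    rw [← IsScalarTower.algebraMap_apply]
    exact hCA' _ (Subalgebra.algebraMap_mem C o)
  have hW := loc_AE (E := E) hA
  have hRW : R ≤ AE (E := E) A := fun r hr => hRA r hr
  obtain ⟨Φ, hΦ⟩ : ∃ Φ, Φ = Fm (algebraMap E F a) (algebraMap E F b)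
      (algebraMap E F c) (algebraMap E F d) u v := ⟨_, rfl⟩
  rw [← hΦ] at hf hC
  have hspan : ∀ (Q : F → Prop), Q 0 → (∀ a b, Q a → Q b → Q (a + b)) →
      (∀ r ∈ R, ∀ a, Q a → Q (algebraMap E F r * a)) → (∀ w ∈ Φ, Q w) →
      ∀ z ∈ Submodule.span O Φ, Q z := by
    intro Q h0 hadd hsmul hQ z hz
    induction hz using Submodule.span_induction with
    | mem z hz => exact hQ z hz
    | zero => exact h0
    | add a b _ _ ha hb => exact hadd a b ha hb
    | smul o a _ ha =>
      rw [Algebra.smul_def, IsScalarTower.algebraMap_apply O E F]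
      exact hsmul _ ⟨o, rfl⟩ _ ha
  have hmem : ∀ w ∈ Φ, w * f⁻¹ ∈ A := by
    intro w hw
    rw [← div_eq_mul_inv]
    refine hCA' _ ?_
    rw [hC]
    exact Algebra.subset_adjoin ⟨w, Submodule.subset_span hw, rfl⟩
  have hunit : ∃ w ∈ Φ, ¬ NU A (w * f⁻¹) := by
    by_contra hcon
    push Not at hcon
    have h3 := hspan (fun z => NU A (z * f⁻¹)) (by
        rw [zero_mul]
        exact ⟨A.zero_mem, fun h => h.1 rfl⟩)
      (fun a b ha hb => by
        rw [add_mul]
        exact NU.add hA ha hb)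
      (fun r hr a ha => by
        rw [mul_assoc]
        exact NU.mul_left hA (hRA r hr) ha)
      hcon f hf
    refine h3.2 ⟨mul_ne_zero hf0 (inv_ne_zero hf0), ?_⟩
    rw [mul_inv_cancel₀ hf0, inv_one]
    exact A.one_mem
  have hgenA : ∀ g : F, g ≠ 0 → g * f⁻¹ ∈ A → f * g⁻¹ ∈ A →
      A ≤ lo A (Subring.closure ((B0 A R : Set F) ∪ {z | ∃ w ∈ Φ, z = w * g⁻¹})) := by
    intro g hg0 hgf hfg
    set D := Subring.closure ((B0 A R : Set F) ∪ {z | ∃ w ∈ Φ, z = w * g⁻¹}) with hD
    have hDA : D ≤ A := by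
      rw [hD, Subring.closure_le]
      rintro z (hz | ⟨w, hw, rfl⟩)
      · exact B0_le hRA hz
      · have h3 : w * g⁻¹ = w * f⁻¹ * (f * g⁻¹) := by field_simp
        rw [h3]
        exact A.mul_mem (hmem w hw) hfg
    have hBD : B0 A R ≤ D := fun z hz => Subring.subset_closure (Or.inl hz)
    have hMD : ∀ z ∈ Submodule.span O Φ, z * g⁻¹ ∈ D := hspan (fun z => z * g⁻¹ ∈ D) (by
        rw [zero_mul]
        exact D.zero_mem)
      (fun a b ha hb => by
        rw [add_mul]
        exact D.add_mem ha hb)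
      (fun r hr a ha => by
        rw [mul_assoc]
        exact D.mul_mem (hBD (alg_mem_B0 hRA (le_lo _ _ hr))) ha)
      (fun w hw => Subring.subset_closure (Or.inr ⟨w, hw, rfl⟩))
    have hgf' : g * f⁻¹ ∈ lo A D := by
      have h3 := inv_mem_lo hDA (le_lo A D (hMD f hf)) (mul_ne_zero hf0 (inv_ne_zero hg0)) (by
        rw [mul_inv, inv_inv, mul_comm]
        exact hgf)
      rwa [mul_inv, inv_inv, mul_comm] at h3
    have hCD : ∀ z ∈ C, z ∈ lo A D := by
      intro z hz
      rw [hC] at hz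
      induction hz using Algebra.adjoin_induction with
      | mem z hz =>
        obtain ⟨n, hn, rfl⟩ := hz
        have h3 : n / f = n * g⁻¹ * (g * f⁻¹) := by field_simp
        rw [h3]
        exact (lo A D).mul_mem (le_lo A D (hMD n hn)) hgf'
      | algebraMap o =>
        rw [IsScalarTower.algebraMap_apply O E F]
        exact le_lo A D (hBD (alg_mem_B0 hRA (le_lo _ _ ⟨o, rfl⟩)))
      | add a b _ _ ha hb => exact (lo A D).add_mem ha hb
      | mul a b _ _ ha hb => exact (lo A D).mul_mem ha hb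
    intro z hz
    obtain ⟨a, b, hb0, hbA, rfl⟩ := hfrac z hz
    exact (lo A D).mul_mem (hCD _ a.2) (inv_mem_lo hDA (hCD _ b.2) hb0 hbA)
  subst hΦ
  exact loc_all hA hRA hF (range_fin (IsFractionRing.injective O E) hfin) range_frac
    (hM _ hW hRW) (hM' _ hW hRW) u v huv hu0 hv0 hf0 hmem hunit hgenA

end chart

end Pool.Agent.RM558
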