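import Mathlib

/-!
# Cubic algebras given by binary cubic forms

The algebra `R ⊕ R ω ⊕ R θ` with `ω θ = - a d`, `ω ^ 2 = - a c + b ω - a θ`,
`θ ^ 2 = - b d + d ω - c θ`.
-/

set_option autoImplicit false

namespace Pool.Agent.RM558

variable {R S : Type*} [CommRing R] [CommRing S]

/-- The product. -/
def mul3 (a b c d : R) (u v : Fin 3 → R) : Fin 3 → R :=
  ![u 0 * v 0 - a * c * (u 1 * v 1) - a * d * (u 1 * v 2 + u 2 * v 1) - b * d * (u 2 * v 2),
    u 0 * v 1 + u 1 * v 0 + b * (u 1 * v 1) + d * (u 2 * v 2),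
    u 0 * v 2 + u 2 * v 0 - a * (u 1 * v 1) - c * (u 2 * v 2)]

/-- The adjoint. -/
def sh3 (a b c d : R) (u : Fin 3 → R) : Fin 3 → R :=
  ![u 0 ^ 2 + u 0 * (b * u 1 - c * u 2) + (a * d - b * c) * (u 1 * u 2),
    - (u 0 * u 1) + c * (u 1 * u 2) + d * u 2 ^ 2,
    - (u 0 * u 2) - a * u 1 ^ 2 - b * (u 1 * u 2)]

/-- The norm. -/
def nm3 (a b c d : R) (u : Fin 3 → R) : R := mul3 a b c d u (sh3 a b c d u) 0

/-- The binary cubic form. -/
def frm (a b c d s t : R) : R := a * s ^ 3 + b * s ^ 2 * t + c * s * t ^ 2 + d * t ^ 3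

lemma mul_sh_one (a b c d : R) (u : Fin 3 → R) : mul3 a b c d u (sh3 a b c d u) 1 = 0 := by
  simp only [mul3, sh3, Matrix.cons_val_zero, Matrix.cons_val_one, Matrix.cons_val]
  ring

lemma mul_sh_two (a b c d : R) (u : Fin 3 → R) : mul3 a b c d u (sh3 a b c d u) 2 = 0 := by
  simp only [mul3, sh3, Matrix.cons_val_zero, Matrix.cons_val_one, Matrix.cons_val]
  ring

lemma mul3_comm (a b c d : R) (u v : Fin 3 → R) : mul3 a b c d u v = mul3 a b c d v u := by
  ext i
  fin_cases i <;> simp [mul3] <;> ring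

/-- `(v u#)# = N(u) u v#`. -/
lemma sh_x (a b c d : R) (u v : Fin 3 → R) (i : Fin 3) :
    sh3 a b c d (mul3 a b c d v (sh3 a b c d u)) i =
      nm3 a b c d u * mul3 a b c d u (sh3 a b c d v) i := by
  fin_cases i <;> simp [mul3, sh3, nm3] <;> ring

/-- `(v u#) (u v#) = N(u) N(v)`. -/
lemma mul_xy (a b c d : R) (u v : Fin 3 → R) :
    mul3 a b c d (mul3 a b c d v (sh3 a b c d u)) (mul3 a b c d u (sh3 a b c d v)) =
      ![nm3 a b c d u * nm3 a b c d v, 0, 0] := by
  ext i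
  fin_cases i <;> simp [mul3, sh3, nm3] <;> ring

lemma mul_x (a b c d : R) (u v : Fin 3 → R) (i : Fin 3) :
    mul3 a b c d u (mul3 a b c d v (sh3 a b c d u)) i = nm3 a b c d u * v i := by
  fin_cases i <;> simp [mul3, sh3, nm3] <;> ring

lemma mul3_smul (a b c d : R) (u x : Fin 3 → R) (t : R) (i : Fin 3) :
    mul3 a b c d u (fun i => x i * t) i = mul3 a b c d u x i * t := by
  fin_cases i <;> simp [mul3] <;> ring

lemma mul3_smul2 (a b c d : R) (x y : Fin 3 → R) (t : R) (i : Fin 3) :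
    mul3 a b c d (fun i => x i * t) (fun i => y i * t) i = mul3 a b c d x y i * t * t := by
  fin_cases i <;> simp [mul3] <;> ring

lemma sh3_smul (a b c d : R) (x : Fin 3 → R) (t : R) (i : Fin 3) :
    sh3 a b c d (fun i => x i * t) i = sh3 a b c d x i * t * t := by
  fin_cases i <;> simp [sh3] <;> ring

end Pool.Agent.RM558
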