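import Pool.Agent.W558.RM.MaxZ

/-!
# Maximal binary cubic forms over a principal ideal domain
-/

set_option autoImplicit false
set_option linter.unusedVariables false
set_option linter.unusedSectionVars false

universe u

namespace Pool.Agent.RM558

open IsLocalRing Pool.Agent.W418.LU2 Pool.Agent.W418.WR

/-- A maximal form. -/
structure MO {O : Type*} [CommRing O] (a b c d : O) : Prop where
  disc : dsc a b c d ≠ 0
  prim : ∀ p : O, Prime p → ¬ (p ∣ a ∧ p ∣ b ∧ p ∣ c ∧ p ∣ d)
  ram : ∀ p : O, Prime p → ∀ r : O, ¬ (p ∣ 3 * a * r ^ 2 + 2 * b * r + c ∧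
    p ^ 2 ∣ a * r ^ 3 + b * r ^ 2 + c * r + d)

lemma map_dsc {R S : Type*} [CommRing R] [CommRing S] (φ : R →+* S) (a b c d : R) :
    φ (dsc a b c d) = dsc (φ a) (φ b) (φ c) (φ d) := by
  simp only [dsc, map_add, map_sub, map_mul, map_pow, map_ofNat]

section pid

variable {O E : Type*} [CommRing O] [IsDomain O] [IsPrincipalIdealRing O] [Field E] [Algebra O E]
  [IsFractionRing O E]

lemma exists_pO {W : Subring E} (hW : Loc W) (hRW : (algebraMap O E).range ≤ W) :
    (∀ n : O, NU W (algebraMap O E n) → n = 0) ∨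
    ∃ p : O, Prime p ∧ ∀ n : O, NU W (algebraMap O E n) ↔ p ∣ n := by
  have hloc := isLocalRing_of_loc hW
  let ψ : O →+* W := (algebraMap O E).codRestrict W (fun o => hRW ⟨o, rfl⟩)
  let P : Ideal O := (maximalIdeal W).comap ψ
  have hP : P.IsPrime := Ideal.IsPrime.comap _
  have hmem : ∀ n : O, n ∈ P ↔ NU W (algebraMap O E n) := by
    intro n
    rw [show algebraMap O E n = ((ψ n : W) : E) from rfl, nu_iff hW (ψ n)]
    exact Iff.rfl
  by_cases h : P = ⊥
  · left
    intro n hn
    rw [← hmem, h] at hn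
    exact hn
  · right
    refine ⟨Submodule.IsPrincipal.generator P, Submodule.IsPrincipal.prime_generator_of_isPrime P h,
      fun n => ?_⟩
    rw [← hmem]
    exact Submodule.IsPrincipal.mem_iff_generator_dvd P

theorem mx_ofO {a b c d : O} (h : MO a b c d) (W : Subring E) (hW : Loc W)
    (hRW : (algebraMap O E).range ≤ W) :
    Mx W (algebraMap O E).range (algebraMap O E a) (algebraMap O E b) (algebraMap O E c)
      (algebraMap O E d) := by
  have hinj : Function.Injective (algebraMap O E) := IsFractionRing.injective O E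
  have hR : ∀ n : O, algebraMap O E n ∈ (algebraMap O E).range := fun n => ⟨n, rfl⟩
  refine ⟨hR a, hR b, hR c, hR d, ?_, ?_, ?_⟩
  · have h1 := h.disc
    rw [← map_ne_zero_iff _ hinj, map_dsc] at h1
    exact h1
  · rintro ⟨h1, h2, h3, h4⟩
    rcases exists_pO hW hRW with hp | ⟨p, hp, hpn⟩
    · apply h.disc
      rw [hp a h1, hp b h2, hp c h3, hp d h4]
      simp [dsc]
    · exact h.prim p hp ⟨(hpn a).1 h1, (hpn b).1 h2, (hpn c).1 h3, (hpn d).1 h4⟩
  · rintro α ϖ c₁ c₂ ⟨r, rfl⟩ ⟨_, ⟨n, rfl⟩, _, ⟨m, rfl⟩, hm0, hmW, rfl⟩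
      ⟨_, ⟨n₁, rfl⟩, _, ⟨m₁, rfl⟩, hm₁0, hm₁W, rfl⟩
      ⟨_, ⟨n₂, rfl⟩, _, ⟨m₂, rfl⟩, hm₂0, hm₂W, rfl⟩ hϖ0 hϖ h1 h2
    have hn0 : algebraMap O E n ≠ 0 := left_ne_zero_of_mul hϖ0
    have hnN : NU W (algebraMap O E n) := by
      refine ⟨hRW ⟨n, rfl⟩, fun h3 => hϖ ?_⟩
      rw [mul_inv, inv_inv]
      exact W.mul_mem h3.2 (hRW ⟨m, rfl⟩)
    rcases exists_pO hW hRW with hp | ⟨p, hp, hpn⟩
    · exact hn0 (by rw [hp n hnN, map_zero])
    have hu : ∀ k : O, algebraMap O E k ≠ 0 → (algebraMap O E k)⁻¹ ∈ W → ¬ p ∣ k := by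
      intro k hk0 hk h3
      exact ((hpn k).2 h3).2 ⟨hk0, hk⟩
    have hpn' := (hpn n).1 hnN
    have hm := hu m hm0 hmW
    have hm₁ := hu m₁ hm₁0 hm₁W
    have hm₂ := hu m₂ hm₂0 hm₂W
    refine h.ram p hp r ⟨?_, ?_⟩
    · have h3 : (3 * a * r ^ 2 + 2 * b * r + c) * (m₁ * m) = n₁ * n := by
        apply hinj
        rw [map_mul, map_mul, map_mul]
        have h4 : algebraMap O E (3 * a * r ^ 2 + 2 * b * r + c) =
            algebraMap O E n₁ * (algebraMap O E m₁)⁻¹ *
              (algebraMap O E n * (algebraMap O E m)⁻¹) := by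
          rw [← h1]
          simp only [map_add, map_mul, map_pow, map_ofNat]
        rw [h4]
        field_simp
      have h4 : p ∣ (3 * a * r ^ 2 + 2 * b * r + c) * (m₁ * m) := by
        rw [h3]
        exact Dvd.dvd.mul_left hpn' _
      rcases hp.dvd_or_dvd h4 with h5 | h5
      · exact h5
      · rcases hp.dvd_or_dvd h5 with h6 | h6
        · exact absurd h6 hm₁
        · exact absurd h6 hm
    · have h3 : (a * r ^ 3 + b * r ^ 2 + c * r + d) * (m₂ * m ^ 2) = n₂ * n ^ 2 := by
        apply hinj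
        rw [map_mul, map_mul, map_mul, map_pow, map_pow]
        have h4 : algebraMap O E (a * r ^ 3 + b * r ^ 2 + c * r + d) =
            algebraMap O E n₂ * (algebraMap O E m₂)⁻¹ *
              (algebraMap O E n * (algebraMap O E m)⁻¹) ^ 2 := by
          rw [← h2]
          simp only [map_add, map_mul, map_pow]
        rw [h4]
        field_simp
      have h4 : p ^ 2 ∣ (a * r ^ 3 + b * r ^ 2 + c * r + d) * (m₂ * m ^ 2) := by
        rw [h3]
        exact Dvd.dvd.mul_left (pow_dvd_pow_of_dvd hpn' 2) _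
      refine hp.pow_dvd_of_dvd_mul_right 2 ?_ h4
      intro h5
      rcases hp.dvd_or_dvd h5 with h6 | h6
      · exact hm₂ h6
      · exact hm (hp.dvd_of_dvd_pow h6)

end pid

section moves

variable {E F : Type} [Field E] [Field F] [Algebra E F]

/-- The forms which define the same span. -/
def GE (L : Submodule E F) (a b c d : E) : Prop :=
  ∃ u v : Fin 3 → F, IntermediateField.adjoin E (Set.range u ∪ Set.range v) = ⊤ ∧
    nm3 (algebraMap E F a) (algebraMap E F b) (algebraMap E F c) (algebraMap E F d) u ≠ 0 ∧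
    nm3 (algebraMap E F a) (algebraMap E F b) (algebraMap E F c) (algebraMap E F d) v ≠ 0 ∧
    Submodule.span E (Fm (algebraMap E F a) (algebraMap E F b) (algebraMap E F c)
      (algebraMap E F d) u v) = L

theorem GE.move {L : Submodule E F} {a b c d a' b' c' d' : E} (φ : (Fin 3 → F) → (Fin 3 → F))
    (h1 : ∀ u i, φ u i ∈ Submodule.span E (Set.range u))
    (h2 : ∀ u i, u i ∈ Submodule.span E (Set.range (φ u)))
    (hmul : ∀ u v, mul3 (algebraMap E F a') (algebraMap E F b') (algebraMap E F c')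
      (algebraMap E F d') (φ u) (φ v) = φ (mul3 (algebraMap E F a) (algebraMap E F b)
        (algebraMap E F c) (algebraMap E F d) u v))
    (hsh : ∀ u, sh3 (algebraMap E F a') (algebraMap E F b') (algebraMap E F c')
      (algebraMap E F d') (φ u) = φ (sh3 (algebraMap E F a) (algebraMap E F b)
        (algebraMap E F c) (algebraMap E F d) u))
    (h0 : ∀ w : Fin 3 → F, w 1 = 0 → w 2 = 0 → φ w 0 = w 0)
    (h : GE L a b c d) : GE L a' b' c' d' := by
  obtain ⟨u, v, huv, hu, hv, hL⟩ := h
  have hnm : ∀ u, nm3 (algebraMap E F a') (algebraMap E F b') (algebraMap E F c')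
      (algebraMap E F d') (φ u) = nm3 (algebraMap E F a) (algebraMap E F b)
        (algebraMap E F c) (algebraMap E F d) u := by
    intro u
    unfold nm3
    rw [hsh, hmul, h0 _ (mul_sh_one _ _ _ _ _) (mul_sh_two _ _ _ _ _)]
  refine ⟨φ u, φ v, ?_, ?_, ?_, ?_⟩
  · set K := IntermediateField.adjoin E (Set.range (φ u) ∪ Set.range (φ v)) with hK
    have hKs : ∀ S : Set F, S ⊆ K → ∀ z ∈ Submodule.span E S, z ∈ K := by
      intro S hS z hz
      have h3 : Submodule.span E S ≤ K.toSubalgebra.toSubmodule := Submodule.span_le.2 hS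
      exact h3 hz
    rw [eq_top_iff, ← huv, IntermediateField.adjoin_le_iff]
    rintro z (⟨k, rfl⟩ | ⟨k, rfl⟩)
    · exact hKs _ (fun z hz => IntermediateField.subset_adjoin E _ (Or.inl hz)) _ (h2 u k)
    · exact hKs _ (fun z hz => IntermediateField.subset_adjoin E _ (Or.inr hz)) _ (h2 v k)
  · rw [hnm]; exact hu
  · rw [hnm]; exact hv
  · rw [← hL]
    apply le_antisymm
    · rw [Submodule.span_le]
      rintro z (rfl | ⟨i, rfl⟩ | ⟨i, rfl⟩ | rfl)
      · rw [hnm]; exact Submodule.subset_span (Or.inl rfl)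
      · rw [hsh, hmul]
        refine Submodule.span_mono ?_ (h1 _ i)
        rintro z ⟨k, rfl⟩
        exact Or.inr (Or.inl ⟨k, rfl⟩)
      · rw [hsh, hmul]
        refine Submodule.span_mono ?_ (h1 _ i)
        rintro z ⟨k, rfl⟩
        exact Or.inr (Or.inr (Or.inl ⟨k, rfl⟩))
      · rw [hnm]; exact Submodule.subset_span (Or.inr (Or.inr (Or.inr rfl)))
    · rw [Submodule.span_le]
      rintro z (rfl | ⟨i, rfl⟩ | ⟨i, rfl⟩ | rfl)
      · rw [← hnm]; exact Submodule.subset_span (Or.inl rfl)
      · refine Submodule.span_mono ?_ (h2 _ i)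
        rintro z ⟨k, rfl⟩
        rw [← hmul, ← hsh]
        exact Or.inr (Or.inl ⟨k, rfl⟩)
      · refine Submodule.span_mono ?_ (h2 _ i)
        rintro z ⟨k, rfl⟩
        rw [← hmul, ← hsh]
        exact Or.inr (Or.inr (Or.inl ⟨k, rfl⟩))
      · rw [← hnm]; exact Submodule.subset_span (Or.inr (Or.inr (Or.inr rfl)))

theorem GE.diag {L : Submodule E F} {a b c d : E} {s t : E} (hs : s ≠ 0) (ht : t ≠ 0)
    (h : GE L a b c d) : GE L (a * s ^ 2 / t) (b * s) (c * t) (d * t ^ 2 / s) := by
  have hs' : algebraMap E F s ≠ 0 := (_root_.map_ne_zero _).2 hs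
  have ht' : algebraMap E F t ≠ 0 := (_root_.map_ne_zero _).2 ht
  refine h.move (fun u => ![u 0, (algebraMap E F s)⁻¹ * u 1, (algebraMap E F t)⁻¹ * u 2])
    ?_ ?_ ?_ ?_ ?_
  · intro u i
    have h1 : ∀ k, u k ∈ Submodule.span E (Set.range u) := fun k => Submodule.subset_span ⟨k, rfl⟩
    fin_cases i
    · exact h1 0
    · change (algebraMap E F s)⁻¹ * u 1 ∈ _
      rw [← map_inv₀, ← Algebra.smul_def]
      exact Submodule.smul_mem _ _ (h1 1)
    · change (algebraMap E F t)⁻¹ * u 2 ∈ _
      rw [← map_inv₀, ← Algebra.smul_def]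
      exact Submodule.smul_mem _ _ (h1 2)
  · intro u i
    obtain ⟨w, hw⟩ : ∃ w, w = (![u 0, (algebraMap E F s)⁻¹ * u 1,
      (algebraMap E F t)⁻¹ * u 2] : Fin 3 → F) := ⟨_, rfl⟩
    have h1 : ∀ k, w k ∈ Submodule.span E (Set.range w) := fun k => Submodule.subset_span ⟨k, rfl⟩
    change u i ∈ Submodule.span E (Set.range (![u 0, (algebraMap E F s)⁻¹ * u 1,
      (algebraMap E F t)⁻¹ * u 2] : Fin 3 → F))
    rw [← hw]
    fin_cases i
    · change u 0 ∈ _
      have h2 : u 0 = w 0 := by rw [hw]; rfl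
      rw [h2]
      exact h1 0
    · change u 1 ∈ _
      have h2 : u 1 = s • w 1 := by
        rw [hw, Algebra.smul_def]
        change u 1 = algebraMap E F s * ((algebraMap E F s)⁻¹ * u 1)
        field_simp
      rw [h2]
      exact Submodule.smul_mem _ _ (h1 1)
    · change u 2 ∈ _
      have h2 : u 2 = t • w 2 := by
        rw [hw, Algebra.smul_def]
        change u 2 = algebraMap E F t * ((algebraMap E F t)⁻¹ * u 2)
        field_simp
      rw [h2]
      exact Submodule.smul_mem _ _ (h1 2)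
  · intro u v
    simp only [map_mul, map_div₀, map_pow]
    generalize algebraMap E F s = S at *
    generalize algebraMap E F t = T at *
    ext i
    fin_cases i <;> simp [mul3] <;> field_simp
  · intro u
    simp only [map_mul, map_div₀, map_pow]
    generalize algebraMap E F s = S at *
    generalize algebraMap E F t = T at *
    ext i
    fin_cases i <;> simp [sh3] <;> field_simp
  · intro w _ _
    rfl

theorem GE.unip {L : Submodule E F} {a b c d : E} (r : E)
    (h : GE L a b c d) : GE L a (b + 3 * a * r) (3 * a * r ^ 2 + 2 * b * r + c)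
      (a * r ^ 3 + b * r ^ 2 + c * r + d) := by
  refine h.move (fun u => ![u 0 - algebraMap E F (r * a) * u 1 +
    algebraMap E F (r * b + 2 * a * r ^ 2) * u 2, u 1 - algebraMap E F r * u 2, u 2])
    ?_ ?_ ?_ ?_ ?_
  · intro u i
    have h1 : ∀ k, u k ∈ Submodule.span E (Set.range u) := fun k => Submodule.subset_span ⟨k, rfl⟩
    fin_cases i
    · change u 0 - algebraMap E F (r * a) * u 1 +
        algebraMap E F (r * b + 2 * a * r ^ 2) * u 2 ∈ _
      rw [← Algebra.smul_def, ← Algebra.smul_def]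
      exact Submodule.add_mem _ (Submodule.sub_mem _ (h1 0) (Submodule.smul_mem _ _ (h1 1)))
        (Submodule.smul_mem _ _ (h1 2))
    · change u 1 - algebraMap E F r * u 2 ∈ _
      rw [← Algebra.smul_def]
      exact Submodule.sub_mem _ (h1 1) (Submodule.smul_mem _ _ (h1 2))
    · exact h1 2
  · intro u i
    obtain ⟨w, hw⟩ : ∃ w, w = (![u 0 - algebraMap E F (r * a) * u 1 +
      algebraMap E F (r * b + 2 * a * r ^ 2) * u 2, u 1 - algebraMap E F r * u 2, u 2] :
        Fin 3 → F) := ⟨_, rfl⟩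
    have h1 : ∀ k, w k ∈ Submodule.span E (Set.range w) := fun k => Submodule.subset_span ⟨k, rfl⟩
    change u i ∈ Submodule.span E (Set.range (![u 0 - algebraMap E F (r * a) * u 1 +
      algebraMap E F (r * b + 2 * a * r ^ 2) * u 2, u 1 - algebraMap E F r * u 2, u 2] :
        Fin 3 → F))
    rw [← hw]
    have e2 : w 2 = u 2 := by rw [hw]; rfl
    have e1 : w 1 = u 1 - algebraMap E F r * u 2 := by rw [hw]; rfl
    have e0 : w 0 = u 0 - algebraMap E F (r * a) * u 1 +
      algebraMap E F (r * b + 2 * a * r ^ 2) * u 2 := by rw [hw]; rfl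
    fin_cases i
    · change u 0 ∈ _
      have h2 : u 0 = w 0 + (r * a) • w 1 - (r * b + a * r ^ 2) • w 2 := by
        rw [Algebra.smul_def, Algebra.smul_def, e0, e1, e2]
        simp only [map_add, map_mul, map_pow, map_ofNat]
        ring
      rw [h2]
      exact Submodule.sub_mem _ (Submodule.add_mem _ (h1 0) (Submodule.smul_mem _ _ (h1 1)))
        (Submodule.smul_mem _ _ (h1 2))
    · change u 1 ∈ _
      have h2 : u 1 = w 1 + r • w 2 := by
        rw [Algebra.smul_def, e1, e2]
        ring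
      rw [h2]
      exact Submodule.add_mem _ (h1 1) (Submodule.smul_mem _ _ (h1 2))
    · change u 2 ∈ _
      rw [← e2]
      exact h1 2
  · intro u v
    simp only [map_mul, map_add, map_pow, map_ofNat]
    generalize algebraMap E F a = a'
    generalize algebraMap E F b = b'
    generalize algebraMap E F c = c'
    generalize algebraMap E F d = d'
    generalize algebraMap E F r = r'
    ext i
    fin_cases i <;> simp [mul3] <;> ring
  · intro u
    simp only [map_mul, map_add, map_pow, map_ofNat]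
    generalize algebraMap E F a = a'
    generalize algebraMap E F b = b'
    generalize algebraMap E F c = c'
    generalize algebraMap E F d = d'
    generalize algebraMap E F r = r'
    ext i
    fin_cases i <;> simp [sh3] <;> ring
  · intro w h1 h2
    change w 0 - algebraMap E F (r * a) * w 1 +
      algebraMap E F (r * b + 2 * a * r ^ 2) * w 2 = w 0
    rw [h1, h2]
    ring

theorem GE.swap {L : Submodule E F} {a b c d : E} (h : GE L a b c d) :
    GE L (-d) (-c) (-b) (-a) := by
  refine h.move sw ?_ ?_ ?_ ?_ ?_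
  · intro u i
    have h1 : ∀ k, u k ∈ Submodule.span E (Set.range u) := fun k => Submodule.subset_span ⟨k, rfl⟩
    fin_cases i
    · exact h1 0
    · exact h1 2
    · exact h1 1
  · intro u i
    have h1 : ∀ k, sw u k ∈ Submodule.span E (Set.range (sw u)) := fun k =>
      Submodule.subset_span ⟨k, rfl⟩
    fin_cases i
    · exact h1 0
    · exact h1 2
    · exact h1 1
  · intro u v
    simp only [map_neg]
    exact mul_sw _ _ _ _ u v
  · intro u
    simp only [map_neg]
    exact sh_sw _ _ _ _ u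
  · intro w _ _
    rfl

section exist

variable {O : Type} [CommRing O] [IsDomain O] [IsPrincipalIdealRing O] [Algebra O E]
  [IsFractionRing O E]

lemma dnu (p : O) (hp : Prime p) (k : ℕ) (hk : k ≠ 0) (x y : O) (hy : y ≠ 0)
    (hxy : x = p ^ k * y) : DvdNotUnit y x := by
  refine ⟨hy, p ^ k, fun h => hp.not_isUnit (isUnit_of_dvd_unit (dvd_pow_self p hk) h), ?_⟩
  rw [hxy, mul_comm]

theorem mo_of_min {L : Submodule E F} {a b c d : O} (h : GE L (algebraMap O E a)
    (algebraMap O E b) (algebraMap O E c) (algebraMap O E d))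
    (h0 : dsc a b c d ≠ 0)
    (hmin : ∀ a' b' c' d' : O, GE L (algebraMap O E a') (algebraMap O E b') (algebraMap O E c')
      (algebraMap O E d') → dsc a' b' c' d' ≠ 0 →
      ¬ DvdNotUnit (dsc a' b' c' d') (dsc a b c d)) : MO a b c d := by
  have hinj : Function.Injective (algebraMap O E) := IsFractionRing.injective O E
  have hne : ∀ p : O, Prime p → algebraMap O E p ≠ 0 := fun p hp =>
    (map_ne_zero_iff _ hinj).2 hp.ne_zero
  refine ⟨h0, ?_, ?_⟩
  · rintro p hp ⟨⟨a', rfl⟩, ⟨b', rfl⟩, ⟨c', rfl⟩, ⟨d', rfl⟩⟩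
    have hp0 := hne p hp
    have h1 : dsc (p * a') (p * b') (p * c') (p * d') = p ^ 4 * dsc a' b' c' d' := by
      unfold dsc; ring
    have h2 : dsc a' b' c' d' ≠ 0 := by
      intro h3
      exact h0 (by rw [h1, h3, mul_zero])
    refine hmin a' b' c' d' ?_ h2 (dnu p hp 4 (by norm_num) _ _ h2 h1)
    have h3 := h.diag (s := (algebraMap O E p)⁻¹) (t := (algebraMap O E p)⁻¹)
      (inv_ne_zero hp0) (inv_ne_zero hp0)
    convert h3 using 1
    · rw [map_mul]; field_simp
    · rw [map_mul]; field_simp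
    · rw [map_mul]; field_simp
    · rw [map_mul]; field_simp
  · rintro p hp r ⟨⟨c', hc'⟩, ⟨d', hd'⟩⟩
    have hp0 := hne p hp
    have h1 : dsc a b c d = p ^ 2 * dsc (a * p) (b + 3 * a * r) c' d' := by
      have h2 : dsc a b c d = dsc a (b + 3 * a * r) (3 * a * r ^ 2 + 2 * b * r + c)
          (a * r ^ 3 + b * r ^ 2 + c * r + d) := by
        unfold dsc; ring
      rw [h2, hc', hd']
      unfold dsc; ring
    have h2 : dsc (a * p) (b + 3 * a * r) c' d' ≠ 0 := by
      intro h3
      exact h0 (by rw [h1, h3, mul_zero])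
    refine hmin (a * p) (b + 3 * a * r) c' d' ?_ h2 (dnu p hp 2 (by norm_num) _ _ h2 h1)
    have h3 := (h.unip (algebraMap O E r)).diag (s := 1) (t := (algebraMap O E p)⁻¹) one_ne_zero
      (inv_ne_zero hp0)
    have hc2 : 3 * algebraMap O E a * algebraMap O E r ^ 2 + 2 * algebraMap O E b *
        algebraMap O E r + algebraMap O E c = algebraMap O E p * algebraMap O E c' := by
      have h5 := congrArg (algebraMap O E) hc'
      simpa only [map_add, map_mul, map_pow, map_ofNat] using h5
    have hd2 : algebraMap O E a * algebraMap O E r ^ 3 + algebraMap O E b *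
        algebraMap O E r ^ 2 + algebraMap O E c * algebraMap O E r + algebraMap O E d =
        algebraMap O E p ^ 2 * algebraMap O E d' := by
      have h5 := congrArg (algebraMap O E) hd'
      simpa only [map_add, map_mul, map_pow] using h5
    rw [hc2, hd2] at h3
    convert h3 using 1
    · rw [map_mul]; field_simp
    · rw [map_add, map_mul, map_mul, map_ofNat, mul_one]
    · field_simp
    · field_simp

theorem exists_maxO {L : Submodule E F} {a b c d : E} (h : GE L a b c d) (hd : dsc a b c d ≠ 0) :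
    ∃ a b c d : O, MO a b c d ∧ MO (-d) (-c) (-b) (-a) ∧
      GE L (algebraMap O E a) (algebraMap O E b) (algebraMap O E c) (algebraMap O E d) := by
  classical
  have hinj : Function.Injective (algebraMap O E) := IsFractionRing.injective O E
  let P : Set O := {n | ∃ a b c d : O, GE L (algebraMap O E a) (algebraMap O E b)
      (algebraMap O E c) (algebraMap O E d) ∧ dsc a b c d ≠ 0 ∧ dsc a b c d = n}
  have hP : P.Nonempty := by
    obtain ⟨N, hN⟩ := IsLocalization.exist_integer_multiples_of_finset (nonZeroDivisors O)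
      ({a, b, c, d} : Finset E)
    have hN0 : algebraMap O E N ≠ 0 :=
      (map_ne_zero_iff _ hinj).2 (nonZeroDivisors.ne_zero N.2)
    have hI : ∀ x ∈ ({a, b, c, d} : Finset E), ∃ y : O, algebraMap O E y = x * algebraMap O E N := by
      intro x hx
      obtain ⟨y, hy⟩ := hN x hx
      refine ⟨y, ?_⟩
      rw [hy, Algebra.smul_def, mul_comm]
    obtain ⟨a', ha⟩ := hI a (by simp)
    obtain ⟨b', hb⟩ := hI b (by simp)
    obtain ⟨c', hc⟩ := hI c (by simp)
    obtain ⟨d', hd'⟩ := hI d (by simp)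
    refine ⟨_, a', b', c', d', ?_, ?_, rfl⟩
    · have h3 := h.diag hN0 hN0
      rw [ha, hb, hc, hd']
      convert h3 using 1
      · field_simp
      · field_simp
    · intro h3
      have h4 := congrArg (algebraMap O E) h3
      rw [map_dsc, map_zero, ha, hb, hc, hd'] at h4
      apply hd
      have h5 : dsc (a * algebraMap O E N) (b * algebraMap O E N) (c * algebraMap O E N)
          (d * algebraMap O E N) = (algebraMap O E N) ^ 4 * dsc a b c d := by
        unfold dsc; ring
      rw [h5] at h4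
      rcases mul_eq_zero.1 h4 with h6 | h6
      · exact absurd h6 (pow_ne_zero 4 hN0)
      · exact h6
  obtain ⟨n, ⟨a, b, c, d, h1, h2, h3⟩, hn⟩ := (wellFounded_dvdNotUnit
    (α := O)).has_min P hP
  have hmin : ∀ a' b' c' d' : O, GE L (algebraMap O E a') (algebraMap O E b')
      (algebraMap O E c') (algebraMap O E d') → dsc a' b' c' d' ≠ 0 →
      ¬ DvdNotUnit (dsc a' b' c' d') (dsc a b c d) := by
    intro a' b' c' d' h4 h5 h6
    rw [h3] at h6
    exact hn _ ⟨a', b', c', d', h4, h5, rfl⟩ h6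
  have h4 : dsc (-d) (-c) (-b) (-a) = dsc a b c d := by unfold dsc; ring
  refine ⟨a, b, c, d, mo_of_min h1 h2 hmin, mo_of_min (L := L) ?_ (by rw [h4]; exact h2)
    (by rw [h4]; exact hmin), h1⟩
  simpa only [map_neg] using h1.swap

end exist

end moves

end Pool.Agent.RM558
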