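import Pool.Agent.W558.RM.Chart3
import Pool.Agent.W558.RM.MaxO

/-!
# The charts are regular, for a module given by local data
-/

set_option autoImplicit false
set_option linter.unusedVariables false
set_option linter.unusedSectionVars false

namespace Pool.Agent.RM558

open IsLocalRing Pool.Agent.W418.LU2 Pool.Agent.W418.WR

section chart

variable {O E F : Type} [CommRing O] [IsDedekindDomain O] [Field E] [Algebra O E]
  [IsFractionRing O E] [Field F] [Algebra E F] [Algebra O F] [IsScalarTower O E F]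

/-- The local data at `W`. -/
def LD (M : Submodule O F) (W : Subring E) : Prop :=
  ∃ a b c d : E, ∃ u v : Fin 3 → F, Mx W (algebraMap O E).range a b c d ∧
    Mx W (algebraMap O E).range (-d) (-c) (-b) (-a) ∧
    IntermediateField.adjoin E (Set.range u ∪ Set.range v) = ⊤ ∧
    nm3 (algebraMap E F a) (algebraMap E F b) (algebraMap E F c) (algebraMap E F d) u ≠ 0 ∧
    nm3 (algebraMap E F a) (algebraMap E F b) (algebraMap E F c) (algebraMap E F d) v ≠ 0 ∧
    (∀ z ∈ M, ∃ t : O, algebraMap O E t ≠ 0 ∧ (algebraMap O E t)⁻¹ ∈ W ∧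
      t • z ∈ Submodule.span O (Fm (algebraMap E F a) (algebraMap E F b) (algebraMap E F c)
        (algebraMap E F d) u v)) ∧
    (∀ z ∈ Fm (algebraMap E F a) (algebraMap E F b) (algebraMap E F c)
        (algebraMap E F d) u v, ∃ t : O, algebraMap O E t ≠ 0 ∧ (algebraMap O E t)⁻¹ ∈ W ∧
      t • z ∈ M)

variable
  (hfin : ∀ 𝔭 : Ideal O, 𝔭.IsPrime → 𝔭 ≠ ⊥ → Finite (O ⧸ 𝔭))
  (hF : ∀ y : Fin 3 × Bool → F, IntermediateField.adjoin E (Set.range y) = ⊤ →
    AlgebraicIndependent E y)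

include hfin hF

theorem chartG (M : Submodule O F)
    (hM : ∀ W : Subring E, Loc W → (algebraMap O E).range ≤ W → LD M W)
    (f : F) (hf : f ∈ M) (hf0 : f ≠ 0) (C : Subalgebra O F)
    (hC : C = Algebra.adjoin O {w : F | ∃ m ∈ M, w = m / f})
    (q : Ideal C) [hq : q.IsPrime] : IsRegularLocalRing (Localization.AtPrime q) := by
  classical
  obtain ⟨A, hA, hCA, hfrac, hreg⟩ := exists_loc (C.val : C →+* F) Subtype.val_injective q
  apply hreg
  have hCA' : ∀ z ∈ C, z ∈ A := fun z hz => hCA ⟨z, hz⟩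
  -- the base ring
  let R : Subring E := (algebraMap O E).range
  have hRded : IsDedekindDomain R := range_ded
  have hRA : ∀ r ∈ R, algebraMap E F r ∈ A := by
    rintro _ ⟨o, rfl⟩
    rw [← IsScalarTower.algebraMap_apply]
    exact hCA' _ (Subalgebra.algebraMap_mem C o)
  have hW := loc_AE (E := E) hA
  have hRW : R ≤ AE (E := E) A := fun r hr => hRA r hr
  obtain ⟨a, b, c, d, u, v, hMx, hMx', huv, hu0, hv0, hM1, hM2⟩ := hM (AE (E := E) A) hW hRW
  obtain ⟨Φ, hΦ⟩ : ∃ Φ, Φ = Fm (algebraMap E F a) (algebraMap E F b)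
      (algebraMap E F c) (algebraMap E F d) u v := ⟨_, rfl⟩
  rw [← hΦ] at hM1 hM2
  have hspan : ∀ (Q : F → Prop), Q 0 → (∀ a b, Q a → Q b → Q (a + b)) →
      (∀ r ∈ R, ∀ a, Q a → Q (algebraMap E F r * a)) → (∀ w ∈ Φ, Q w) →
      ∀ z ∈ Submodule.span O Φ, Q z := by
    intro Q h0 hadd hsmul hQ z hz
    induction hz using Submodule.span_induction with
    | mem z hz => exact hQ z hz
    | zero => exact h0
    | add a b _ _ ha hb => exact hadd a b ha hb
    | smul o a _ ha =>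
      rw [Algebra.smul_def, IsScalarTower.algebraMap_apply O E F]
      exact hsmul _ ⟨o, rfl⟩ _ ha
  have hsm : ∀ (t : O) (z : F), t • z = algebraMap E F (algebraMap O E t) * z := fun t z => by
    rw [Algebra.smul_def, IsScalarTower.algebraMap_apply O E F]
  have hmem : ∀ w ∈ Φ, w * f⁻¹ ∈ A := by
    intro w hw
    obtain ⟨t, ht0, htW, ht⟩ := hM2 w hw
    have ht0' : algebraMap E F (algebraMap O E t) ≠ 0 := (_root_.map_ne_zero _).2 ht0
    have h1 : w * f⁻¹ = algebraMap E F (algebraMap O E t)⁻¹ * (t • w / f) := by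
      rw [hsm, map_inv₀]
      field_simp
    rw [h1]
    refine A.mul_mem htW (hCA' _ ?_)
    rw [hC]
    exact Algebra.subset_adjoin ⟨_, ht, rfl⟩
  have hunit : ∃ w ∈ Φ, ¬ NU A (w * f⁻¹) := by
    by_contra hcon
    push Not at hcon
    obtain ⟨t, ht0, htW, ht⟩ := hM1 f hf
    have ht0' : algebraMap E F (algebraMap O E t) ≠ 0 := (_root_.map_ne_zero _).2 ht0
    have h3 := hspan (fun z => NU A (z * f⁻¹)) (by
        rw [zero_mul]
        exact ⟨A.zero_mem, fun h => h.1 rfl⟩)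
      (fun a b ha hb => by
        rw [add_mul]
        exact NU.add hA ha hb)
      (fun r hr a ha => by
        rw [mul_assoc]
        exact NU.mul_left hA (hRA r hr) ha)
      hcon _ ht
    have h4 : t • f * f⁻¹ = algebraMap E F (algebraMap O E t) := by
      rw [hsm]
      field_simp
    rw [h4] at h3
    refine h3.2 ⟨ht0', ?_⟩
    rw [← map_inv₀]
    exact htW
  have hgenA : ∀ g : F, g ≠ 0 → g * f⁻¹ ∈ A → f * g⁻¹ ∈ A →
      A ≤ lo A (Subring.closure ((B0 A R : Set F) ∪ {z | ∃ w ∈ Φ, z = w * g⁻¹})) := by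
    intro g hg0 hgf hfg
    set D := Subring.closure ((B0 A R : Set F) ∪ {z | ∃ w ∈ Φ, z = w * g⁻¹}) with hD
    have hDA : D ≤ A := by
      rw [hD, Subring.closure_le]
      rintro z (hz | ⟨w, hw, rfl⟩)
      · exact B0_le hRA hz
      · have h3 : w * g⁻¹ = w * f⁻¹ * (f * g⁻¹) := by field_simp
        rw [h3]
        exact A.mul_mem (hmem w hw) hfg
    have hBD : B0 A R ≤ D := fun z hz => Subring.subset_closure (Or.inl hz)
    have hMD' : ∀ z ∈ Submodule.span O Φ, z * g⁻¹ ∈ D := hspan (fun z => z * g⁻¹ ∈ D) (by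
        rw [zero_mul]
        exact D.zero_mem)
      (fun a b ha hb => by
        rw [add_mul]
        exact D.add_mem ha hb)
      (fun r hr a ha => by
        rw [mul_assoc]
        exact D.mul_mem (hBD (alg_mem_B0 hRA (le_lo _ _ hr))) ha)
      (fun w hw => Subring.subset_closure (Or.inr ⟨w, hw, rfl⟩))
    have hMD : ∀ z ∈ M, z * g⁻¹ ∈ D := by
      intro z hz
      obtain ⟨t, ht0, htW, ht⟩ := hM1 z hz
      have ht0' : algebraMap E F (algebraMap O E t) ≠ 0 := (_root_.map_ne_zero _).2 ht0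
      have h1 : z * g⁻¹ = algebraMap E F (algebraMap O E t)⁻¹ * (t • z * g⁻¹) := by
        rw [hsm, map_inv₀]
        field_simp
      rw [h1]
      refine D.mul_mem (hBD (alg_mem_B0 hRA ?_)) (hMD' _ ht)
      exact inv_mem_lo hRW (le_lo _ _ ⟨t, rfl⟩) ht0 htW
    have hgf' : g * f⁻¹ ∈ lo A D := by
      have h3 := inv_mem_lo hDA (le_lo A D (hMD f hf)) (mul_ne_zero hf0 (inv_ne_zero hg0)) (by
        rw [mul_inv, inv_inv, mul_comm]
        exact hgf)
      rwa [mul_inv, inv_inv, mul_comm] at h3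
    have hCD : ∀ z ∈ C, z ∈ lo A D := by
      intro z hz
      rw [hC] at hz
      induction hz using Algebra.adjoin_induction with
      | mem z hz =>
        obtain ⟨n, hn, rfl⟩ := hz
        have h3 : n / f = n * g⁻¹ * (g * f⁻¹) := by field_simp
        rw [h3]
        exact (lo A D).mul_mem (le_lo A D (hMD n hn)) hgf'
      | algebraMap o =>
        rw [IsScalarTower.algebraMap_apply O E F]
        exact le_lo A D (hBD (alg_mem_B0 hRA (le_lo _ _ ⟨o, rfl⟩)))
      | add a b _ _ ha hb => exact (lo A D).add_mem ha hb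
      | mul a b _ _ ha hb => exact (lo A D).mul_mem ha hb
    intro z hz
    obtain ⟨a, b, hb0, hbA, rfl⟩ := hfrac z hz
    exact (lo A D).mul_mem (hCD _ a.2) (inv_mem_lo hDA (hCD _ b.2) hb0 hbA)
  subst hΦ
  exact loc_all hA hRA hF (range_fin (IsFractionRing.injective O E) hfin) range_frac
    hMx hMx' u v huv hu0 hv0 hf0 hmem hunit hgenA

end chart

section coprime

/-- Splitting off the part of `h` supported at the primes containing `D`. -/
theorem exists_split {O : Type} [CommRing O] [IsDedekindDomain O] {h D : O} (hh : h ≠ 0) :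
    ∃ (s : O) (j : ℕ), (∀ 𝔭 : Ideal O, 𝔭.IsPrime → D ∈ 𝔭 → s ∉ 𝔭) ∧ h ∣ s * D ^ j := by
  classical
  -- the saturated ideal
  let J : Ideal O :=
    { carrier := {s | ∃ j : ℕ, h ∣ s * D ^ j}
      add_mem' := by
        rintro a b ⟨i, hi⟩ ⟨j, hj⟩
        refine ⟨i + j, ?_⟩
        have h1 : (a + b) * D ^ (i + j) = (a * D ^ i) * D ^ j + (b * D ^ j) * D ^ i := by ring
        rw [h1]
        exact dvd_add (hi.mul_right _) (hj.mul_right _)
      zero_mem' := ⟨0, by rw [zero_mul]; exact dvd_zero _⟩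
      smul_mem' := by
        rintro c a ⟨i, hi⟩
        refine ⟨i, ?_⟩
        rw [smul_eq_mul, mul_assoc]
        exact hi.mul_left _ }
  have hJ : J ⊔ Ideal.span {D} = ⊤ := by
    by_contra hne
    obtain ⟨𝔭, h𝔭, hle⟩ := Ideal.exists_le_maximal _ hne
    have hpp := h𝔭.isPrime
    have hD𝔭 : D ∈ 𝔭 := hle (Ideal.mem_sup_right (Ideal.mem_span_singleton_self D))
    have hJ𝔭 : J ≤ 𝔭 := le_sup_left.trans hle
    have hI0 : Ideal.span {h} ≠ ⊥ := by
      rw [Ne, Ideal.span_singleton_eq_bot]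
      exact hh
    have hfm : FiniteMultiplicity 𝔭 (Ideal.span {h}) := by
      apply FiniteMultiplicity.of_not_isUnit
      · intro hu
        rw [Ideal.isUnit_iff] at hu
        exact hpp.ne_top hu
      · exact hI0
    obtain ⟨n, 𝔠, hc, hnd⟩ : ∃ n : ℕ, ∃ 𝔠 : Ideal O, Ideal.span {h} = 𝔭 ^ n * 𝔠 ∧ ¬ 𝔭 ∣ 𝔠 :=
      ⟨_, hfm.exists_eq_pow_mul_and_not_dvd⟩
    obtain ⟨t, ht, ht𝔭⟩ : ∃ t ∈ 𝔠, t ∉ 𝔭 := by
      by_contra hcon
      push Not at hcon
      exact hnd (Ideal.dvd_iff_le.2 hcon)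
    apply ht𝔭
    apply hJ𝔭
    refine ⟨n, ?_⟩
    rw [← Ideal.mem_span_singleton, hc, mul_comm t]
    exact Ideal.mul_mem_mul (Ideal.pow_mem_pow hD𝔭 _) ht
  obtain ⟨s, hs, y, hy, hsy⟩ := Submodule.mem_sup.1 ((Ideal.eq_top_iff_one _).1 hJ)
  obtain ⟨j, hj⟩ := hs
  refine ⟨s, j, fun 𝔭 h𝔭 hD hs𝔭 => ?_, hj⟩
  apply h𝔭.ne_top
  rw [Ideal.eq_top_iff_one, ← hsy]
  refine 𝔭.add_mem hs𝔭 ?_
  exact (Ideal.span_singleton_le_iff_mem _).2 hD hy

end coprime

end Pool.Agent.RM558
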