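import Pool.Agent.W558.RM.Semi
import Pool.Agent.W558.RM.RCO

/-!
# The global module
-/

set_option autoImplicit false
set_option linter.unusedVariables false
set_option linter.unusedSectionVars false

namespace Pool.Agent.RM558

open IsLocalRing Pool.Agent.W418.LU2 Pool.Agent.W418.WR Pool.Agent.W418
open scoped nonZeroDivisors

section lat

variable {O E F : Type} [CommRing O] [IsDedekindDomain O] [Field E] [Algebra O E]
  [IsFractionRing O E] [Field F] [Algebra E F] [Algebra O F] [IsScalarTower O E F]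

lemma common_den (S T : Set F) (hS : S.Finite) (h : ∀ z ∈ S, z ∈ Submodule.span E T) :
    ∃ s : O, s ≠ 0 ∧ ∀ z ∈ S, s • z ∈ Submodule.span O T := by
  classical
  induction S, hS using Set.Finite.induction_on with
  | empty => exact ⟨1, one_ne_zero, fun z hz => absurd hz (Set.notMem_empty z)⟩
  | insert ha hs ih =>
    obtain ⟨s, hs0, hs1⟩ := ih fun z hz => h z (Set.mem_insert_of_mem _ hz)
    obtain ⟨t, ht0, ht1⟩ := exists_smul_span (O := O) T _ (h _ (Set.mem_insert _ _))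
    refine ⟨s * t, mul_ne_zero hs0 ht0, ?_⟩
    rintro z (rfl | hz)
    · rw [mul_smul]
      exact Submodule.smul_mem _ _ ht1
    · rw [mul_comm, mul_smul]
      exact Submodule.smul_mem _ _ (hs1 z hz)

lemma smul_span_mem {T U : Set F} {r : O} (h : ∀ z ∈ T, r • z ∈ Submodule.span O U) {z : F}
    (hz : z ∈ Submodule.span O T) : r • z ∈ Submodule.span O U := by
  induction hz using Submodule.span_induction with
  | mem z hz => exact h z hz
  | zero => rw [smul_zero]; exact Submodule.zero_mem _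
  | add a b _ _ ha hb => rw [smul_add]; exact Submodule.add_mem _ ha hb
  | smul o a _ ha => rw [smul_comm]; exact Submodule.smul_mem _ _ ha

theorem exists_lattice {L : Submodule E F} {a b c d : E} (h : GE L a b c d)
    (hd : dsc a b c d ≠ 0) : ∃ M : Submodule O F, M.FG ∧ (∀ z ∈ M, z ∈ L) ∧
      (∀ z ∈ L, ∃ s : O, s ≠ 0 ∧ s • z ∈ M) ∧
      (∀ W : Subring E, Loc W → (algebraMap O E).range ≤ W → LD M W) := by
  classical
  have hinj : Function.Injective (algebraMap O E) := IsFractionRing.injective O E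
  obtain ⟨a₀, b₀, c₀, d₀, hD, hG₀⟩ := exists_intO (O := O) h hd
  obtain ⟨D, hDe⟩ : ∃ D, D = dsc a₀ b₀ c₀ d₀ := ⟨_, rfl⟩
  rw [← hDe] at hD
  obtain ⟨a₁, b₁, c₁, d₁, hG₁, hbad⟩ := exists_bad h hd hD
  obtain ⟨u₀, v₀, huv₀, hu₀, hv₀, hL₀⟩ := hG₀
  obtain ⟨u₁, v₁, huv₁, hu₁, hv₁, hL₁⟩ := hG₁
  obtain ⟨Φ₀, hΦ₀⟩ : ∃ Φ, Φ = Fm (algebraMap E F (algebraMap O E a₀))
    (algebraMap E F (algebraMap O E b₀)) (algebraMap E F (algebraMap O E c₀))
    (algebraMap E F (algebraMap O E d₀)) u₀ v₀ := ⟨_, rfl⟩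
  obtain ⟨Φ₁, hΦ₁⟩ : ∃ Φ, Φ = Fm (algebraMap E F (algebraMap O E a₁))
    (algebraMap E F (algebraMap O E b₁)) (algebraMap E F (algebraMap O E c₁))
    (algebraMap E F (algebraMap O E d₁)) u₁ v₁ := ⟨_, rfl⟩
  have hf₀ : Φ₀.Finite := hΦ₀ ▸ Fm_finite _ _ _ _ _ _
  have hf₁ : Φ₁.Finite := hΦ₁ ▸ Fm_finite _ _ _ _ _ _
  rw [← hΦ₀] at hL₀
  rw [← hΦ₁] at hL₁
  obtain ⟨h₀, hh₀, hh₀'⟩ := common_den (O := O) Φ₁ Φ₀ hf₁ fun z hz => by
    rw [hL₀, ← hL₁]
    exact Submodule.subset_span hz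
  obtain ⟨h₁, hh₁, hh₁'⟩ := common_den (O := O) Φ₀ Φ₁ hf₀ fun z hz => by
    rw [hL₁, ← hL₀]
    exact Submodule.subset_span hz
  obtain ⟨s, j, hs, e, he⟩ := exists_split (D := D) hh₀
  obtain ⟨t, k, ht, e', he'⟩ := exists_split (D := D) hh₁
  obtain ⟨M, hM⟩ : ∃ M : Submodule O F, M = Submodule.span O ((fun z : F => s • z) '' Φ₁ ∪
    (fun z : F => D ^ k • z) '' Φ₀) := ⟨_, rfl⟩
  have hM₁ : ∀ w ∈ Φ₁, s • w ∈ M := fun w hw => by
    rw [hM]; exact Submodule.subset_span (Or.inl ⟨w, hw, rfl⟩)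
  have hM₀ : ∀ w ∈ Φ₀, D ^ k • w ∈ M := fun w hw => by
    rw [hM]; exact Submodule.subset_span (Or.inr ⟨w, hw, rfl⟩)
  have hLs : ∀ (r : O) (z : F), z ∈ L → r • z ∈ L := fun r z hz => by
    rw [← algebraMap_smul E r z]
    exact L.smul_mem _ hz
  refine ⟨M, ?_, ?_, ?_, ?_⟩
  · rw [hM]
    exact Submodule.fg_span ((hf₁.image _).union (hf₀.image _))
  · intro z hz
    have h1 : M ≤ L.restrictScalars O := by
      rw [hM, Submodule.span_le]
      rintro _ (⟨w, hw, rfl⟩ | ⟨w, hw, rfl⟩)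
      · refine hLs _ _ ?_
        rw [← hL₁]
        exact Submodule.subset_span hw
      · refine hLs _ _ ?_
        rw [← hL₀]
        exact Submodule.subset_span hw
    exact h1 hz
  · intro z hz
    rw [← hL₀] at hz
    obtain ⟨r, hr, hrz⟩ := exists_smul_span (O := O) Φ₀ z hz
    refine ⟨D ^ k * r, mul_ne_zero (pow_ne_zero k hD) hr, ?_⟩
    rw [mul_smul, hM]
    refine smul_span_mem (fun w hw => ?_) hrz
    rw [← hM]
    exact hM₀ w hw
  · intro W hW hRW
    have hR : ∀ x : O, algebraMap O E x ∈ (algebraMap O E).range := fun x => ⟨x, rfl⟩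
    by_cases hDW : NU W (algebraMap O E D)
    · obtain ⟨𝔭, h𝔭, hmem⟩ := center (O := O) hW hRW
      have hunit : ∀ x : O, x ∉ 𝔭 → algebraMap O E x ≠ 0 ∧ (algebraMap O E x)⁻¹ ∈ W := by
        intro x hx
        by_contra hcon
        exact hx ((hmem x).2 ⟨hRW (hR x), hcon⟩)
      have hD𝔭 : D ∈ 𝔭 := (hmem D).2 hDW
      obtain ⟨hMx, hMx'⟩ := hbad W hW hRW hDW
      refine ⟨_, _, _, _, u₁, v₁, hMx, hMx', huv₁, hu₁, hv₁, ?_, ?_⟩
      · rw [← hΦ₁]
        intro z hz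
        have h1 := hunit t (ht 𝔭 h𝔭 hD𝔭)
        refine ⟨t, h1.1, h1.2, ?_⟩
        rw [hM] at hz
        refine smul_span_mem ?_ hz
        rintro _ (⟨w, hw, rfl⟩ | ⟨w, hw, rfl⟩)
        · exact Submodule.smul_mem _ _ (Submodule.smul_mem _ _ (Submodule.subset_span hw))
        · change t • D ^ k • w ∈ _
          rw [← mul_smul, he', mul_comm, mul_smul]
          exact Submodule.smul_mem _ _ (hh₁' w hw)
      · rw [← hΦ₁]
        intro w hw
        have h1 := hunit s (hs 𝔭 h𝔭 hD𝔭)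
        exact ⟨s, h1.1, h1.2, hM₁ w hw⟩
    · have hDu : algebraMap O E D ≠ 0 ∧ (algebraMap O E D)⁻¹ ∈ W := by
        by_contra hcon
        exact hDW ⟨hRW (hR D), hcon⟩
      have hDe' : dsc (algebraMap O E a₀) (algebraMap O E b₀) (algebraMap O E c₀)
          (algebraMap O E d₀) = algebraMap O E D := by
        rw [hDe, map_dsc]
      have hDe'' : dsc (-algebraMap O E d₀) (-algebraMap O E c₀) (-algebraMap O E b₀)
          (-algebraMap O E a₀) = algebraMap O E D := by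
        rw [← hDe']
        unfold dsc
        ring
      refine ⟨_, _, _, _, u₀, v₀, mx_good hW hRW (hR a₀) (hR b₀) (hR c₀) (hR d₀)
        (by rw [hDe']; exact hDu.1) (by rw [hDe']; exact hDW), mx_good hW hRW
        (Subring.neg_mem _ (hR d₀)) (Subring.neg_mem _ (hR c₀)) (Subring.neg_mem _ (hR b₀))
        (Subring.neg_mem _ (hR a₀)) (by rw [hDe'']; exact hDu.1) (by rw [hDe'']; exact hDW),
        huv₀, hu₀, hv₀, ?_, ?_⟩
      · rw [← hΦ₀]
        intro z hz
        refine ⟨D ^ j, by rw [map_pow]; exact pow_ne_zero j hDu.1, by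
          rw [map_pow, ← inv_pow]; exact W.pow_mem hDu.2 j, ?_⟩
        rw [hM] at hz
        refine smul_span_mem ?_ hz
        rintro _ (⟨w, hw, rfl⟩ | ⟨w, hw, rfl⟩)
        · change D ^ j • s • w ∈ _
          rw [← mul_smul, mul_comm (D ^ j), he, mul_comm, mul_smul]
          exact Submodule.smul_mem _ _ (hh₀' w hw)
        · exact Submodule.smul_mem _ _ (Submodule.smul_mem _ _ (Submodule.subset_span hw))
      · rw [← hΦ₀]
        intro w hw
        exact ⟨D ^ k, by rw [map_pow]; exact pow_ne_zero k hDu.1, by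
          rw [map_pow, ← inv_pow]; exact W.pow_mem hDu.2 k, hM₀ w hw⟩

end lat

end Pool.Agent.RM558
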