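import Pool.Agent.W418.WR.Base

/-!
# A binary cubic form of a maximal order as a parameter
-/

set_option autoImplicit false
set_option linter.unusedVariables false
set_option linter.unusedSectionVars false

universe u v

namespace Pool.Agent.RM558

open IsLocalRing Pool.Agent.W418.LU2 Polynomial Pool.Agent.W418.WR

/-- Two different double roots of a cubic. -/
lemma two_dbl {κ : Type*} [Field κ] {a b c d s t : κ} (hst : s ≠ t)
    (h1 : a * s ^ 3 + b * s ^ 2 + c * s + d = 0) (h2 : 3 * a * s ^ 2 + 2 * b * s + c = 0)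
    (h3 : a * t ^ 3 + b * t ^ 2 + c * t + d = 0) (h4 : 3 * a * t ^ 2 + 2 * b * t + c = 0) :
    a = 0 ∧ b = 0 ∧ c = 0 ∧ d = 0 := by
  have hs : t - s ≠ 0 := sub_ne_zero.2 hst.symm
  have h5 : (t - s) ^ 2 * (a * (t + 2 * s) + b) = 0 := by linear_combination h3 - h1 - (t - s) * h2
  have h6 : (t - s) ^ 2 * (a * (s + 2 * t) + b) = 0 := by linear_combination h1 - h3 + (t - s) * h4
  have h7 : a * (t + 2 * s) + b = 0 := by
    rcases mul_eq_zero.1 h5 with h | h
    · exact absurd h (pow_ne_zero 2 hs)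
    · exact h
  have h8 : a * (s + 2 * t) + b = 0 := by
    rcases mul_eq_zero.1 h6 with h | h
    · exact absurd h (pow_ne_zero 2 hs)
    · exact h
  have h9 : a * (t - s) = 0 := by linear_combination h8 - h7
  have ha : a = 0 := by
    rcases mul_eq_zero.1 h9 with h | h
    · exact h
    · exact absurd h hs
  have hb : b = 0 := by rw [ha] at h7; linear_combination h7
  have hc : c = 0 := by rw [ha, hb] at h2; linear_combination h2
  have hd : d = 0 := by rw [ha, hb, hc] at h1; linear_combination h1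
  exact ⟨ha, hb, hc, hd⟩

lemma dbl {κ : Type*} [Field κ] (S : Subring κ) [Finite S] {a b c d s : κ}
    (ha : a ∈ S) (hb : b ∈ S) (hc : c ∈ S) (hd : d ∈ S)
    (hne : ¬ (a = 0 ∧ b = 0 ∧ c = 0 ∧ d = 0))
    (h1 : a * s ^ 3 + b * s ^ 2 + c * s + d = 0) (h2 : 3 * a * s ^ 2 + 2 * b * s + c = 0) :
    s ∈ S := by
  classical
  have _ := Fintype.ofFinite S
  let _ : Field S := Fintype.fieldOfDomain S
  obtain ⟨p, hp⟩ := CharP.exists S
  obtain ⟨n, hpp, hcard⟩ := FiniteField.card S p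
  have hF : Fact p.Prime := ⟨hpp⟩
  have hpκ : CharP κ p := by
    refine (CharP.charP_iff_prime_eq_zero hpp).2 ?_
    have h3 : (p : S) = 0 := CharP.cast_eq_zero S p
    rw [← map_natCast S.subtype, h3, map_zero]
  have hfix : ∀ x ∈ S, iterateFrobenius κ p n x = x := by
    intro x hx
    rw [iterateFrobenius_def, ← hcard]
    exact congrArg Subtype.val (FiniteField.pow_card (⟨x, hx⟩ : S))
  set t := iterateFrobenius κ p n s with ht
  by_cases hst : s = t
  · -- `s ^ q = s`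
    by_contra hsS
    let P : κ[X] := X ^ (Fintype.card S) - X
    have hq1 : 1 < Fintype.card S := Fintype.one_lt_card
    have hP0 : P ≠ 0 := FiniteField.X_pow_card_sub_X_ne_zero κ hq1
    have hdeg : P.natDegree = Fintype.card S := FiniteField.X_pow_card_sub_X_natDegree_eq κ hq1
    let T : Finset κ := insert s (Finset.univ.map ⟨(Subtype.val : S → κ), Subtype.val_injective⟩)
    have hT : T ⊆ P.roots.toFinset := by
      intro x hx
      rw [Multiset.mem_toFinset, mem_roots hP0, IsRoot.def]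
      simp only [P, eval_sub, eval_pow, eval_X]
      rw [Finset.mem_insert] at hx
      rcases hx with rfl | hx
      · rw [sub_eq_zero, hcard]
        rw [iterateFrobenius_def] at ht
        rw [← ht]
        exact hst.symm
      · rw [Finset.mem_map] at hx
        obtain ⟨y, -, rfl⟩ := hx
        rw [sub_eq_zero]
        exact congrArg Subtype.val (FiniteField.pow_card y)
    have hcT : T.card = Fintype.card S + 1 := by
      rw [Finset.card_insert_of_notMem, Finset.card_map, Finset.card_univ]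
      intro h
      rw [Finset.mem_map] at h
      obtain ⟨y, -, hy⟩ := h
      exact hsS (hy ▸ y.2)
    have h3 : T.card ≤ P.natDegree :=
      (Finset.card_le_card hT).trans ((Multiset.toFinset_card_le _).trans (card_roots' P))
    omega
  · exfalso
    apply hne
    refine two_dbl hst h1 h2 ?_ ?_
    · have h3 := congrArg (iterateFrobenius κ p n) h1
      rw [map_zero, map_add, map_add, map_add, map_mul, map_mul, map_mul, map_pow, map_pow,
        hfix a ha, hfix b hb, hfix c hc, hfix d hd] at h3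
      exact h3
    · have h3 := congrArg (iterateFrobenius κ p n) h2
      rw [map_zero, map_add, map_add, map_mul, map_mul, map_mul, map_mul, map_pow, map_ofNat,
        map_ofNat, hfix a ha, hfix b hb, hfix c hc] at h3
      exact h3

variable {F : Type u} [Field F] {A S : Subring F} (hA : Loc A) (hS : S ≤ A)

include hA hS

theorem par_ram3 {ϖ : F} (h : RegP A (lo A S) (fun _ : Unit => ϖ)) (hϖ : ϖ⁻¹ ∉ A) {b : F}
    (hb0 : b ≠ 0) (hb : NU A b) (htr : ∀ g : (lo A S)[X], eval₂ (lo A S).subtype b g = 0 → g = 0)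
    {u w q : F} (hu : u ∈ lo A S) (hu1 : ¬ NU A u) (hw : w ∈ lo A S) (hw1 : NU A w)
    (hq : q ∈ lo A (Subring.closure (insert b (S : Set F)))) :
    RegP A (lo A (Subring.closure (insert b (S : Set F))))
      (fun _ : Unit => q * b ^ 2 + w * b + u * ϖ) := by
  classical
  have h1 := h.trans hA hS hb.1 hb0 htr
  have hreg := h1.reg
  set P := lo A (Subring.closure (insert b (S : Set F))) with hPdef
  have hle : lo A S ≤ P := lo_mono fun y hy => Subring.subset_closure (Set.mem_insert_of_mem _ hy)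
  have hbP : b ∈ P := h1.mem (Sum.inr ())
  have hϖP : ϖ ∈ P := h1.mem (Sum.inl ())
  have hwP : w ∈ P := hle hw
  have huP : u ∈ P := hle hu
  have hmax : ∀ y : P, y ∈ maximalIdeal P ↔ NU A (y : F) := by
    intro y
    rw [h1.mem_max]
    exact ⟨fun h => ⟨h1.PA y.2, h⟩, fun h => h.2⟩
  have hg : q * b ^ 2 + w * b + u * ϖ ∈ P :=
    P.add_mem (P.add_mem (P.mul_mem hq (P.pow_mem hbP 2)) (P.mul_mem hwP hbP)) (P.mul_mem huP hϖP)
  have hkey : (⟨_, hg⟩ : P) ∉ maximalIdeal P ^ 2 := by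
    intro h2
    have h3 : (⟨b, hbP⟩ : P) ∈ maximalIdeal P := (hmax _).2 hb
    have h4 : (⟨w, hwP⟩ : P) ∈ maximalIdeal P := (hmax _).2 hw1
    have h5 : (⟨q, hq⟩ : P) * (⟨b, hbP⟩ : P) ^ 2 + ⟨w, hwP⟩ * ⟨b, hbP⟩ ∈ maximalIdeal P ^ 2 :=
      Ideal.add_mem _ (Ideal.mul_mem_left _ _ (Ideal.pow_mem_pow h3 2))
        (by rw [pow_two]; exact Ideal.mul_mem_mul h4 h3)
    have h6 : (⟨u, huP⟩ : P) * ⟨ϖ, hϖP⟩ ∈ maximalIdeal P ^ 2 := by
      have h7 : (⟨_, hg⟩ : P) = ((⟨q, hq⟩ : P) * (⟨b, hbP⟩ : P) ^ 2 + ⟨w, hwP⟩ * ⟨b, hbP⟩) +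
          (⟨u, huP⟩ : P) * ⟨ϖ, hϖP⟩ := rfl
      rw [h7] at h2
      exact (Ideal.add_mem_iff_right _ h5).1 h2
    have h7 := h1.ind (Sum.elim (fun _ => (⟨u, huP⟩ : P)) (fun _ => 0)) (by
      rintro (i | i) hi
      · exfalso
        apply hi
        rw [hmax]
        exact ⟨h1.PA hϖP, fun h => hϖ h.2⟩
      · rfl) (by
      rw [Fintype.sum_sum_type, Fintype.sum_unique, Fintype.sum_unique]
      simp only [Sum.elim_inl, Sum.elim_inr, zero_mul, add_zero]
      exact h6) (Sum.inl ())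
    simp only [Sum.elim_inl] at h7
    exact hu1 ((hmax _).1 h7)
  refine ⟨h1.PA, fun _ h2 => ?_, fun _ => hg, h1.reg, h1.inv, indN_unit _ fun _ => hkey⟩
  apply hkey
  have h3 : (⟨_, hg⟩ : P) = 0 := Subtype.ext h2
  rw [h3]
  exact Ideal.zero_mem _

omit hA hS

section

variable {E : Type u} [Field E] [Algebra E F] {R : Subring E}
  (hRA : ∀ r ∈ R, algebraMap E F r ∈ A)

include hRA

lemma centre (hA : Loc A)
    (hfin : ∀ 𝔭 : Ideal R, 𝔭.IsPrime → 𝔭 ≠ ⊥ → Finite (R ⧸ 𝔭)) {a₀ b₀ c₀ d₀ : E}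
    (ha₀ : a₀ ∈ R) (hb₀ : b₀ ∈ R) (hc₀ : c₀ ∈ R) (hd₀ : d₀ ∈ R)
    (hprim : ¬ (NU A (algebraMap E F a₀) ∧ NU A (algebraMap E F b₀) ∧ NU A (algebraMap E F c₀) ∧
      NU A (algebraMap E F d₀)))
    (hne : ∃ r ∈ R, r ≠ 0 ∧ NU A (algebraMap E F r))
    {a : F} (ha : a ∈ A)
    (h1 : NU A (algebraMap E F a₀ * a ^ 3 + algebraMap E F b₀ * a ^ 2 + algebraMap E F c₀ * a +
      algebraMap E F d₀))
    (h2 : NU A (3 * algebraMap E F a₀ * a ^ 2 + 2 * algebraMap E F b₀ * a + algebraMap E F c₀)) :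
    ∃ α ∈ R, NU A (a - algebraMap E F α) := by
  classical
  have hloc : IsLocalRing A := isLocalRing_of_loc hA
  let ψ : R →+* A := ((algebraMap E F).comp R.subtype).codRestrict A (fun r => hRA r r.2)
  let φ : R →+* ResidueField A := (residue A).comp ψ
  have hres : ∀ z : A, residue A z = 0 ↔ NU A (z : F) := by
    intro z
    rw [residue_eq_zero_iff, nu_iff hA]
  have hker : RingHom.ker φ ≠ ⊥ := by
    obtain ⟨r, hr, hr0, hrN⟩ := hne
    intro h
    have h3 : (⟨r, hr⟩ : R) ∈ RingHom.ker φ := by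
      rw [RingHom.mem_ker]
      exact (hres _).2 hrN
    rw [h, Ideal.mem_bot] at h3
    exact hr0 (congrArg Subtype.val h3)
  have hpr : (RingHom.ker φ).IsPrime := RingHom.ker_isPrime φ
  have hf := hfin (RingHom.ker φ) hpr hker
  have hfr : Finite φ.range := Finite.of_equiv _ (RingHom.quotientKerEquivRange φ).toEquiv
  have hmem : ∀ {r : E} (hr : r ∈ R), residue A ⟨algebraMap E F r, hRA r hr⟩ ∈ φ.range :=
    fun {r} hr => ⟨⟨r, hr⟩, rfl⟩
  have h3 := dbl (κ := ResidueField A) φ.range (s := residue A ⟨a, ha⟩) (hmem ha₀) (hmem hb₀)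
    (hmem hc₀) (hmem hd₀) (by
      rintro ⟨h3, h4, h5, h6⟩
      exact hprim ⟨(hres _).1 h3, (hres _).1 h4, (hres _).1 h5, (hres _).1 h6⟩) (by
      rw [← map_pow, ← map_pow, ← map_mul, ← map_mul, ← map_mul, ← map_add, ← map_add, ← map_add,
        hres]
      exact h1) (by
      have h4 : (3 : ResidueField A) = residue A 3 := (map_ofNat _ 3).symm
      have h5 : (2 : ResidueField A) = residue A 2 := (map_ofNat _ 2).symm
      rw [h4, h5, ← map_pow, ← map_mul, ← map_mul, ← map_mul, ← map_mul, ← map_add, ← map_add,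
        hres]
      exact h2)
  obtain ⟨r, hr⟩ := h3
  refine ⟨r, r.2, ?_⟩
  have h4 : residue A (⟨a, ha⟩ - ψ r) = 0 := by
    rw [map_sub, sub_eq_zero]
    exact hr.symm
  exact (hres _).1 h4

theorem par3 (hA : Loc A) [IsDedekindDomain R]
    (hfin : ∀ 𝔭 : Ideal R, 𝔭.IsPrime → 𝔭 ≠ ⊥ → Finite (R ⧸ 𝔭))
    (hfr : ∀ z : E, ∃ a ∈ R, ∃ b ∈ R, b ≠ 0 ∧ z = a * b⁻¹) {a₀ b₀ c₀ d₀ : E}
    (ha₀ : a₀ ∈ R) (hb₀ : b₀ ∈ R) (hc₀ : c₀ ∈ R) (hd₀ : d₀ ∈ R)
    (hdisc : b₀ ^ 2 * c₀ ^ 2 - 4 * a₀ * c₀ ^ 3 - 4 * b₀ ^ 3 * d₀ - 27 * a₀ ^ 2 * d₀ ^ 2 +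
      18 * a₀ * b₀ * c₀ * d₀ ≠ 0)
    (hprim : ¬ (NU (AE (E := E) A) a₀ ∧ NU (AE (E := E) A) b₀ ∧ NU (AE (E := E) A) c₀ ∧
      NU (AE (E := E) A) d₀))
    (hram : ∀ α ϖ c₁ c₂ : E, α ∈ R → ϖ ∈ lo (AE A) R → c₁ ∈ lo (AE A) R →
      c₂ ∈ lo (AE A) R → ϖ ≠ 0 → ϖ⁻¹ ∉ AE (E := E) A →
      3 * a₀ * α ^ 2 + 2 * b₀ * α + c₀ = c₁ * ϖ →
      a₀ * α ^ 3 + b₀ * α ^ 2 + c₀ * α + d₀ = c₂ * ϖ ^ 2 → False)
    {a : F} (ha : a ∈ A)
    (htr : ∀ g : (lo A (B0 A R))[X], eval₂ (lo A (B0 A R)).subtype a g = 0 → g = 0) :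
    RegP A (lo A (Subring.closure (insert a (B0 A R : Set F))))
      (fun _ : Unit => algebraMap E F a₀ * a ^ 3 + algebraMap E F b₀ * a ^ 2 +
        algebraMap E F c₀ * a + algebraMap E F d₀) := by
  classical
  have hA' := loc_AE (E := E) hA
  have hRA' : R ≤ AE (E := E) A := fun r hr => hRA r hr
  have hBA := B0_le hRA
  obtain ⟨hN, hcmp, ϖ, hϖ, hdiv⟩ := ded_base (AE (E := E) A) hA' R hRA' hfr
  have hreg : RegP A (lo A (B0 A R)) (fun _ : Unit => algebraMap E F ϖ) := by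
    rw [lo_B0 hRA]
    exact hϖ.map (algebraMap E F) (fun e => Iff.rfl)
  have hlo : ∀ e : E, e ∈ lo (AE (E := E) A) R → algebraMap E F e ∈ lo A (B0 A R) := fun e he =>
    le_lo _ _ (alg_mem_B0 hRA he)
  have haP : a₀ ∈ lo (AE (E := E) A) R := le_lo _ _ ha₀
  have hbP : b₀ ∈ lo (AE (E := E) A) R := le_lo _ _ hb₀
  have hcP : c₀ ∈ lo (AE (E := E) A) R := le_lo _ _ hc₀
  have hdP : d₀ ∈ lo (AE (E := E) A) R := le_lo _ _ hd₀
  have ha0 : a ≠ 0 := by
    intro h
    have h1 := htr X (by rw [eval₂_X, h])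
    exact X_ne_zero h1
  let G : (lo A (B0 A R))[X] := C ⟨_, hlo a₀ haP⟩ * X ^ 3 + C ⟨_, hlo b₀ hbP⟩ * X ^ 2 +
    C ⟨_, hlo c₀ hcP⟩ * X + C ⟨_, hlo d₀ hdP⟩
  have hGe : ∀ z : F, eval₂ (lo A (B0 A R)).subtype z G =
      algebraMap E F a₀ * z ^ 3 + algebraMap E F b₀ * z ^ 2 + algebraMap E F c₀ * z +
        algebraMap E F d₀ := by
    intro z
    simp only [G, eval₂_add, eval₂_mul, eval₂_pow, eval₂_X, eval₂_C]
    rfl
  have hGd : eval₂ (lo A (B0 A R)).subtype a (derivative G) =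
      3 * algebraMap E F a₀ * a ^ 2 + 2 * algebraMap E F b₀ * a + algebraMap E F c₀ := by
    simp only [G, derivative_add, derivative_X_pow, derivative_mul, derivative_C, derivative_X,
      zero_mul, zero_add, mul_one, add_zero, eval₂_add, eval₂_mul, eval₂_C, eval₂_X, eval₂_pow,
      Nat.cast_ofNat, Nat.add_one_sub_one, pow_one]
    rw [map_ofNat, map_ofNat]
    change algebraMap E F a₀ * (3 * a ^ 2) + algebraMap E F b₀ * (2 * a) + algebraMap E F c₀ = _
    ring
  have hG0 : G ≠ 0 := by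
    intro h
    have h1 := congrArg (fun p => ((coeff p 3 : lo A (B0 A R)) : F)) h
    have h2 := congrArg (fun p => ((coeff p 2 : lo A (B0 A R)) : F)) h
    have h3 := congrArg (fun p => ((coeff p 1 : lo A (B0 A R)) : F)) h
    have h4 := congrArg (fun p => ((coeff p 0 : lo A (B0 A R)) : F)) h
    simp only [G, coeff_add, coeff_X_pow, coeff_C_mul, coeff_X, coeff_C, coeff_zero] at h1 h2 h3 h4
    norm_num at h1 h2 h3 h4
    apply hdisc
    rw [h1, h2, h3, h4]
    ring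
  have hGa : algebraMap E F a₀ * a ^ 3 + algebraMap E F b₀ * a ^ 2 + algebraMap E F c₀ * a +
      algebraMap E F d₀ ≠ 0 := by
    rw [← hGe]
    exact fun h => hG0 (htr G h)
  by_cases hcase : NU A (algebraMap E F a₀ * a ^ 3 + algebraMap E F b₀ * a ^ 2 +
      algebraMap E F c₀ * a + algebraMap E F d₀) ∧
      NU A (3 * algebraMap E F a₀ * a ^ 2 + 2 * algebraMap E F b₀ * a + algebraMap E F c₀)
  swap
  · have h1 := par_unr hA hBA hreg ha ha0 htr G (by rw [hGe]; exact hGa) (by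
      rw [hGe, hGd]
      exact fun h2 h3 => hcase ⟨h2, h3⟩)
    simpa only [hGe] using h1
  · obtain ⟨h1, h2⟩ := hcase
    -- the discriminant
    set D := b₀ ^ 2 * c₀ ^ 2 - 4 * a₀ * c₀ ^ 3 - 4 * b₀ ^ 3 * d₀ - 27 * a₀ ^ 2 * d₀ ^ 2 +
      18 * a₀ * b₀ * c₀ * d₀ with hD
    have hDR : D ∈ R := by
      rw [hD]
      refine R.add_mem (R.sub_mem (R.sub_mem (R.sub_mem (R.mul_mem (R.pow_mem hb₀ 2)
        (R.pow_mem hc₀ 2)) (R.mul_mem (R.mul_mem (ofNat_mem R 4) ha₀) (R.pow_mem hc₀ 3)))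
        (R.mul_mem (R.mul_mem (ofNat_mem R 4) (R.pow_mem hb₀ 3)) hd₀))
        (R.mul_mem (R.mul_mem (ofNat_mem R 27) (R.pow_mem ha₀ 2)) (R.pow_mem hd₀ 2)))
        (R.mul_mem (R.mul_mem (R.mul_mem (R.mul_mem (ofNat_mem R 18) ha₀) hb₀) hc₀) hd₀)
    have haA := hRA a₀ ha₀
    have hbA := hRA b₀ hb₀
    have hcA := hRA c₀ hc₀
    have hdA := hRA d₀ hd₀
    have h3F : NU A (algebraMap E F D) := by
      set f0 := algebraMap E F a₀ * a ^ 3 + algebraMap E F b₀ * a ^ 2 + algebraMap E F c₀ * a +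
        algebraMap E F d₀ with hf0
      set f1 := 3 * algebraMap E F a₀ * a ^ 2 + 2 * algebraMap E F b₀ * a + algebraMap E F c₀
        with hf1
      set f2 := algebraMap E F b₀ + 3 * algebraMap E F a₀ * a with hf2
      have hf2A : f2 ∈ A := A.add_mem hbA (A.mul_mem (A.mul_mem (ofNat_mem A 3) haA) ha)
      have h4 : algebraMap E F D = (f2 ^ 2 * f1 - 4 * algebraMap E F a₀ * f1 ^ 2 +
          18 * algebraMap E F a₀ * f2 * f0) * f1 + (-4 * f2 ^ 3 - 27 * algebraMap E F a₀ ^ 2 * f0) *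
          f0 := by
        rw [hD, hf0, hf1, hf2]
        simp only [map_add, map_sub, map_mul, map_pow, map_ofNat]
        ring
      rw [h4]
      refine NU.add hA (NU.mul_left hA ?_ h2) (NU.mul_left hA ?_ h1)
      · exact A.add_mem (A.sub_mem (A.mul_mem (A.pow_mem hf2A 2) h2.1)
          (A.mul_mem (A.mul_mem (ofNat_mem A 4) haA) (A.pow_mem h2.1 2)))
          (A.mul_mem (A.mul_mem (A.mul_mem (ofNat_mem A 18) haA) hf2A) h1.1)
      · exact A.sub_mem (A.mul_mem (A.neg_mem (ofNat_mem A 4)) (A.pow_mem hf2A 3))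
          (A.mul_mem (A.mul_mem (ofNat_mem A 27) (A.pow_mem haA 2)) h1.1)
    have h3 : NU (AE (E := E) A) D := (nu_AE _).2 h3F
    obtain ⟨hϖu, -⟩ := hdiv _ (le_lo _ _ hDR) hdisc (fun h => h3.2 ⟨hdisc, h⟩)
    have hϖ0 : ϖ ≠ 0 := hϖ.ne ()
    have hϖP : ϖ ∈ lo (AE (E := E) A) R := hϖ.mem ()
    have hdiv' : ∀ z ∈ lo (AE (E := E) A) R, NU (AE (E := E) A) z →
        ∃ c ∈ lo (AE (E := E) A) R, z = c * ϖ := by
      intro z hz hz1
      by_cases hz0 : z = 0
      · exact ⟨0, Subring.zero_mem _, by rw [hz0, zero_mul]⟩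
      · exact (hdiv z hz hz0 fun h => hz1.2 ⟨hz0, h⟩).2
    -- the centre
    obtain ⟨α, hα, hα1⟩ := centre hRA hA hfin ha₀ hb₀ hc₀ hd₀ (by
      rw [← nu_AE, ← nu_AE, ← nu_AE, ← nu_AE]
      exact hprim) ⟨D, hDR, hdisc, h3F⟩ ha h1 h2
    have hαP : α ∈ lo (AE (E := E) A) R := le_lo _ _ hα
    have hαA : algebraMap E F α ∈ A := hRA α hα
    have haα0 : a - algebraMap E F α ≠ 0 := by
      intro h
      have h4 := trans_sub (hlo α hαP) htr X (by rw [eval₂_X, h])
      exact X_ne_zero h4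
    have hwR : 3 * a₀ * α ^ 2 + 2 * b₀ * α + c₀ ∈ R :=
      R.add_mem (R.add_mem (R.mul_mem (R.mul_mem (ofNat_mem R 3) ha₀) (R.pow_mem hα 2))
        (R.mul_mem (R.mul_mem (ofNat_mem R 2) hb₀) hα)) hc₀
    have hgR : a₀ * α ^ 3 + b₀ * α ^ 2 + c₀ * α + d₀ ∈ R :=
      R.add_mem (R.add_mem (R.add_mem (R.mul_mem ha₀ (R.pow_mem hα 3))
        (R.mul_mem hb₀ (R.pow_mem hα 2))) (R.mul_mem hc₀ hα)) hd₀
    have hwNU : NU (AE (E := E) A) (3 * a₀ * α ^ 2 + 2 * b₀ * α + c₀) := by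
      rw [nu_AE]
      have h4 : algebraMap E F (3 * a₀ * α ^ 2 + 2 * b₀ * α + c₀) =
          (3 * algebraMap E F a₀ * a ^ 2 + 2 * algebraMap E F b₀ * a + algebraMap E F c₀) -
          (3 * algebraMap E F a₀ * (a + algebraMap E F α) + 2 * algebraMap E F b₀) *
            (a - algebraMap E F α) := by
        simp only [map_add, map_mul, map_pow, map_ofNat]
        ring
      rw [h4]
      exact NU.sub hA h2 (NU.mul_left hA (A.add_mem (A.mul_mem (A.mul_mem (ofNat_mem A 3) haA)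
        (A.add_mem ha hαA)) (A.mul_mem (ofNat_mem A 2) hbA)) hα1)
    have hgNU : NU (AE (E := E) A) (a₀ * α ^ 3 + b₀ * α ^ 2 + c₀ * α + d₀) := by
      rw [nu_AE]
      have h4 : algebraMap E F (a₀ * α ^ 3 + b₀ * α ^ 2 + c₀ * α + d₀) =
          (algebraMap E F a₀ * a ^ 3 + algebraMap E F b₀ * a ^ 2 + algebraMap E F c₀ * a +
            algebraMap E F d₀) -
          (algebraMap E F a₀ * (a ^ 2 + a * algebraMap E F α + algebraMap E F α ^ 2) +
            algebraMap E F b₀ * (a + algebraMap E F α) + algebraMap E F c₀) *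
            (a - algebraMap E F α) := by
        simp only [map_add, map_mul, map_pow]
        ring
      rw [h4]
      exact NU.sub hA h1 (NU.mul_left hA (A.add_mem (A.add_mem (A.mul_mem haA (A.add_mem
        (A.add_mem (A.pow_mem ha 2) (A.mul_mem ha hαA)) (A.pow_mem hαA 2)))
        (A.mul_mem hbA (A.add_mem ha hαA))) hcA) hα1)
    obtain ⟨c₁, hc₁, hc₁'⟩ := hdiv' _ (le_lo _ _ hwR) hwNU
    obtain ⟨u, hu, hu'⟩ := hdiv' _ (le_lo _ _ hgR) hgNU
    have huNU : ¬ NU (AE (E := E) A) u := by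
      intro h
      obtain ⟨c₂, hc₂, hc₂'⟩ := hdiv' u hu h
      refine hram α ϖ c₁ c₂ hα hϖP hc₁ hc₂ hϖ0 hϖu hc₁' ?_
      rw [hu', hc₂']
      ring
    set b := a - algebraMap E F α with hb
    have hBT : (B0 A R : Set F) ⊆ Subring.closure (insert b (B0 A R : Set F)) := fun z hz =>
      Subring.subset_closure (Set.mem_insert_of_mem _ hz)
    have hbT : b ∈ Subring.closure (insert b (B0 A R : Set F)) :=
      Subring.subset_closure (Set.mem_insert _ _)
    have haT : algebraMap E F a₀ ∈ Subring.closure (insert b (B0 A R : Set F)) :=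
      hBT (alg_mem_B0 hRA haP)
    have hb₀T : algebraMap E F b₀ ∈ Subring.closure (insert b (B0 A R : Set F)) :=
      hBT (alg_mem_B0 hRA hbP)
    have hαT : algebraMap E F α ∈ Subring.closure (insert b (B0 A R : Set F)) :=
      hBT (alg_mem_B0 hRA hαP)
    have h4 := par_ram3 hA hBA hreg (ϖ := algebraMap E F ϖ) (by
        rw [← map_inv₀]
        exact hϖu) haα0 hα1 (trans_sub (hlo α hαP) htr) (u := algebraMap E F u)
        (w := algebraMap E F (3 * a₀ * α ^ 2 + 2 * b₀ * α + c₀))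
        (q := algebraMap E F a₀ * b + 3 * algebraMap E F a₀ * algebraMap E F α +
          algebraMap E F b₀) (hlo u hu) (by rw [← nu_AE]; exact huNU)
        (hlo _ (le_lo _ _ hwR)) ((nu_AE _).1 hwNU)
        (le_lo _ _ (Subring.add_mem _ (Subring.add_mem _ (Subring.mul_mem _ haT hbT)
          (Subring.mul_mem _ (Subring.mul_mem _ (ofNat_mem _ 3) haT) hαT)) hb₀T))
    have h5 : Subring.closure (insert b (B0 A R : Set F)) =
        Subring.closure (insert a (B0 A R : Set F)) := by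
      have hαB : algebraMap E F α ∈ B0 A R := alg_mem_B0 hRA hαP
      apply le_antisymm
      · rw [Subring.closure_le]
        rintro z (rfl | hz)
        · exact Subring.sub_mem _ (Subring.subset_closure (Set.mem_insert _ _))
            (Subring.subset_closure (Set.mem_insert_of_mem _ hαB))
        · exact Subring.subset_closure (Set.mem_insert_of_mem _ hz)
      · rw [Subring.closure_le]
        rintro z (hz | hz)
        · have h6 : z = b + algebraMap E F α := by rw [hz, hb]; ring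
          rw [h6]
          exact Subring.add_mem _ hbT hαT
        · exact Subring.subset_closure (Set.mem_insert_of_mem _ hz)
    rw [h5] at h4
    have h6 : (algebraMap E F a₀ * b + 3 * algebraMap E F a₀ * algebraMap E F α +
        algebraMap E F b₀) * b ^ 2 + algebraMap E F (3 * a₀ * α ^ 2 + 2 * b₀ * α + c₀) * b +
        algebraMap E F u * algebraMap E F ϖ = algebraMap E F a₀ * a ^ 3 +
        algebraMap E F b₀ * a ^ 2 + algebraMap E F c₀ * a + algebraMap E F d₀ := by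
      rw [← map_mul, ← hu', hb]
      simp only [map_add, map_mul, map_pow, map_ofNat]
      ring
    rw [h6] at h4
    exact h4

end

end Pool.Agent.RM558
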