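import Pool.Agent.W558.RM.Cub
import Pool.Agent.W558.RM.Par3
import Pool.Agent.W418.WR.Local

/-!
# The local rings of the Weil restriction of the projective line from a cubic algebra
-/

set_option autoImplicit false
set_option linter.unusedVariables false
set_option linter.unusedSectionVars false

universe u v

namespace Pool.Agent.RM558

open IsLocalRing Pool.Agent.W418.LU2 Polynomial Pool.Agent.W418.WR

section forms

variable {F : Type u} [Field F]

/-- The forms. -/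
def Fm (a b c d : F) (u v : Fin 3 → F) : Set F :=
  {z | z = nm3 a b c d u ∨ (∃ i, z = mul3 a b c d v (sh3 a b c d u) i) ∨
    (∃ i, z = mul3 a b c d u (sh3 a b c d v) i) ∨ z = nm3 a b c d v}

lemma Fm_comm (a b c d : F) (u v : Fin 3 → F) : Fm a b c d v u = Fm a b c d u v := by
  ext z
  unfold Fm
  simp only [Set.mem_ofPred_eq]
  tauto

/-- The swap. -/
def sw (u : Fin 3 → F) : Fin 3 → F := ![u 0, u 2, u 1]

lemma mul_sw (a b c d : F) (u v : Fin 3 → F) :
    mul3 (-d) (-c) (-b) (-a) (sw u) (sw v) = sw (mul3 a b c d u v) := by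
  ext i
  fin_cases i <;> simp [mul3, sw] <;> ring

lemma sh_sw (a b c d : F) (u : Fin 3 → F) :
    sh3 (-d) (-c) (-b) (-a) (sw u) = sw (sh3 a b c d u) := by
  ext i
  fin_cases i <;> simp [sh3, sw] <;> ring

lemma nm_sw (a b c d : F) (u : Fin 3 → F) :
    nm3 (-d) (-c) (-b) (-a) (sw u) = nm3 a b c d u := by
  unfold nm3
  rw [sh_sw, mul_sw]
  rfl

lemma exists_sw {P : F → Prop} (w : Fin 3 → F) : (∃ i, P (sw w i)) ↔ ∃ i, P (w i) := by
  constructor
  · rintro ⟨i, hi⟩
    fin_cases i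
    · exact ⟨0, hi⟩
    · exact ⟨2, hi⟩
    · exact ⟨1, hi⟩
  · rintro ⟨i, hi⟩
    fin_cases i
    · exact ⟨0, hi⟩
    · exact ⟨2, hi⟩
    · exact ⟨1, hi⟩

lemma Fm_sw (a b c d : F) (u v : Fin 3 → F) :
    Fm (-d) (-c) (-b) (-a) (sw u) (sw v) = Fm a b c d u v := by
  ext z
  unfold Fm
  simp only [Set.mem_ofPred_eq, nm_sw, sh_sw, mul_sw]
  rw [exists_sw (P := fun w => z = w), exists_sw (P := fun w => z = w)]

end forms

section loc

variable {E F : Type u} [Field E] [Field F] [Algebra E F] {A : Subring F} {R : Subring E}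
  (hA : Loc A) (hRA : ∀ r ∈ R, algebraMap E F r ∈ A)
  (hF : ∀ y : Fin 3 × Bool → F, IntermediateField.adjoin E (Set.range y) = ⊤ →
    AlgebraicIndependent E y)

/-- A maximal form. -/
structure Mx (W R : Subring E) (a b c d : E) : Prop where
  ma : a ∈ R
  mb : b ∈ R
  mc : c ∈ R
  md : d ∈ R
  disc : b ^ 2 * c ^ 2 - 4 * a * c ^ 3 - 4 * b ^ 3 * d - 27 * a ^ 2 * d ^ 2 +
    18 * a * b * c * d ≠ 0
  prim : ¬ (NU W a ∧ NU W b ∧ NU W c ∧ NU W d)
  ram : ∀ α ϖ c₁ c₂ : E, α ∈ R → ϖ ∈ lo W R → c₁ ∈ lo W R → c₂ ∈ lo W R → ϖ ≠ 0 → ϖ⁻¹ ∉ W →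
    3 * a * α ^ 2 + 2 * b * α + c = c₁ * ϖ →
    a * α ^ 3 + b * α ^ 2 + c * α + d = c₂ * ϖ ^ 2 → False

include hA hRA hF

theorem loc_a [IsDedekindDomain R]
    (hfr : ∀ z : E, ∃ a ∈ R, ∃ b ∈ R, b ≠ 0 ∧ z = a * b⁻¹) {a b c d : E} (ha : a ∈ R) (hb : b ∈ R)
    (hc : c ∈ R) (hd : d ∈ R) (u v : Fin 3 → F)
    (huv : IntermediateField.adjoin E (Set.range u ∪ Set.range v) = ⊤)
    (hg0 : nm3 (algebraMap E F a) (algebraMap E F b) (algebraMap E F c) (algebraMap E F d) u ≠ 0)
    (hmem : ∀ w ∈ Fm (algebraMap E F a) (algebraMap E F b) (algebraMap E F c) (algebraMap E F d)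
      u v, w * (nm3 (algebraMap E F a) (algebraMap E F b) (algebraMap E F c)
        (algebraMap E F d) u)⁻¹ ∈ A)
    (hgen : A ≤ lo A (Subring.closure ((B0 A R : Set F) ∪ {z | ∃ w ∈ Fm (algebraMap E F a)
      (algebraMap E F b) (algebraMap E F c) (algebraMap E F d) u v, z = w *
        (nm3 (algebraMap E F a) (algebraMap E F b) (algebraMap E F c)
        (algebraMap E F d) u)⁻¹}))) :
    IsRegularLocalRing A := by
  classical
  have hRA' : R ≤ AE (E := E) A := fun r hr => hRA r hr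
  have hA' := loc_AE (E := E) hA
  have hBA := B0_le hRA
  have haB := alg_mem_B0 hRA (le_lo (AE (E := E) A) R ha)
  have hbB := alg_mem_B0 hRA (le_lo (AE (E := E) A) R hb)
  have hcB := alg_mem_B0 hRA (le_lo (AE (E := E) A) R hc)
  have hdB := alg_mem_B0 hRA (le_lo (AE (E := E) A) R hd)
  obtain ⟨-, -, ϖ, hϖ, -⟩ := ded_base (AE (E := E) A) hA' R hRA' hfr
  have hreg : RegP A (lo A (B0 A R)) (fun _ : Unit => algebraMap E F ϖ) := by
    rw [lo_B0 hRA]
    exact hϖ.map (algebraMap E F) (fun e => Iff.rfl)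
  set a' := algebraMap E F a with ha'
  set b' := algebraMap E F b with hb'
  set c' := algebraMap E F c with hc'
  set d' := algebraMap E F d with hd'
  set g := nm3 a' b' c' d' u with hg
  set x := mul3 a' b' c' d' v (sh3 a' b' c' d' u) with hx
  have hx0 : ∀ i, mul3 a' b' c' d' v (sh3 a' b' c' d' u) i = x i := fun i => by rw [hx]
  let y : Fin 3 × Bool → F := fun p => if p.2 then x p.1 * g⁻¹ else u p.1
  have hy1 : ∀ k, y (k, true) = x k * g⁻¹ := fun k => by simp only [y, if_true]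
  have hy2 : ∀ k, y (k, false) = u k := fun k => by simp only [y, Bool.false_eq_true, if_false]
  have hind : AlgebraicIndependent E y := by
    apply hF
    set L := IntermediateField.adjoin E (Set.range y) with hL
    have hyL : ∀ p, y p ∈ L := fun p => IntermediateField.subset_adjoin E _ ⟨p, rfl⟩
    have huL : ∀ k, u k ∈ L := fun k => hy2 k ▸ hyL (k, false)
    have hxL : ∀ k, x k * g⁻¹ ∈ L := fun k => hy1 k ▸ hyL (k, true)
    have haL : a' ∈ L := L.algebraMap_mem a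
    have hbL : b' ∈ L := L.algebraMap_mem b
    have hcL : c' ∈ L := L.algebraMap_mem c
    have hdL : d' ∈ L := L.algebraMap_mem d
    have hv : ∀ k, v k = mul3 a' b' c' d' u (fun i => x i * g⁻¹) k := by
      intro k
      rw [mul3_smul, hx, mul_x, ← hg]
      field_simp
    rw [eq_top_iff, ← huv, IntermediateField.adjoin_le_iff]
    rintro z (⟨k, rfl⟩ | ⟨k, rfl⟩)
    · exact huL k
    · rw [hv k]
      have h0 := huL 0
      have h1 := huL 1
      have h2 := huL 2
      have h3 := hxL 0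
      have h4 := hxL 1
      have h5 := hxL 2
      fin_cases k
      · exact L.sub_mem (L.sub_mem (L.sub_mem (L.mul_mem h0 h3) (L.mul_mem (L.mul_mem haL hcL)
          (L.mul_mem h1 h4))) (L.mul_mem (L.mul_mem haL hdL) (L.add_mem (L.mul_mem h1 h5)
          (L.mul_mem h2 h4)))) (L.mul_mem (L.mul_mem hbL hdL) (L.mul_mem h2 h5))
      · exact L.add_mem (L.add_mem (L.add_mem (L.mul_mem h0 h4) (L.mul_mem h1 h3))
          (L.mul_mem hbL (L.mul_mem h1 h4))) (L.mul_mem hdL (L.mul_mem h2 h5))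
      · exact L.sub_mem (L.sub_mem (L.add_mem (L.mul_mem h0 h5) (L.mul_mem h2 h3))
          (L.mul_mem haL (L.mul_mem h1 h4))) (L.mul_mem hcL (L.mul_mem h2 h5))
  let s : Finset (Fin 3 × Bool) := Finset.univ.filter fun p => p.2 = true
  obtain ⟨hSA, -, hR⟩ := chain hA hind hBA hreg (s₀ := ∅) (B0_adjoin ∅) s (by
    rintro ⟨k, b⟩ hk
    rw [Finset.mem_filter] at hk
    have hk2 : b = true := hk.2
    refine ⟨Set.notMem_empty _, ?_⟩
    rw [hk2, hy1]
    exact hmem _ (Or.inr (Or.inl ⟨k, rfl⟩)))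
  set S := Subring.closure ((B0 A R : Set F) ∪ y '' s) with hS
  have hBS : B0 A R ≤ S := fun z hz => Subring.subset_closure (Or.inl hz)
  have hxS : ∀ k, x k * g⁻¹ ∈ S := fun k =>
    Subring.subset_closure (Or.inr ⟨(k, true), by simp [s], hy1 k⟩)
  have haS := hBS haB
  have hbS := hBS hbB
  have hcS := hBS hcB
  have hdS := hBS hdB
  have h3 := hxS 0
  have h4 := hxS 1
  have h5 := hxS 2
  have hle : Subring.closure ((B0 A R : Set F) ∪ {z | ∃ w ∈ Fm a' b' c' d' u v,
      z = w * g⁻¹}) ≤ S := by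
    have hyS : ∀ k, mul3 a' b' c' d' u (sh3 a' b' c' d' v) k * g⁻¹ ∈ S := by
      intro k
      have h6 : mul3 a' b' c' d' u (sh3 a' b' c' d' v) k * g⁻¹ =
          sh3 a' b' c' d' (fun i => x i * g⁻¹) k := by
        have h7 := sh_x a' b' c' d' u v k
        rw [← hx, ← hg] at h7
        have h8 : mul3 a' b' c' d' u (sh3 a' b' c' d' v) k * g⁻¹ =
            (g * mul3 a' b' c' d' u (sh3 a' b' c' d' v) k) * (g⁻¹ * g⁻¹) := by
          field_simp
        rw [h8, ← h7, sh3_smul]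
        ring
      rw [h6]
      fin_cases k
      · exact S.add_mem (S.add_mem (S.pow_mem h3 2) (S.mul_mem h3 (S.sub_mem (S.mul_mem hbS h4)
          (S.mul_mem hcS h5)))) (S.mul_mem (S.sub_mem (S.mul_mem haS hdS) (S.mul_mem hbS hcS))
          (S.mul_mem h4 h5))
      · exact S.add_mem (S.add_mem (S.neg_mem (S.mul_mem h3 h4)) (S.mul_mem hcS
          (S.mul_mem h4 h5))) (S.mul_mem hdS (S.pow_mem h5 2))
      · exact S.sub_mem (S.sub_mem (S.neg_mem (S.mul_mem h3 h5)) (S.mul_mem haS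
          (S.pow_mem h4 2))) (S.mul_mem hbS (S.mul_mem h4 h5))
    have h6 := hyS 0
    have h7 := hyS 1
    have h8 := hyS 2
    rw [Subring.closure_le]
    rintro z (hz | ⟨w, rfl | ⟨k, rfl⟩ | ⟨k, rfl⟩ | rfl, rfl⟩)
    · exact hBS hz
    · rw [← hg, mul_inv_cancel₀ hg0]
      exact S.one_mem
    · exact hxS k
    · exact hyS k
    · have h9 : nm3 a' b' c' d' v * g⁻¹ = mul3 a' b' c' d' (fun i => x i * g⁻¹)
          (fun i => mul3 a' b' c' d' u (sh3 a' b' c' d' v) i * g⁻¹) 0 := by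
        have h10 := congrFun (mul_xy a' b' c' d' u v) 0
        rw [← hx, ← hg, Matrix.cons_val_zero] at h10
        have h11 : nm3 a' b' c' d' v * g⁻¹ = (g * nm3 a' b' c' d' v) * (g⁻¹ * g⁻¹) := by
          field_simp
        rw [h11, ← h10, mul3_smul2]
        ring
      rw [h9]
      exact S.sub_mem (S.sub_mem (S.sub_mem (S.mul_mem h3 h6) (S.mul_mem (S.mul_mem haS hcS)
          (S.mul_mem h4 h7))) (S.mul_mem (S.mul_mem haS hdS) (S.add_mem (S.mul_mem h4 h8)
          (S.mul_mem h5 h7)))) (S.mul_mem (S.mul_mem hbS hdS) (S.mul_mem h5 h8))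
  exact regular_of_le hR.reg hR.PA (hgen.trans (lo_mono hle))

end loc

end Pool.Agent.RM558
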