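import Pool.Agent.W558.RM.Loc3
import Pool.Agent.W418.WR.Local2

/-!
# The local rings, second case
-/

set_option autoImplicit false
set_option linter.unusedVariables false
set_option linter.unusedSectionVars false

universe u v

namespace Pool.Agent.RM558

open IsLocalRing Pool.Agent.W418.LU2 Polynomial Pool.Agent.W418.WR

section rel

variable {F : Type u} [Field F] {a b c d g : F} {u v : Fin 3 → F}

/-- The relations in the chart `x_2 = 1`. -/
theorem rel_b (hg : g = mul3 a b c d v (sh3 a b c d u) 2) (hg0 : g ≠ 0) {X Y : Fin 3 → F} {s t : F}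
    (hX : X = fun i => mul3 a b c d v (sh3 a b c d u) i * g⁻¹)
    (hY : Y = fun i => mul3 a b c d u (sh3 a b c d v) i * g⁻¹)
    (hs : s = nm3 a b c d u * g⁻¹) (ht : t = nm3 a b c d v * g⁻¹) :
    X 2 = 1 ∧ X 0 = -(a * X 1 ^ 2 + b * X 1 + s * Y 2) ∧
      a * X 1 ^ 3 + b * X 1 ^ 2 + c * X 1 + d = s * (Y 1 - X 1 * Y 2) ∧
      Y 0 = -(X 0 * Y 2) + a * (X 1 * Y 1) + c * Y 2 ∧
      t = -(Y 0 * Y 2) - a * Y 1 ^ 2 - b * (Y 1 * Y 2) := by
  have h2 : X 2 = 1 := by
    rw [hX]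
    change mul3 a b c d v (sh3 a b c d u) 2 * g⁻¹ = 1
    rw [← hg, mul_inv_cancel₀ hg0]
  have e1 : ∀ i, sh3 a b c d X i = s * Y i := by
    intro i
    rw [hX, sh3_smul, sh_x, hs, hY]
    ring
  have e2 : mul3 a b c d X Y 2 = 0 := by
    rw [hX, hY, mul3_smul2, mul_xy]
    simp
  have e3 : sh3 a b c d Y 2 = t * X 2 := by
    rw [hX, hY, sh3_smul, sh_x, ht]
    ring
  have e12 := e1 2
  have e11 := e1 1
  simp only [sh3, mul3, Matrix.cons_val_zero, Matrix.cons_val_one, Matrix.cons_val, h2] at e12 e11 e2 e3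
  have h0 : X 0 = -(a * X 1 ^ 2 + b * X 1 + s * Y 2) := by linear_combination -e12
  refine ⟨h2, h0, ?_, ?_, ?_⟩
  · linear_combination e11 - X 1 * e12
  · linear_combination e2
  · linear_combination -e3

end rel

section loc

variable {E F : Type u} [Field E] [Field F] [Algebra E F] {A : Subring F} {R : Subring E}
  (hA : Loc A) (hRA : ∀ r ∈ R, algebraMap E F r ∈ A)
  (hF : ∀ y : Fin 3 × Bool → F, IntermediateField.adjoin E (Set.range y) = ⊤ →
    AlgebraicIndependent E y)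

include hA hRA hF

theorem loc_b [IsDedekindDomain R]
    (hfin : ∀ 𝔭 : Ideal R, 𝔭.IsPrime → 𝔭 ≠ ⊥ → Finite (R ⧸ 𝔭))
    (hfr : ∀ z : E, ∃ a ∈ R, ∃ b ∈ R, b ≠ 0 ∧ z = a * b⁻¹) {a b c d : E}
    (hM : Mx (AE (E := E) A) R a b c d) (u v : Fin 3 → F)
    (huv : IntermediateField.adjoin E (Set.range u ∪ Set.range v) = ⊤)
    (hα0 : nm3 (algebraMap E F a) (algebraMap E F b) (algebraMap E F c) (algebraMap E F d) u ≠ 0)
    {g : F} (hg : g = mul3 (algebraMap E F a) (algebraMap E F b) (algebraMap E F c)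
      (algebraMap E F d) v (sh3 (algebraMap E F a) (algebraMap E F b) (algebraMap E F c)
      (algebraMap E F d) u) 2) (hg0 : g ≠ 0)
    (hα : NU A (nm3 (algebraMap E F a) (algebraMap E F b) (algebraMap E F c)
      (algebraMap E F d) u * g⁻¹))
    (hmem : ∀ w ∈ Fm (algebraMap E F a) (algebraMap E F b) (algebraMap E F c) (algebraMap E F d)
      u v, w * g⁻¹ ∈ A)
    (hgen : A ≤ lo A (Subring.closure ((B0 A R : Set F) ∪ {z | ∃ w ∈ Fm (algebraMap E F a)
      (algebraMap E F b) (algebraMap E F c) (algebraMap E F d) u v, z = w * g⁻¹}))) :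
    IsRegularLocalRing A := by
  classical
  have hRA' : R ≤ AE (E := E) A := fun r hr => hRA r hr
  have hA' := loc_AE (E := E) hA
  have hBA := B0_le hRA
  have haB := alg_mem_B0 hRA (le_lo (AE (E := E) A) R hM.ma)
  have hbB := alg_mem_B0 hRA (le_lo (AE (E := E) A) R hM.mb)
  have hcB := alg_mem_B0 hRA (le_lo (AE (E := E) A) R hM.mc)
  have hdB := alg_mem_B0 hRA (le_lo (AE (E := E) A) R hM.md)
  obtain ⟨a', ha'⟩ : ∃ a', a' = algebraMap E F a := ⟨_, rfl⟩
  obtain ⟨b', hb'⟩ : ∃ b', b' = algebraMap E F b := ⟨_, rfl⟩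
  obtain ⟨c', hc'⟩ : ∃ c', c' = algebraMap E F c := ⟨_, rfl⟩
  obtain ⟨d', hd'⟩ : ∃ d', d' = algebraMap E F d := ⟨_, rfl⟩
  have haL : ∀ L : IntermediateField E F, a' ∈ L := fun L => ha' ▸ L.algebraMap_mem a
  have hbL : ∀ L : IntermediateField E F, b' ∈ L := fun L => hb' ▸ L.algebraMap_mem b
  have hcL : ∀ L : IntermediateField E F, c' ∈ L := fun L => hc' ▸ L.algebraMap_mem c
  have hdL : ∀ L : IntermediateField E F, d' ∈ L := fun L => hd' ▸ L.algebraMap_mem d
  rw [← ha'] at haB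
  rw [← hb'] at hbB
  rw [← hc'] at hcB
  rw [← hd'] at hdB
  rw [← ha', ← hb', ← hc', ← hd'] at hα0 hg hα hmem hgen
  obtain ⟨X, hX⟩ : ∃ X, X = fun i => mul3 a' b' c' d' v (sh3 a' b' c' d' u) i * g⁻¹ := ⟨_, rfl⟩
  obtain ⟨Y, hY⟩ : ∃ Y, Y = fun i => mul3 a' b' c' d' u (sh3 a' b' c' d' v) i * g⁻¹ := ⟨_, rfl⟩
  obtain ⟨s, hs⟩ : ∃ s, s = nm3 a' b' c' d' u * g⁻¹ := ⟨_, rfl⟩
  obtain ⟨t, ht⟩ : ∃ t, t = nm3 a' b' c' d' v * g⁻¹ := ⟨_, rfl⟩
  obtain ⟨hX2, hX0, hfw, hY0, ht0⟩ := rel_b hg hg0 hX hY hs ht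
  obtain ⟨w, hw⟩ : ∃ w, w = Y 1 - X 1 * Y 2 := ⟨_, rfl⟩
  rw [← hw] at hfw
  have hs0 : s ≠ 0 := by
    rw [hs]
    exact mul_ne_zero hα0 (inv_ne_zero hg0)
  have hXA : ∀ i, X i ∈ A := fun i => by
    rw [hX]
    exact hmem _ (Or.inr (Or.inl ⟨i, rfl⟩))
  have hYA : ∀ i, Y i ∈ A := fun i => by
    rw [hY]
    exact hmem _ (Or.inr (Or.inr (Or.inl ⟨i, rfl⟩)))
  have hsA : s ∈ A := by
    rw [hs]
    exact hα.1
  have hwA : w ∈ A := by
    rw [hw]
    exact A.sub_mem (hYA 1) (A.mul_mem (hXA 1) (hYA 2))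
  have hsinv : s⁻¹ ∉ A := by
    intro h
    rw [← hs] at hα
    exact hα.2 ⟨hs0, h⟩
  have hv : ∀ k, v k = mul3 a' b' c' d' u X k * s⁻¹ := by
    intro k
    rw [hX, mul3_smul, mul_x, hs]
    field_simp
  let y : Fin 3 × Bool → F := fun p => if p.2 then (![X 1, Y 2, s] : Fin 3 → F) p.1 else u p.1
  have hy1 : y (0, true) = X 1 := rfl
  have hy2 : y (1, true) = Y 2 := rfl
  have hy3 : y (2, true) = s := rfl
  have hy4 : ∀ k, y (k, false) = u k := fun k => rfl
  have hind : AlgebraicIndependent E y := by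
    apply hF
    set L := IntermediateField.adjoin E (Set.range y) with hL
    have hyL : ∀ p, y p ∈ L := fun p => IntermediateField.subset_adjoin E _ ⟨p, rfl⟩
    have huL : ∀ k, u k ∈ L := fun k => hyL (k, false)
    have hX1L : X 1 ∈ L := hyL (0, true)
    have hY2L : Y 2 ∈ L := hyL (1, true)
    have hsL : s ∈ L := hyL (2, true)
    have hX2L : X 2 ∈ L := hX2 ▸ L.one_mem
    have hX0L : X 0 ∈ L := by
      rw [hX0]
      exact L.neg_mem (L.add_mem (L.add_mem (L.mul_mem (haL L) (pow_mem hX1L 2))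
        (L.mul_mem (hbL L) hX1L)) (L.mul_mem hsL hY2L))
    have haL := haL L
    have hbL := hbL L
    have hcL := hcL L
    have hdL := hdL L
    rw [eq_top_iff, ← huv, IntermediateField.adjoin_le_iff]
    rintro z (⟨k, rfl⟩ | ⟨k, rfl⟩)
    · exact huL k
    · rw [hv k]
      refine L.mul_mem ?_ (L.inv_mem hsL)
      have h0 := huL 0
      have h1 := huL 1
      have h2 := huL 2
      fin_cases k
      · exact L.sub_mem (L.sub_mem (L.sub_mem (L.mul_mem h0 hX0L) (L.mul_mem (L.mul_mem haL hcL)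
          (L.mul_mem h1 hX1L))) (L.mul_mem (L.mul_mem haL hdL) (L.add_mem (L.mul_mem h1 hX2L)
          (L.mul_mem h2 hX1L)))) (L.mul_mem (L.mul_mem hbL hdL) (L.mul_mem h2 hX2L))
      · exact L.add_mem (L.add_mem (L.add_mem (L.mul_mem h0 hX1L) (L.mul_mem h1 hX0L))
          (L.mul_mem hbL (L.mul_mem h1 hX1L))) (L.mul_mem hdL (L.mul_mem h2 hX2L))
      · exact L.sub_mem (L.sub_mem (L.add_mem (L.mul_mem h0 hX2L) (L.mul_mem h2 hX0L))
          (L.mul_mem haL (L.mul_mem h1 hX1L))) (L.mul_mem hcL (L.mul_mem h2 hX2L))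
  -- the form
  have hR1 := par3 hRA hA hfin hfr hM.ma hM.mb hM.mc hM.md hM.disc hM.prim hM.ram (hXA 1) (by
    have := htr_of hind (A := A) (S := B0 A R) (s₀ := ∅) (B0_adjoin ∅) (k := (0, true))
      (Set.notMem_empty _)
    rwa [hy1] at this)
  rw [← ha', ← hb', ← hc', ← hd'] at hR1
  obtain ⟨G, hG⟩ : ∃ G, G = a' * X 1 ^ 3 + b' * X 1 ^ 2 + c' * X 1 + d' := ⟨_, rfl⟩
  rw [← hG] at hR1 hfw
  set S₁ := Subring.closure (insert (X 1) (B0 A R : Set F)) with hS₁
  have hS₁A : S₁ ≤ A := by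
    rw [hS₁, Subring.closure_le]
    rintro z (rfl | hz)
    · exact hXA 1
    · exact hBA hz
  have hS₁ad : ∀ z ∈ S₁, z ∈ Algebra.adjoin E (y '' {(0, true)}) := by
    change S₁ ≤ (Algebra.adjoin E (y '' {(0, true)})).toSubring
    rw [hS₁, Subring.closure_le]
    rintro z (rfl | hz)
    · exact Algebra.subset_adjoin ⟨_, rfl, hy1⟩
    · exact B0_adjoin _ z hz
  -- the other coordinates
  obtain ⟨hSA, hSad, hR2⟩ := chain hA hind hS₁A hR1 hS₁ad {(1, true)} (by
    intro k hk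
    rw [Finset.mem_singleton] at hk
    rw [hk]
    refine ⟨?_, ?_⟩
    · intro h
      have := congrArg Prod.fst (Set.mem_singleton_iff.1 h)
      exact absurd this (by decide)
    · rw [hy2]; exact hYA 2)
  set S₂ := Subring.closure ((S₁ : Set F) ∪ y '' (({(1, true)} : Finset (Fin 3 × Bool)) :
    Set (Fin 3 × Bool))) with hS₂
  have hR3 := hR2.trans hA hSA hsA hs0 (by
    have := htr_of hind (A := A) (S := S₂) hSad (k := (2, true)) (by
      rintro (h | h)
      · have := congrArg Prod.fst (Set.mem_singleton_iff.1 h)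
        exact absurd this (by decide)
      · rw [Finset.mem_coe, Finset.mem_singleton] at h
        have := congrArg Prod.fst h
        exact absurd this (by decide))
    rwa [hy3] at this)
  set S₃ := Subring.closure (insert s (S₂ : Set F)) with hS₃
  have hS₃A : S₃ ≤ A := by
    rw [hS₃, Subring.closure_le]
    rintro z (rfl | hz)
    · exact hsA
    · exact hSA hz
  have hdiv : G * s⁻¹ = w := by
    rw [hfw, mul_comm s w, mul_assoc, mul_inv_cancel₀ hs0, mul_one]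
  have hGinv : G⁻¹ ∉ A := by
    intro h
    apply hsinv
    have hw0 : w ≠ 0 := by
      rintro hw0
      apply hR1.ne ()
      change G = 0
      rw [hfw, hw0, mul_zero]
    have h1 : s⁻¹ = w * G⁻¹ := by
      rw [hfw]
      exact inv_aux s w hw0
    rw [h1]
    exact A.mul_mem hwA h
  have hR4 := RegP.blow hA hS₃A hR3 (i := Sum.inl ()) (j := Sum.inr ()) Sum.inl_ne_inr hGinv
    hsinv (by
      change G * s⁻¹ ∈ A
      rw [hdiv]
      exact hwA)
  have hins : Subring.closure (insert ((Sum.elim (fun _ : Unit => G)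
      (fun _ : Unit => s) (Sum.inl ())) * (Sum.elim (fun _ : Unit => G)
      (fun _ : Unit => s) (Sum.inr ()))⁻¹) (S₃ : Set F)) =
      Subring.closure (insert w (S₃ : Set F)) := by
    change Subring.closure (insert (G * s⁻¹) (S₃ : Set F)) = _
    rw [hdiv]
  rw [hins] at hR4
  set S := Subring.closure (insert w (S₃ : Set F)) with hS
  have h3S : S₃ ≤ S := fun z hz => Subring.subset_closure (Or.inr hz)
  have h2S : S₂ ≤ S := fun z hz => h3S (Subring.subset_closure (Or.inr hz))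
  have h1S : S₁ ≤ S := fun z hz => h2S (Subring.subset_closure (Or.inl hz))
  have hBS : B0 A R ≤ S := fun z hz => h1S (Subring.subset_closure (Or.inr hz))
  have hX1S : X 1 ∈ S := h1S (Subring.subset_closure (Or.inl rfl))
  have hsS : s ∈ S := h3S (Subring.subset_closure (Or.inl rfl))
  have hwS : w ∈ S := Subring.subset_closure (Or.inl rfl)
  have hY2S : Y 2 ∈ S := h2S (Subring.subset_closure (Or.inr ⟨(1, true), by simp, hy2⟩))
  have haS := hBS haB
  have hbS := hBS hbB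
  have hcS := hBS hcB
  have hdS := hBS hdB
  have hX2S : X 2 ∈ S := hX2 ▸ S.one_mem
  have hX0S : X 0 ∈ S := by
    rw [hX0]
    exact S.neg_mem (S.add_mem (S.add_mem (S.mul_mem haS (S.pow_mem hX1S 2))
      (S.mul_mem hbS hX1S)) (S.mul_mem hsS hY2S))
  have hY1S : Y 1 ∈ S := by
    have h1 : Y 1 = w + X 1 * Y 2 := by rw [hw]; ring
    rw [h1]
    exact S.add_mem hwS (S.mul_mem hX1S hY2S)
  have hY0S : Y 0 ∈ S := by
    rw [hY0]
    exact S.add_mem (S.add_mem (S.neg_mem (S.mul_mem hX0S hY2S)) (S.mul_mem haS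
      (S.mul_mem hX1S hY1S))) (S.mul_mem hcS hY2S)
  have htS : t ∈ S := by
    rw [ht0]
    exact S.sub_mem (S.sub_mem (S.neg_mem (S.mul_mem hY0S hY2S)) (S.mul_mem haS
      (S.pow_mem hY1S 2))) (S.mul_mem hbS (S.mul_mem hY1S hY2S))
  have hle : Subring.closure ((B0 A R : Set F) ∪ {z | ∃ w ∈ Fm a' b' c' d' u v,
      z = w * g⁻¹}) ≤ S := by
    rw [Subring.closure_le]
    rintro z (hz | ⟨w, rfl | ⟨k, rfl⟩ | ⟨k, rfl⟩ | rfl, rfl⟩)
    · exact hBS hz
    · rw [← hs]
      exact hsS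
    · have h1 : mul3 a' b' c' d' v (sh3 a' b' c' d' u) k * g⁻¹ = X k := by rw [hX]
      rw [h1]
      fin_cases k
      · exact hX0S
      · exact hX1S
      · exact hX2S
    · have h1 : mul3 a' b' c' d' u (sh3 a' b' c' d' v) k * g⁻¹ = Y k := by rw [hY]
      rw [h1]
      fin_cases k
      · exact hY0S
      · exact hY1S
      · exact hY2S
    · rw [← ht]
      exact htS
  exact regular_of_le hR4.reg hR4.PA (hgen.trans (lo_mono hle))

end loc

end Pool.Agent.RM558
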