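import Pool.Agent.W558.RM.Loc3b

/-!
# The local rings, all cases
-/

set_option autoImplicit false
set_option linter.unusedVariables false
set_option linter.unusedSectionVars false

universe u v

namespace Pool.Agent.RM558

open IsLocalRing Pool.Agent.W418.LU2 Polynomial Pool.Agent.W418.WR

lemma range_sw {F : Type u} [Field F] (u : Fin 3 → F) : Set.range (sw u) = Set.range u := by
  ext z
  constructor
  · rintro ⟨i, rfl⟩
    fin_cases i
    · exact ⟨0, rfl⟩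
    · exact ⟨2, rfl⟩
    · exact ⟨1, rfl⟩
  · rintro ⟨i, rfl⟩
    fin_cases i
    · exact ⟨0, rfl⟩
    · exact ⟨2, rfl⟩
    · exact ⟨1, rfl⟩

section loc

variable {E F : Type u} [Field E] [Field F] [Algebra E F] {A : Subring F} {R : Subring E}
  (hA : Loc A) (hRA : ∀ r ∈ R, algebraMap E F r ∈ A)
  (hF : ∀ y : Fin 3 × Bool → F, IntermediateField.adjoin E (Set.range y) = ⊤ →
    AlgebraicIndependent E y)

include hA hRA hF

theorem loc_half [IsDedekindDomain R]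
    (hfin : ∀ 𝔭 : Ideal R, 𝔭.IsPrime → 𝔭 ≠ ⊥ → Finite (R ⧸ 𝔭))
    (hfr : ∀ z : E, ∃ a ∈ R, ∃ b ∈ R, b ≠ 0 ∧ z = a * b⁻¹) {a b c d : E}
    (hM : Mx (AE (E := E) A) R a b c d) (hM' : Mx (AE (E := E) A) R (-d) (-c) (-b) (-a))
    (u v : Fin 3 → F)
    (huv : IntermediateField.adjoin E (Set.range u ∪ Set.range v) = ⊤)
    (hα0 : nm3 (algebraMap E F a) (algebraMap E F b) (algebraMap E F c) (algebraMap E F d) u ≠ 0)
    {h : F} (hh0 : h ≠ 0)
    (hmem : ∀ w ∈ Fm (algebraMap E F a) (algebraMap E F b) (algebraMap E F c) (algebraMap E F d)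
      u v, w * h⁻¹ ∈ A)
    (hα : NU A (nm3 (algebraMap E F a) (algebraMap E F b) (algebraMap E F c)
      (algebraMap E F d) u * h⁻¹))
    (hx : ∃ i, ¬ NU A (mul3 (algebraMap E F a) (algebraMap E F b) (algebraMap E F c)
      (algebraMap E F d) v (sh3 (algebraMap E F a) (algebraMap E F b) (algebraMap E F c)
      (algebraMap E F d) u) i * h⁻¹))
    (hgen : ∀ g : F, g ≠ 0 → g * h⁻¹ ∈ A → h * g⁻¹ ∈ A →
      A ≤ lo A (Subring.closure ((B0 A R : Set F) ∪ {z | ∃ w ∈ Fm (algebraMap E F a)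
      (algebraMap E F b) (algebraMap E F c) (algebraMap E F d) u v, z = w * g⁻¹}))) :
    IsRegularLocalRing A := by
  classical
  have hchange : ∀ g : F, g * h⁻¹ ∈ A → ¬ NU A (g * h⁻¹) → g ≠ 0 ∧ h * g⁻¹ ∈ A := by
    intro g hg hgu
    have h3 : g * h⁻¹ ≠ 0 ∧ (g * h⁻¹)⁻¹ ∈ A := by
      by_contra h
      exact hgu ⟨hg, h⟩
    refine ⟨left_ne_zero_of_mul h3.1, ?_⟩
    have h4 := h3.2
    rwa [mul_inv, inv_inv, mul_comm] at h4
  have hmemg : ∀ g : F, h * g⁻¹ ∈ A → ∀ w ∈ Fm (algebraMap E F a)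
      (algebraMap E F b) (algebraMap E F c) (algebraMap E F d) u v, w * g⁻¹ ∈ A := by
    intro g hg w hw
    have h3 : w * g⁻¹ = w * h⁻¹ * (h * g⁻¹) := by field_simp
    rw [h3]
    exact A.mul_mem (hmem w hw) hg
  have hαg : ∀ g : F, h * g⁻¹ ∈ A → NU A (nm3 (algebraMap E F a) (algebraMap E F b)
      (algebraMap E F c) (algebraMap E F d) u * g⁻¹) := by
    intro g hg
    have h3 : ∀ w : F, w * g⁻¹ = h * g⁻¹ * (w * h⁻¹) := fun w => by field_simp
    rw [h3]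
    exact NU.mul_left hA hg hα
  by_cases h2 : NU A (mul3 (algebraMap E F a) (algebraMap E F b) (algebraMap E F c)
      (algebraMap E F d) v (sh3 (algebraMap E F a) (algebraMap E F b) (algebraMap E F c)
      (algebraMap E F d) u) 2 * h⁻¹)
  swap
  · obtain ⟨hg0, hhg⟩ := hchange _ (hmem _ (Or.inr (Or.inl ⟨2, rfl⟩))) h2
    exact loc_b hA hRA hF hfin hfr hM u v huv hα0 rfl hg0 (hαg _ hhg) (hmemg _ hhg)
      (hgen _ hg0 (hmem _ (Or.inr (Or.inl ⟨2, rfl⟩))) hhg)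
  by_cases h1 : NU A (mul3 (algebraMap E F a) (algebraMap E F b) (algebraMap E F c)
      (algebraMap E F d) v (sh3 (algebraMap E F a) (algebraMap E F b) (algebraMap E F c)
      (algebraMap E F d) u) 1 * h⁻¹)
  swap
  · obtain ⟨hg0, hhg⟩ := hchange _ (hmem _ (Or.inr (Or.inl ⟨1, rfl⟩))) h1
    have h3 := hgen _ hg0 (hmem _ (Or.inr (Or.inl ⟨1, rfl⟩))) hhg
    have h4 := hmemg _ hhg
    refine loc_b hA hRA hF hfin hfr hM' (sw u) (sw v) (by rw [range_sw, range_sw]; exact huv) ?_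
      (g := mul3 (algebraMap E F a) (algebraMap E F b) (algebraMap E F c)
      (algebraMap E F d) v (sh3 (algebraMap E F a) (algebraMap E F b) (algebraMap E F c)
      (algebraMap E F d) u) 1) ?_ hg0 ?_ ?_ ?_
    · simp only [map_neg]
      rw [nm_sw]
      exact hα0
    · simp only [map_neg]
      rw [sh_sw, mul_sw]
      rfl
    · simp only [map_neg]
      rw [nm_sw]
      exact hαg _ hhg
    · simp only [map_neg]
      rw [Fm_sw]
      exact h4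
    · simp only [map_neg]
      rw [Fm_sw]
      exact h3
  exfalso
  obtain ⟨i, hi⟩ := hx
  apply hi
  fin_cases i
  · have haA := hRA a hM.ma
    have hbA := hRA b hM.mb
    have hcA := hRA c hM.mc
    have hdA := hRA d hM.md
    obtain ⟨a', ha'⟩ : ∃ a', a' = algebraMap E F a := ⟨_, rfl⟩
    obtain ⟨b', hb'⟩ : ∃ b', b' = algebraMap E F b := ⟨_, rfl⟩
    obtain ⟨c', hc'⟩ : ∃ c', c' = algebraMap E F c := ⟨_, rfl⟩
    obtain ⟨d', hd'⟩ : ∃ d', d' = algebraMap E F d := ⟨_, rfl⟩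
    rw [← ha'] at haA
    rw [← hb'] at hbA
    rw [← hc'] at hcA
    rw [← hd'] at hdA
    rw [← ha', ← hb', ← hc', ← hd'] at h1 h2 hα hmem
    change NU A (mul3 (algebraMap E F a) (algebraMap E F b) (algebraMap E F c)
      (algebraMap E F d) v (sh3 (algebraMap E F a) (algebraMap E F b) (algebraMap E F c)
      (algebraMap E F d) u) 0 * h⁻¹)
    rw [← ha', ← hb', ← hc', ← hd']
    have hX0 : mul3 a' b' c' d' v (sh3 a' b' c' d' u) 0 * h⁻¹ ∈ A :=
      hmem _ (Or.inr (Or.inl ⟨0, rfl⟩))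
    have hY0 : mul3 a' b' c' d' u (sh3 a' b' c' d' v) 0 * h⁻¹ ∈ A :=
      hmem _ (Or.inr (Or.inr (Or.inl ⟨0, rfl⟩)))
    obtain ⟨X, hX⟩ : ∃ X, X = fun i => mul3 a' b' c' d' v (sh3 a' b' c' d' u) i * h⁻¹ := ⟨_, rfl⟩
    have e : sh3 a' b' c' d' X 0 =
        (mul3 a' b' c' d' u (sh3 a' b' c' d' v) 0 * h⁻¹) * (nm3 a' b' c' d' u * h⁻¹) := by
      rw [hX, sh3_smul, sh_x]
      ring
    have e0 : mul3 a' b' c' d' v (sh3 a' b' c' d' u) 0 * h⁻¹ = X 0 := by rw [hX]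
    have e1 : mul3 a' b' c' d' v (sh3 a' b' c' d' u) 1 * h⁻¹ = X 1 := by rw [hX]
    have e2 : mul3 a' b' c' d' v (sh3 a' b' c' d' u) 2 * h⁻¹ = X 2 := by rw [hX]
    rw [e1] at h1
    rw [e2] at h2
    rw [e0] at hX0 ⊢
    have hN := NU.mul_left hA hY0 hα
    rw [← e] at hN
    refine NU.of_sq hA hX0 ?_
    have e3 : X 0 ^ 2 = sh3 a' b' c' d' X 0 - (X 0 * b' * X 1 - X 0 * c' * X 2) -
        ((a' * d' - b' * c') * X 1) * X 2 := by
      simp only [sh3, Matrix.cons_val_zero]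
      ring
    rw [e3]
    exact NU.sub hA (NU.sub hA hN (NU.sub hA (NU.mul_left hA (A.mul_mem hX0 hbA) h1)
      (NU.mul_left hA (A.mul_mem hX0 hcA) h2))) (NU.mul_left hA (A.mul_mem (A.sub_mem
      (A.mul_mem haA hdA) (A.mul_mem hbA hcA)) h1.1) h2)
  · exact h1
  · exact h2

theorem loc_all [IsDedekindDomain R]
    (hfin : ∀ 𝔭 : Ideal R, 𝔭.IsPrime → 𝔭 ≠ ⊥ → Finite (R ⧸ 𝔭))
    (hfr : ∀ z : E, ∃ a ∈ R, ∃ b ∈ R, b ≠ 0 ∧ z = a * b⁻¹) {a b c d : E}
    (hM : Mx (AE (E := E) A) R a b c d) (hM' : Mx (AE (E := E) A) R (-d) (-c) (-b) (-a))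
    (u v : Fin 3 → F)
    (huv : IntermediateField.adjoin E (Set.range u ∪ Set.range v) = ⊤)
    (hu0 : nm3 (algebraMap E F a) (algebraMap E F b) (algebraMap E F c) (algebraMap E F d) u ≠ 0)
    (hv0 : nm3 (algebraMap E F a) (algebraMap E F b) (algebraMap E F c) (algebraMap E F d) v ≠ 0)
    {h : F} (hh0 : h ≠ 0)
    (hmem : ∀ w ∈ Fm (algebraMap E F a) (algebraMap E F b) (algebraMap E F c) (algebraMap E F d)
      u v, w * h⁻¹ ∈ A)
    (hunit : ∃ w ∈ Fm (algebraMap E F a) (algebraMap E F b) (algebraMap E F c) (algebraMap E F d)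
      u v, ¬ NU A (w * h⁻¹))
    (hgen : ∀ g : F, g ≠ 0 → g * h⁻¹ ∈ A → h * g⁻¹ ∈ A →
      A ≤ lo A (Subring.closure ((B0 A R : Set F) ∪ {z | ∃ w ∈ Fm (algebraMap E F a)
      (algebraMap E F b) (algebraMap E F c) (algebraMap E F d) u v, z = w * g⁻¹}))) :
    IsRegularLocalRing A := by
  classical
  have hvu : IntermediateField.adjoin E (Set.range v ∪ Set.range u) = ⊤ := by
    rw [Set.union_comm]; exact huv
  have hchange : ∀ g : F, g * h⁻¹ ∈ A → ¬ NU A (g * h⁻¹) → g ≠ 0 ∧ h * g⁻¹ ∈ A := by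
    intro g hg hgu
    have h3 : g * h⁻¹ ≠ 0 ∧ (g * h⁻¹)⁻¹ ∈ A := by
      by_contra h
      exact hgu ⟨hg, h⟩
    refine ⟨left_ne_zero_of_mul h3.1, ?_⟩
    have h4 := h3.2
    rwa [mul_inv, inv_inv, mul_comm] at h4
  have hmemg : ∀ g : F, h * g⁻¹ ∈ A → ∀ w ∈ Fm (algebraMap E F a)
      (algebraMap E F b) (algebraMap E F c) (algebraMap E F d) u v, w * g⁻¹ ∈ A := by
    intro g hg w hw
    have h3 : w * g⁻¹ = w * h⁻¹ * (h * g⁻¹) := by field_simp
    rw [h3]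
    exact A.mul_mem (hmem w hw) hg
  by_cases h1 : NU A (nm3 (algebraMap E F a) (algebraMap E F b) (algebraMap E F c)
      (algebraMap E F d) u * h⁻¹)
  swap
  · obtain ⟨hg0, hhg⟩ := hchange _ (hmem _ (Or.inl rfl)) h1
    exact loc_a hA hRA hF hfr hM.ma hM.mb hM.mc hM.md u v huv hg0 (hmemg _ hhg)
      (hgen _ hg0 (hmem _ (Or.inl rfl)) hhg)
  by_cases h2 : NU A (nm3 (algebraMap E F a) (algebraMap E F b) (algebraMap E F c)
      (algebraMap E F d) v * h⁻¹)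
  swap
  · obtain ⟨hg0, hhg⟩ := hchange _ (hmem _ (Or.inr (Or.inr (Or.inr rfl)))) h2
    exact loc_a hA hRA hF hfr hM.ma hM.mb hM.mc hM.md v u hvu hg0
      (by rw [Fm_comm]; exact hmemg _ hhg)
      (by rw [Fm_comm]; exact hgen _ hg0 (hmem _ (Or.inr (Or.inr (Or.inr rfl)))) hhg)
  obtain ⟨w, rfl | ⟨i, rfl⟩ | ⟨i, rfl⟩ | rfl, hw⟩ := hunit
  · exact absurd h1 hw
  · exact loc_half hA hRA hF hfin hfr hM hM' u v huv hu0 hh0 hmem h1 ⟨i, hw⟩ hgen
  · exact loc_half hA hRA hF hfin hfr hM hM' v u hvu hv0 hh0 (by rw [Fm_comm]; exact hmem) h2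
      ⟨i, hw⟩ (by rw [Fm_comm]; exact hgen)
  · exact absurd h2 hw

end loc

end Pool.Agent.RM558
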