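import Pool.Agent.W558.RM.MaxZ

/-!
# Existence of maximal forms
-/

set_option autoImplicit false
set_option linter.unusedVariables false
set_option linter.unusedSectionVars false

namespace Pool.Agent.RM558

open IsLocalRing Pool.Agent.W418.LU2 Pool.Agent.W418.WR

lemma natAbs_lt (p : ℤ) (hp : Prime p) (k : ℕ) (hk : k ≠ 0) (x y : ℤ) (hy : y ≠ 0)
    (hxy : x = p ^ k * y) : y.natAbs < x.natAbs := by
  have h1 : 1 < p.natAbs := (Int.prime_iff_natAbs_prime.1 hp).one_lt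
  have h2 : 1 < p.natAbs ^ k := Nat.one_lt_pow hk h1
  have h3 : 0 < y.natAbs := Int.natAbs_pos.2 hy
  rw [hxy, Int.natAbs_mul, Int.natAbs_pow]
  nlinarith

variable {F : Type} [Field F] [Algebra ℚ F]

theorem mz_of_min {L : Submodule ℚ F} {a b c d : ℤ} (h : Gd L (a : ℚ) (b : ℚ) (c : ℚ) (d : ℚ))
    (h0 : dsc a b c d ≠ 0)
    (hmin : ∀ a' b' c' d' : ℤ, Gd L (a' : ℚ) (b' : ℚ) (c' : ℚ) (d' : ℚ) → dsc a' b' c' d' ≠ 0 →
      ¬ (dsc a' b' c' d').natAbs < (dsc a b c d).natAbs) : MZ a b c d := by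
  refine ⟨h0, ?_, ?_⟩
  · rintro p hp ⟨⟨a', rfl⟩, ⟨b', rfl⟩, ⟨c', rfl⟩, ⟨d', rfl⟩⟩
    have hp0 : (p : ℚ) ≠ 0 := by exact_mod_cast hp.ne_zero
    have h1 : dsc (p * a') (p * b') (p * c') (p * d') = p ^ 4 * dsc a' b' c' d' := by
      unfold dsc; ring
    have h2 : dsc a' b' c' d' ≠ 0 := by
      intro h3
      exact h0 (by rw [h1, h3, mul_zero])
    refine hmin a' b' c' d' ?_ h2 (natAbs_lt p hp 4 (by norm_num) _ _ h2 h1)
    have h3 := h.diag (s := (p : ℚ)⁻¹) (t := (p : ℚ)⁻¹) (inv_ne_zero hp0) (inv_ne_zero hp0)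
    convert h3 using 1
    · push_cast; field_simp
    · push_cast; field_simp
    · push_cast; field_simp
    · push_cast; field_simp
  · rintro p hp r ⟨⟨c', hc'⟩, ⟨d', hd'⟩⟩
    have hp0 : (p : ℚ) ≠ 0 := by exact_mod_cast hp.ne_zero
    have h1 : dsc a b c d = p ^ 2 * dsc (a * p) (b + 3 * a * r) c' d' := by
      have h2 : dsc a b c d = dsc a (b + 3 * a * r) (3 * a * r ^ 2 + 2 * b * r + c)
          (a * r ^ 3 + b * r ^ 2 + c * r + d) := by
        unfold dsc; ring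
      rw [h2, hc', hd']
      unfold dsc; ring
    have h2 : dsc (a * p) (b + 3 * a * r) c' d' ≠ 0 := by
      intro h3
      exact h0 (by rw [h1, h3, mul_zero])
    refine hmin (a * p) (b + 3 * a * r) c' d' ?_ h2 (natAbs_lt p hp 2 (by norm_num) _ _ h2 h1)
    have h3 := (h.unip (r : ℚ)).diag (s := 1) (t := (p : ℚ)⁻¹) one_ne_zero (inv_ne_zero hp0)
    have hc2 : 3 * (a : ℚ) * r ^ 2 + 2 * b * r + c = p * c' := by exact_mod_cast hc'
    have hd2 : (a : ℚ) * r ^ 3 + b * r ^ 2 + c * r + d = p ^ 2 * d' := by exact_mod_cast hd'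
    rw [hc2, hd2] at h3
    convert h3 using 1
    · push_cast; field_simp
    · push_cast; ring
    · field_simp
    · field_simp

theorem exists_max {L : Submodule ℚ F} {a b c d : ℚ} (h : Gd L a b c d) (hd : dsc a b c d ≠ 0) :
    ∃ a b c d : ℤ, MZ a b c d ∧ MZ (-d) (-c) (-b) (-a) ∧
      Gd L (a : ℚ) (b : ℚ) (c : ℚ) (d : ℚ) := by
  classical
  have hP : ∃ n : ℕ, ∃ a b c d : ℤ, Gd L (a : ℚ) (b : ℚ) (c : ℚ) (d : ℚ) ∧ dsc a b c d ≠ 0 ∧
      (dsc a b c d).natAbs = n := by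
    let N : ℤ := a.den * b.den * c.den * d.den
    have hN0 : (N : ℚ) ≠ 0 := by
      simp only [N]
      push_cast
      have h1 : (a.den : ℚ) ≠ 0 := by exact_mod_cast a.den_nz
      have h2 : (b.den : ℚ) ≠ 0 := by exact_mod_cast b.den_nz
      have h3 : (c.den : ℚ) ≠ 0 := by exact_mod_cast c.den_nz
      have h4 : (d.den : ℚ) ≠ 0 := by exact_mod_cast d.den_nz
      positivity
    have ha : ∃ a' : ℤ, (a' : ℚ) = a * N := by
      refine ⟨a.num * (b.den * c.den * d.den), ?_⟩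
      simp only [N]
      push_cast
      rw [← Rat.mul_den_eq_num]
      ring
    have hb : ∃ a' : ℤ, (a' : ℚ) = b * N := by
      refine ⟨b.num * (a.den * c.den * d.den), ?_⟩
      simp only [N]
      push_cast
      rw [← Rat.mul_den_eq_num]
      ring
    have hc : ∃ a' : ℤ, (a' : ℚ) = c * N := by
      refine ⟨c.num * (a.den * b.den * d.den), ?_⟩
      simp only [N]
      push_cast
      rw [← Rat.mul_den_eq_num]
      ring
    have hd' : ∃ a' : ℤ, (a' : ℚ) = d * N := by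
      refine ⟨d.num * (a.den * b.den * c.den), ?_⟩
      simp only [N]
      push_cast
      rw [← Rat.mul_den_eq_num]
      ring
    obtain ⟨a', ha⟩ := ha
    obtain ⟨b', hb⟩ := hb
    obtain ⟨c', hc⟩ := hc
    obtain ⟨d', hd'⟩ := hd'
    refine ⟨_, a', b', c', d', ?_, ?_, rfl⟩
    · have h3 := h.diag hN0 hN0
      convert h3 using 1
      · rw [ha]; field_simp
      · rw [hd']; field_simp
    · intro h3
      have h4 : dsc (a' : ℚ) (b' : ℚ) (c' : ℚ) (d' : ℚ) = 0 := by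
        unfold dsc at h3 ⊢
        exact_mod_cast h3
      apply hd
      have h5 : dsc (a' : ℚ) (b' : ℚ) (c' : ℚ) (d' : ℚ) = (N : ℚ) ^ 4 * dsc a b c d := by
        rw [ha, hb, hc, hd']
        unfold dsc; ring
      rw [h5] at h4
      rcases mul_eq_zero.1 h4 with h6 | h6
      · exact absurd h6 (pow_ne_zero 4 hN0)
      · exact h6
  obtain ⟨a, b, c, d, h1, h2, h3⟩ := Nat.find_spec hP
  have hmin : ∀ a' b' c' d' : ℤ, Gd L (a' : ℚ) (b' : ℚ) (c' : ℚ) (d' : ℚ) → dsc a' b' c' d' ≠ 0 →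
      ¬ (dsc a' b' c' d').natAbs < (dsc a b c d).natAbs := by
    intro a' b' c' d' h4 h5 h6
    rw [h3] at h6
    exact Nat.find_min hP h6 ⟨a', b', c', d', h4, h5, rfl⟩
  have h4 : dsc (-d) (-c) (-b) (-a) = dsc a b c d := by unfold dsc; ring
  refine ⟨a, b, c, d, mz_of_min h1 h2 hmin, mz_of_min (L := L) ?_ (by rw [h4]; exact h2)
    (by rw [h4]; exact hmin), h1⟩
  have h5 := h1.swap
  convert h5 using 1
  · push_cast; rfl
  · push_cast; rfl
  · push_cast; rfl
  · push_cast; rfl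

end Pool.Agent.RM558
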