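import Pool.Agent.W558.RM.Loc3

/-!
# Maximal integral binary cubic forms
-/

set_option autoImplicit false
set_option linter.unusedVariables false
set_option linter.unusedSectionVars false

namespace Pool.Agent.RM558

open IsLocalRing Pool.Agent.W418.LU2 Pool.Agent.W418.WR

/-- The discriminant. -/
def dsc {R : Type*} [CommRing R] (a b c d : R) : R :=
  b ^ 2 * c ^ 2 - 4 * a * c ^ 3 - 4 * b ^ 3 * d - 27 * a ^ 2 * d ^ 2 + 18 * a * b * c * d

/-- A maximal form. -/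
structure MZ (a b c d : ℤ) : Prop where
  disc : dsc a b c d ≠ 0
  prim : ∀ p : ℤ, Prime p → ¬ (p ∣ a ∧ p ∣ b ∧ p ∣ c ∧ p ∣ d)
  ram : ∀ p : ℤ, Prime p → ∀ r : ℤ, ¬ (p ∣ 3 * a * r ^ 2 + 2 * b * r + c ∧
    p ^ 2 ∣ a * r ^ 3 + b * r ^ 2 + c * r + d)

lemma exists_p {W : Subring ℚ} (hW : Loc W) : (∀ n : ℤ, NU W (n : ℚ) → n = 0) ∨
    ∃ p : ℤ, Prime p ∧ ∀ n : ℤ, NU W (n : ℚ) ↔ p ∣ n := by
  have hloc := isLocalRing_of_loc hW
  let P : Ideal ℤ := (maximalIdeal W).comap (Int.castRingHom W)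
  have hP : P.IsPrime := Ideal.IsPrime.comap _
  have hmem : ∀ n : ℤ, n ∈ P ↔ NU W (n : ℚ) := by
    intro n
    have h1 := nu_iff hW ((n : ℤ) : W)
    rw [show (((n : ℤ) : W) : ℚ) = (n : ℚ) from by push_cast; rfl] at h1
    rw [h1]
    exact Iff.rfl
  by_cases h : P = ⊥
  · left
    intro n hn
    rw [← hmem, h] at hn
    exact hn
  · right
    refine ⟨Submodule.IsPrincipal.generator P, Submodule.IsPrincipal.prime_generator_of_isPrime P h,
      fun n => ?_⟩
    rw [← hmem]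
    exact Submodule.IsPrincipal.mem_iff_generator_dvd P

theorem mx_of {a b c d : ℤ} (h : MZ a b c d) (W : Subring ℚ) (hW : Loc W) :
    Mx W (algebraMap ℤ ℚ).range (a : ℚ) (b : ℚ) (c : ℚ) (d : ℚ) := by
  have hR : ∀ n : ℤ, (n : ℚ) ∈ (algebraMap ℤ ℚ).range := fun n => ⟨n, by simp⟩
  have hRW : (algebraMap ℤ ℚ).range ≤ W := by
    rintro _ ⟨n, rfl⟩
    rw [eq_intCast]
    exact intCast_mem W n
  refine ⟨hR a, hR b, hR c, hR d, ?_, ?_, ?_⟩
  · have := h.disc
    unfold dsc at this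
    exact_mod_cast this
  · rintro ⟨h1, h2, h3, h4⟩
    rcases exists_p hW with hp | ⟨p, hp, hpn⟩
    · apply h.disc
      rw [hp a h1, hp b h2, hp c h3, hp d h4]
      simp [dsc]
    · exact h.prim p hp ⟨(hpn a).1 h1, (hpn b).1 h2, (hpn c).1 h3, (hpn d).1 h4⟩
  · rintro α ϖ c₁ c₂ ⟨r, rfl⟩ ⟨_, ⟨n, rfl⟩, _, ⟨m, rfl⟩, hm0, hmW, rfl⟩
      ⟨_, ⟨n₁, rfl⟩, _, ⟨m₁, rfl⟩, hm₁0, hm₁W, rfl⟩
      ⟨_, ⟨n₂, rfl⟩, _, ⟨m₂, rfl⟩, hm₂0, hm₂W, rfl⟩ hϖ0 hϖ h1 h2
    simp only [eq_intCast] at *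
    have hn0 : (n : ℚ) ≠ 0 := left_ne_zero_of_mul hϖ0
    have hnN : NU W (n : ℚ) := by
      refine ⟨intCast_mem W n, fun h3 => hϖ ?_⟩
      rw [mul_inv, inv_inv]
      exact W.mul_mem h3.2 (intCast_mem W m)
    rcases exists_p hW with hp | ⟨p, hp, hpn⟩
    · exact hn0 (by rw [hp n hnN]; simp)
    have hu : ∀ k : ℤ, (k : ℚ) ≠ 0 → (k : ℚ)⁻¹ ∈ W → ¬ p ∣ k := by
      intro k hk0 hk h3
      exact ((hpn k).2 h3).2 ⟨hk0, hk⟩
    have hpn' := (hpn n).1 hnN
    have hm := hu m hm0 hmW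
    have hm₁ := hu m₁ hm₁0 hm₁W
    have hm₂ := hu m₂ hm₂0 hm₂W
    refine h.ram p hp r ⟨?_, ?_⟩
    · have h3 : (3 * a * r ^ 2 + 2 * b * r + c) * (m₁ * m) = n₁ * n := by
        have h4 : ((3 * a * r ^ 2 + 2 * b * r + c : ℤ) : ℚ) * (m₁ * m) = n₁ * n := by
          push_cast
          rw [h1]
          field_simp
        exact_mod_cast h4
      have h4 : p ∣ (3 * a * r ^ 2 + 2 * b * r + c) * (m₁ * m) := by
        rw [h3]
        exact Dvd.dvd.mul_left hpn' _
      rcases hp.dvd_or_dvd h4 with h5 | h5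
      · exact h5
      · rcases hp.dvd_or_dvd h5 with h6 | h6
        · exact absurd h6 hm₁
        · exact absurd h6 hm
    · have h3 : (a * r ^ 3 + b * r ^ 2 + c * r + d) * (m₂ * m ^ 2) = n₂ * n ^ 2 := by
        have h4 : ((a * r ^ 3 + b * r ^ 2 + c * r + d : ℤ) : ℚ) * (m₂ * m ^ 2) =
            n₂ * n ^ 2 := by
          push_cast
          rw [h2]
          field_simp
        exact_mod_cast h4
      have h4 : p ^ 2 ∣ (a * r ^ 3 + b * r ^ 2 + c * r + d) * (m₂ * m ^ 2) := by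
        rw [h3]
        exact Dvd.dvd.mul_left (pow_dvd_pow_of_dvd hpn' 2) _
      refine hp.pow_dvd_of_dvd_mul_right 2 ?_ h4
      intro h5
      rcases hp.dvd_or_dvd h5 with h6 | h6
      · exact hm₂ h6
      · exact hm (hp.dvd_of_dvd_pow h6)

section moves

variable {F : Type} [Field F] [Algebra ℚ F]

/-- The forms which define the same span. -/
def Gd (L : Submodule ℚ F) (a b c d : ℚ) : Prop :=
  ∃ u v : Fin 3 → F, IntermediateField.adjoin ℚ (Set.range u ∪ Set.range v) = ⊤ ∧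
    nm3 (algebraMap ℚ F a) (algebraMap ℚ F b) (algebraMap ℚ F c) (algebraMap ℚ F d) u ≠ 0 ∧
    nm3 (algebraMap ℚ F a) (algebraMap ℚ F b) (algebraMap ℚ F c) (algebraMap ℚ F d) v ≠ 0 ∧
    Submodule.span ℚ (Fm (algebraMap ℚ F a) (algebraMap ℚ F b) (algebraMap ℚ F c)
      (algebraMap ℚ F d) u v) = L

theorem Gd.move {L : Submodule ℚ F} {a b c d a' b' c' d' : ℚ} (φ : (Fin 3 → F) → (Fin 3 → F))
    (h1 : ∀ u i, φ u i ∈ Submodule.span ℚ (Set.range u))
    (h2 : ∀ u i, u i ∈ Submodule.span ℚ (Set.range (φ u)))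
    (hmul : ∀ u v, mul3 (algebraMap ℚ F a') (algebraMap ℚ F b') (algebraMap ℚ F c')
      (algebraMap ℚ F d') (φ u) (φ v) = φ (mul3 (algebraMap ℚ F a) (algebraMap ℚ F b)
        (algebraMap ℚ F c) (algebraMap ℚ F d) u v))
    (hsh : ∀ u, sh3 (algebraMap ℚ F a') (algebraMap ℚ F b') (algebraMap ℚ F c')
      (algebraMap ℚ F d') (φ u) = φ (sh3 (algebraMap ℚ F a) (algebraMap ℚ F b)
        (algebraMap ℚ F c) (algebraMap ℚ F d) u))
    (h0 : ∀ w : Fin 3 → F, w 1 = 0 → w 2 = 0 → φ w 0 = w 0)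
    (h : Gd L a b c d) : Gd L a' b' c' d' := by
  obtain ⟨u, v, huv, hu, hv, hL⟩ := h
  have hnm : ∀ u, nm3 (algebraMap ℚ F a') (algebraMap ℚ F b') (algebraMap ℚ F c')
      (algebraMap ℚ F d') (φ u) = nm3 (algebraMap ℚ F a) (algebraMap ℚ F b)
        (algebraMap ℚ F c) (algebraMap ℚ F d) u := by
    intro u
    unfold nm3
    rw [hsh, hmul, h0 _ (mul_sh_one _ _ _ _ _) (mul_sh_two _ _ _ _ _)]
  refine ⟨φ u, φ v, ?_, ?_, ?_, ?_⟩
  · set K := IntermediateField.adjoin ℚ (Set.range (φ u) ∪ Set.range (φ v)) with hK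
    have hKs : ∀ S : Set F, S ⊆ K → ∀ z ∈ Submodule.span ℚ S, z ∈ K := by
      intro S hS z hz
      have h3 : Submodule.span ℚ S ≤ K.toSubalgebra.toSubmodule := Submodule.span_le.2 hS
      exact h3 hz
    rw [eq_top_iff, ← huv, IntermediateField.adjoin_le_iff]
    rintro z (⟨k, rfl⟩ | ⟨k, rfl⟩)
    · exact hKs _ (fun z hz => IntermediateField.subset_adjoin ℚ _ (Or.inl hz)) _ (h2 u k)
    · exact hKs _ (fun z hz => IntermediateField.subset_adjoin ℚ _ (Or.inr hz)) _ (h2 v k)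
  · rw [hnm]; exact hu
  · rw [hnm]; exact hv
  · rw [← hL]
    apply le_antisymm
    · rw [Submodule.span_le]
      rintro z (rfl | ⟨i, rfl⟩ | ⟨i, rfl⟩ | rfl)
      · rw [hnm]; exact Submodule.subset_span (Or.inl rfl)
      · rw [hsh, hmul]
        refine Submodule.span_mono ?_ (h1 _ i)
        rintro z ⟨k, rfl⟩
        exact Or.inr (Or.inl ⟨k, rfl⟩)
      · rw [hsh, hmul]
        refine Submodule.span_mono ?_ (h1 _ i)
        rintro z ⟨k, rfl⟩
        exact Or.inr (Or.inr (Or.inl ⟨k, rfl⟩))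
      · rw [hnm]; exact Submodule.subset_span (Or.inr (Or.inr (Or.inr rfl)))
    · rw [Submodule.span_le]
      rintro z (rfl | ⟨i, rfl⟩ | ⟨i, rfl⟩ | rfl)
      · rw [← hnm]; exact Submodule.subset_span (Or.inl rfl)
      · refine Submodule.span_mono ?_ (h2 _ i)
        rintro z ⟨k, rfl⟩
        rw [← hmul, ← hsh]
        exact Or.inr (Or.inl ⟨k, rfl⟩)
      · refine Submodule.span_mono ?_ (h2 _ i)
        rintro z ⟨k, rfl⟩
        rw [← hmul, ← hsh]
        exact Or.inr (Or.inr (Or.inl ⟨k, rfl⟩))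
      · rw [← hnm]; exact Submodule.subset_span (Or.inr (Or.inr (Or.inr rfl)))

theorem Gd.diag {L : Submodule ℚ F} {a b c d : ℚ} {s t : ℚ} (hs : s ≠ 0) (ht : t ≠ 0)
    (h : Gd L a b c d) : Gd L (a * s ^ 2 / t) (b * s) (c * t) (d * t ^ 2 / s) := by
  have hs' : algebraMap ℚ F s ≠ 0 := (_root_.map_ne_zero _).2 hs
  have ht' : algebraMap ℚ F t ≠ 0 := (_root_.map_ne_zero _).2 ht
  refine h.move (fun u => ![u 0, (algebraMap ℚ F s)⁻¹ * u 1, (algebraMap ℚ F t)⁻¹ * u 2])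
    ?_ ?_ ?_ ?_ ?_
  · intro u i
    have h1 : ∀ k, u k ∈ Submodule.span ℚ (Set.range u) := fun k => Submodule.subset_span ⟨k, rfl⟩
    fin_cases i
    · exact h1 0
    · change (algebraMap ℚ F s)⁻¹ * u 1 ∈ _
      rw [← map_inv₀, ← Algebra.smul_def]
      exact Submodule.smul_mem _ _ (h1 1)
    · change (algebraMap ℚ F t)⁻¹ * u 2 ∈ _
      rw [← map_inv₀, ← Algebra.smul_def]
      exact Submodule.smul_mem _ _ (h1 2)
  · intro u i
    obtain ⟨w, hw⟩ : ∃ w, w = (![u 0, (algebraMap ℚ F s)⁻¹ * u 1,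
      (algebraMap ℚ F t)⁻¹ * u 2] : Fin 3 → F) := ⟨_, rfl⟩
    have h1 : ∀ k, w k ∈ Submodule.span ℚ (Set.range w) := fun k => Submodule.subset_span ⟨k, rfl⟩
    change u i ∈ Submodule.span ℚ (Set.range (![u 0, (algebraMap ℚ F s)⁻¹ * u 1,
      (algebraMap ℚ F t)⁻¹ * u 2] : Fin 3 → F))
    rw [← hw]
    fin_cases i
    · change u 0 ∈ _
      have h2 : u 0 = w 0 := by rw [hw]; rfl
      rw [h2]
      exact h1 0
    · change u 1 ∈ _
      have h2 : u 1 = s • w 1 := by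
        rw [hw, Algebra.smul_def]
        change u 1 = algebraMap ℚ F s * ((algebraMap ℚ F s)⁻¹ * u 1)
        field_simp
      rw [h2]
      exact Submodule.smul_mem _ _ (h1 1)
    · change u 2 ∈ _
      have h2 : u 2 = t • w 2 := by
        rw [hw, Algebra.smul_def]
        change u 2 = algebraMap ℚ F t * ((algebraMap ℚ F t)⁻¹ * u 2)
        field_simp
      rw [h2]
      exact Submodule.smul_mem _ _ (h1 2)
  · intro u v
    simp only [map_mul, map_div₀, map_pow]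
    generalize algebraMap ℚ F s = S at *
    generalize algebraMap ℚ F t = T at *
    ext i
    fin_cases i <;> simp [mul3] <;> field_simp
  · intro u
    simp only [map_mul, map_div₀, map_pow]
    generalize algebraMap ℚ F s = S at *
    generalize algebraMap ℚ F t = T at *
    ext i
    fin_cases i <;> simp [sh3] <;> field_simp
  · intro w _ _
    rfl

theorem Gd.unip {L : Submodule ℚ F} {a b c d : ℚ} (r : ℚ)
    (h : Gd L a b c d) : Gd L a (b + 3 * a * r) (3 * a * r ^ 2 + 2 * b * r + c)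
      (a * r ^ 3 + b * r ^ 2 + c * r + d) := by
  refine h.move (fun u => ![u 0 - algebraMap ℚ F (r * a) * u 1 +
    algebraMap ℚ F (r * b + 2 * a * r ^ 2) * u 2, u 1 - algebraMap ℚ F r * u 2, u 2])
    ?_ ?_ ?_ ?_ ?_
  · intro u i
    have h1 : ∀ k, u k ∈ Submodule.span ℚ (Set.range u) := fun k => Submodule.subset_span ⟨k, rfl⟩
    fin_cases i
    · change u 0 - algebraMap ℚ F (r * a) * u 1 +
        algebraMap ℚ F (r * b + 2 * a * r ^ 2) * u 2 ∈ _
      rw [← Algebra.smul_def, ← Algebra.smul_def]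
      exact Submodule.add_mem _ (Submodule.sub_mem _ (h1 0) (Submodule.smul_mem _ _ (h1 1)))
        (Submodule.smul_mem _ _ (h1 2))
    · change u 1 - algebraMap ℚ F r * u 2 ∈ _
      rw [← Algebra.smul_def]
      exact Submodule.sub_mem _ (h1 1) (Submodule.smul_mem _ _ (h1 2))
    · exact h1 2
  · intro u i
    obtain ⟨w, hw⟩ : ∃ w, w = (![u 0 - algebraMap ℚ F (r * a) * u 1 +
      algebraMap ℚ F (r * b + 2 * a * r ^ 2) * u 2, u 1 - algebraMap ℚ F r * u 2, u 2] :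
        Fin 3 → F) := ⟨_, rfl⟩
    have h1 : ∀ k, w k ∈ Submodule.span ℚ (Set.range w) := fun k => Submodule.subset_span ⟨k, rfl⟩
    change u i ∈ Submodule.span ℚ (Set.range (![u 0 - algebraMap ℚ F (r * a) * u 1 +
      algebraMap ℚ F (r * b + 2 * a * r ^ 2) * u 2, u 1 - algebraMap ℚ F r * u 2, u 2] :
        Fin 3 → F))
    rw [← hw]
    have e2 : w 2 = u 2 := by rw [hw]; rfl
    have e1 : w 1 = u 1 - algebraMap ℚ F r * u 2 := by rw [hw]; rfl
    have e0 : w 0 = u 0 - algebraMap ℚ F (r * a) * u 1 +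
      algebraMap ℚ F (r * b + 2 * a * r ^ 2) * u 2 := by rw [hw]; rfl
    fin_cases i
    · change u 0 ∈ _
      have h2 : u 0 = w 0 + (r * a) • w 1 - (r * b + a * r ^ 2) • w 2 := by
        rw [Algebra.smul_def, Algebra.smul_def, e0, e1, e2]
        simp only [map_add, map_mul, map_pow, map_ofNat]
        ring
      rw [h2]
      exact Submodule.sub_mem _ (Submodule.add_mem _ (h1 0) (Submodule.smul_mem _ _ (h1 1)))
        (Submodule.smul_mem _ _ (h1 2))
    · change u 1 ∈ _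
      have h2 : u 1 = w 1 + r • w 2 := by
        rw [Algebra.smul_def, e1, e2]
        ring
      rw [h2]
      exact Submodule.add_mem _ (h1 1) (Submodule.smul_mem _ _ (h1 2))
    · change u 2 ∈ _
      rw [← e2]
      exact h1 2
  · intro u v
    simp only [map_mul, map_add, map_pow, map_ofNat]
    generalize algebraMap ℚ F a = a'
    generalize algebraMap ℚ F b = b'
    generalize algebraMap ℚ F c = c'
    generalize algebraMap ℚ F d = d'
    generalize algebraMap ℚ F r = r'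
    ext i
    fin_cases i <;> simp [mul3] <;> ring
  · intro u
    simp only [map_mul, map_add, map_pow, map_ofNat]
    generalize algebraMap ℚ F a = a'
    generalize algebraMap ℚ F b = b'
    generalize algebraMap ℚ F c = c'
    generalize algebraMap ℚ F d = d'
    generalize algebraMap ℚ F r = r'
    ext i
    fin_cases i <;> simp [sh3] <;> ring
  · intro w h1 h2
    change w 0 - algebraMap ℚ F (r * a) * w 1 +
      algebraMap ℚ F (r * b + 2 * a * r ^ 2) * w 2 = w 0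
    rw [h1, h2]
    ring

theorem Gd.swap {L : Submodule ℚ F} {a b c d : ℚ} (h : Gd L a b c d) :
    Gd L (-d) (-c) (-b) (-a) := by
  refine h.move sw ?_ ?_ ?_ ?_ ?_
  · intro u i
    have h1 : ∀ k, u k ∈ Submodule.span ℚ (Set.range u) := fun k => Submodule.subset_span ⟨k, rfl⟩
    fin_cases i
    · exact h1 0
    · exact h1 2
    · exact h1 1
  · intro u i
    have h1 : ∀ k, sw u k ∈ Submodule.span ℚ (Set.range (sw u)) := fun k =>
      Submodule.subset_span ⟨k, rfl⟩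
    fin_cases i
    · exact h1 0
    · exact h1 2
    · exact h1 1
  · intro u v
    simp only [map_neg]
    exact mul_sw _ _ _ _ u v
  · intro u
    simp only [map_neg]
    exact sh_sw _ _ _ _ u
  · intro w _ _
    rfl

end moves

end Pool.Agent.RM558
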