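import Pool.Agent.W558.RM.Chart3
import Pool.Agent.W558.RM.Max2
import Pool.Agent.W418.WR.Main
import Pool.Agent.W418.Desc

/-!
# The Weil restriction of the projective line from a cubic algebra
-/

set_option autoImplicit false
set_option linter.unusedVariables false
set_option linter.unusedSectionVars false

namespace Pool.Agent.RM558

open IsLocalRing AlgebraicGeometry CategoryTheory CategoryTheory.Limits
open Pool.Agent.W418 Pool.Agent.W418.WR MvPolynomial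

lemma Fm_finite {F : Type} [Field F] (a b c d : F) (u v : Fin 3 → F) : (Fm a b c d u v).Finite := by
  have h1 : Fm a b c d u v ⊆ {nm3 a b c d u} ∪ (Set.range (mul3 a b c d v (sh3 a b c d u)) ∪
      (Set.range (mul3 a b c d u (sh3 a b c d v)) ∪ {nm3 a b c d v})) := by
    rintro z (rfl | ⟨i, rfl⟩ | ⟨i, rfl⟩ | rfl)
    · exact Or.inl rfl
    · exact Or.inr (Or.inl ⟨i, rfl⟩)
    · exact Or.inr (Or.inr (Or.inl ⟨i, rfl⟩))
    · exact Or.inr (Or.inr (Or.inr rfl))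
  exact Set.Finite.subset ((Set.finite_singleton _).union ((Set.finite_range _).union
    ((Set.finite_range _).union (Set.finite_singleton _)))) h1

theorem rc_abs {F A : Type} [Field F] [Algebra ℚ F] [CommRing A] [Algebra ℚ A]
    (hF : ∀ y : Fin 3 × Bool → F, IntermediateField.adjoin ℚ (Set.range y) = ⊤ →
      AlgebraicIndependent ℚ y) {a b c d : ℚ} (hd : dsc a b c d ≠ 0)
    (𝒜 : ℕ → Submodule ℚ A) [GradedAlgebra 𝒜] (ε : A →ₐ[ℚ] F)
    (hε : ∀ d, ∀ a ∈ 𝒜 d, ε a = 0 → a = 0)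
    (hgen : ∀ d, (𝒜 d).map ε.toLinearMap = ((𝒜 1).map ε.toLinearMap) ^ d)
    (h1 : Gd ((𝒜 1).map ε.toLinearMap) a b c d)
    (X : Scheme.{0}) (hX : Nonempty (X ≅ Proj 𝒜)) : HasRegularModel X := by
  classical
  have hst : IsScalarTower ℤ ℚ F := IsScalarTower.of_algebraMap_eq fun n => by simp
  have hfin : ∀ 𝔭 : Ideal ℤ, 𝔭.IsPrime → 𝔭 ≠ ⊥ → Finite (ℤ ⧸ 𝔭) := by
    intro 𝔭 _ h0
    exact Ideal.finiteQuotientOfFreeOfNeBot 𝔭 h0
  obtain ⟨a, b, c, d, hM, hM', u, v, huv, hu, hv, hL⟩ := exists_max h1 hd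
  refine hasRegularModel_of_module' (O := ℤ) 𝒜 ε hε hgen 1 one_pos
    (Submodule.span ℤ (Fm (algebraMap ℚ F a) (algebraMap ℚ F b) (algebraMap ℚ F c)
      (algebraMap ℚ F d) u v)) ?_ ?_ ?_ ?_ ?_ X hX
  · intro z hz
    rw [pow_one, ← hL]
    exact Submodule.span_le_restrictScalars ℤ ℚ _ hz
  · intro z hz
    rw [pow_one, ← hL] at hz
    exact exists_smul_span (O := ℤ) _ z hz
  · exact Submodule.fg_span (Fm_finite _ _ _ _ _ _)
  · exact ⟨_, Submodule.subset_span (Or.inl rfl), hu⟩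
  · intro f hf hf0 q hq
    refine chart3 (O := ℤ) (E := ℚ) hfin hF (a := a) (b := b) (c := c) (d := d) ?_ ?_ u v huv hu hv
      f hf hf0 _ rfl q
    · intro W hW _
      exact mx_of hM W hW
    · intro W hW _
      have h2 := mx_of hM' W hW
      simpa only [Int.cast_neg] using h2

/-- The coordinates. -/
noncomputable def uu (i : Fin 3) : MvPolynomial (Fin 3 × Bool) ℚ := X (i, false)

/-- The coordinates. -/
noncomputable def vv (i : Fin 3) : MvPolynomial (Fin 3 × Bool) ℚ := X (i, true)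

/-- The forms. -/
noncomputable def forms (a b c d : ℚ) : Set (MvPolynomial (Fin 3 × Bool) ℚ) :=
  {z | z = nm3 (C a) (C b) (C c) (C d) uu ∨ (∃ i, z = mul3 (C a) (C b) (C c) (C d) vv
    (sh3 (C a) (C b) (C c) (C d) uu) i) ∨ (∃ i, z = mul3 (C a) (C b) (C c) (C d) uu
    (sh3 (C a) (C b) (C c) (C d) vv) i) ∨ z = nm3 (C a) (C b) (C c) (C d) vv}

lemma map_mul3 {R S : Type} [CommRing R] [CommRing S] (φ : R →+* S) (a b c d : R) (u v : Fin 3 → R)
    (i : Fin 3) : φ (mul3 a b c d u v i) = mul3 (φ a) (φ b) (φ c) (φ d) (φ ∘ u) (φ ∘ v) i := by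
  fin_cases i <;> simp [mul3]

lemma map_sh3 {R S : Type} [CommRing R] [CommRing S] (φ : R →+* S) (a b c d : R) (u : Fin 3 → R)
    (i : Fin 3) : φ (sh3 a b c d u i) = sh3 (φ a) (φ b) (φ c) (φ d) (φ ∘ u) i := by
  fin_cases i <;> simp [sh3]

lemma map_sh3' {R S : Type} [CommRing R] [CommRing S] (φ : R →+* S) (a b c d : R)
    (u : Fin 3 → R) : φ ∘ sh3 a b c d u = sh3 (φ a) (φ b) (φ c) (φ d) (φ ∘ u) := by
  ext i
  exact map_sh3 φ a b c d u i

lemma map_nm3 {R S : Type} [CommRing R] [CommRing S] (φ : R →+* S) (a b c d : R) (u : Fin 3 → R) :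
    φ (nm3 a b c d u) = nm3 (φ a) (φ b) (φ c) (φ d) (φ ∘ u) := by
  unfold nm3
  rw [map_mul3, map_sh3']

theorem rc {A : Type} {a b c d : ℚ} (hd : dsc a b c d ≠ 0) [CommRing A] [Algebra ℚ A]
    (𝒜 : ℕ → Submodule ℚ A) [GradedAlgebra 𝒜]
    (ι : A →ₐ[ℚ] MvPolynomial (Fin 3 × Bool) ℚ) (hι : Function.Injective ι)
    (h𝒜 : ∀ k, (𝒜 k).map ι.toLinearMap = (Submodule.span ℚ (forms a b c d)) ^ k)
    (X : Scheme.{0}) (hX : Nonempty (X ≅ Proj 𝒜)) : HasRegularModel X := by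
  classical
  let F := FractionRing (MvPolynomial (Fin 3 × Bool) ℚ)
  let _ : Algebra ℚ F := OreLocalization.instAlgebra
  let φ : MvPolynomial (Fin 3 × Bool) ℚ →ₐ[ℚ] F := IsScalarTower.toAlgHom ℚ _ F
  have hφ : Function.Injective φ := IsFractionRing.injective (MvPolynomial (Fin 3 × Bool) ℚ) F
  let x : Fin 3 → F := fun i =>
    algebraMap (MvPolynomial (Fin 3 × Bool) ℚ) F (MvPolynomial.X (i, false))
  let y : Fin 3 → F := fun i =>
    algebraMap (MvPolynomial (Fin 3 × Bool) ℚ) F (MvPolynomial.X (i, true))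
  have hCd : ∀ c : ℚ, (φ : MvPolynomial (Fin 3 × Bool) ℚ →+* F) (C c) = algebraMap ℚ F c := fun c => φ.commutes c
  have hu : (φ : MvPolynomial (Fin 3 × Bool) ℚ →+* F) ∘ uu = x := rfl
  have hv : (φ : MvPolynomial (Fin 3 × Bool) ℚ →+* F) ∘ vv = y := rfl
  have hn1 : φ (nm3 (C a) (C b) (C c) (C d) uu) = nm3 (algebraMap ℚ F a) (algebraMap ℚ F b)
      (algebraMap ℚ F c) (algebraMap ℚ F d) x := by
    have := map_nm3 (φ : MvPolynomial (Fin 3 × Bool) ℚ →+* F) (C a) (C b) (C c) (C d) uu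
    rw [hCd, hCd, hCd, hCd, hu] at this
    exact this
  have hn2 : φ (nm3 (C a) (C b) (C c) (C d) vv) = nm3 (algebraMap ℚ F a) (algebraMap ℚ F b)
      (algebraMap ℚ F c) (algebraMap ℚ F d) y := by
    have := map_nm3 (φ : MvPolynomial (Fin 3 × Bool) ℚ →+* F) (C a) (C b) (C c) (C d) vv
    rw [hCd, hCd, hCd, hCd, hv] at this
    exact this
  have hm1 : ∀ i, φ (mul3 (C a) (C b) (C c) (C d) vv (sh3 (C a) (C b) (C c) (C d) uu) i) =
      mul3 (algebraMap ℚ F a) (algebraMap ℚ F b) (algebraMap ℚ F c) (algebraMap ℚ F d) y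
        (sh3 (algebraMap ℚ F a) (algebraMap ℚ F b) (algebraMap ℚ F c) (algebraMap ℚ F d) x) i := by
    intro i
    have := map_mul3 (φ : MvPolynomial (Fin 3 × Bool) ℚ →+* F) (C a) (C b) (C c) (C d) vv (sh3 (C a) (C b) (C c) (C d) uu) i
    rw [map_sh3', hCd, hCd, hCd, hCd, hu, hv] at this
    exact this
  have hm2 : ∀ i, φ (mul3 (C a) (C b) (C c) (C d) uu (sh3 (C a) (C b) (C c) (C d) vv) i) =
      mul3 (algebraMap ℚ F a) (algebraMap ℚ F b) (algebraMap ℚ F c) (algebraMap ℚ F d) x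
        (sh3 (algebraMap ℚ F a) (algebraMap ℚ F b) (algebraMap ℚ F c) (algebraMap ℚ F d) y) i := by
    intro i
    have := map_mul3 (φ : MvPolynomial (Fin 3 × Bool) ℚ →+* F) (C a) (C b) (C c) (C d) uu (sh3 (C a) (C b) (C c) (C d) vv) i
    rw [map_sh3', hCd, hCd, hCd, hCd, hu, hv] at this
    exact this
  have hnz : ∀ w : Fin 3 → MvPolynomial (Fin 3 × Bool) ℚ,
      (∃ e : Fin 3 × Bool → ℚ, eval e (w 0) = 1 ∧ eval e (w 1) = 0 ∧ eval e (w 2) = 0) →
      nm3 (C a) (C b) (C c) (C d) w ≠ 0 := by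
    rintro w ⟨e, h0, h1, h2⟩ h
    have h3 := congrArg (eval e) h
    have h4 := map_nm3 (eval e) (C a) (C b) (C c) (C d) w
    rw [h4, map_zero] at h3
    simp [nm3, mul3, sh3, h0, h1, h2] at h3
  have hmap : ∀ k, (𝒜 k).map (φ.comp ι).toLinearMap =
      (Submodule.span ℚ (Fm (algebraMap ℚ F a) (algebraMap ℚ F b) (algebraMap ℚ F c)
        (algebraMap ℚ F d) x y)) ^ k := by
    intro k
    have h1 : (φ.comp ι).toLinearMap = φ.toLinearMap.comp ι.toLinearMap := rfl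
    have h2 : φ '' forms a b c d = Fm (algebraMap ℚ F a) (algebraMap ℚ F b) (algebraMap ℚ F c)
        (algebraMap ℚ F d) x y := by
      ext z
      constructor
      · rintro ⟨_, (rfl | ⟨i, rfl⟩ | ⟨i, rfl⟩ | rfl), rfl⟩
        · exact Or.inl hn1
        · exact Or.inr (Or.inl ⟨i, hm1 i⟩)
        · exact Or.inr (Or.inr (Or.inl ⟨i, hm2 i⟩))
        · exact Or.inr (Or.inr (Or.inr hn2))
      · rintro (rfl | ⟨i, rfl⟩ | ⟨i, rfl⟩ | rfl)
        · exact ⟨_, Or.inl rfl, hn1⟩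
        · exact ⟨_, Or.inr (Or.inl ⟨i, rfl⟩), hm1 i⟩
        · exact ⟨_, Or.inr (Or.inr (Or.inl ⟨i, rfl⟩)), hm2 i⟩
        · exact ⟨_, Or.inr (Or.inr (Or.inr rfl)), hn2⟩
    rw [h1, Submodule.map_comp, h𝒜, Submodule.map_pow, ← h2]
    congr 1
    exact Submodule.map_span _ _
  refine rc_abs (fun y => indep_of_gen ℚ (Fin 3 × Bool) y) hd 𝒜 (φ.comp ι) ?_ ?_ ?_ X hX
  · intro k a _ ha
    have h1 : φ (ι a) = 0 := ha
    exact hι (by rw [map_zero]; exact hφ (by rw [h1, map_zero]))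
  · intro k
    rw [hmap, hmap, pow_one]
  · refine ⟨x, y, gen_top ℚ, ?_, ?_, ?_⟩
    · rw [← hn1]
      intro h
      refine hnz uu ⟨fun p => if p = (0, false) then 1 else 0, ?_, ?_, ?_⟩
        (hφ (by rw [h, map_zero]))
      · simp [uu]
      · simp [uu]
      · simp [uu]
    · rw [← hn2]
      intro h
      refine hnz vv ⟨fun p => if p = (0, true) then 1 else 0, ?_, ?_, ?_⟩
        (hφ (by rw [h, map_zero]))
      · simp [vv]
      · simp [vv]
      · simp [vv]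
    · rw [hmap, pow_one]

end Pool.Agent.RM558
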