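import Pool.Agent.W558.RM.RC
import Pool.Agent.W558.RM.Lat

/-!
# The Weil restriction of the projective line from a cubic algebra over a number field
-/

set_option autoImplicit false
set_option linter.unusedVariables false
set_option linter.unusedSectionVars false

namespace Pool.Agent.RM558.NFZ

open IsLocalRing AlgebraicGeometry CategoryTheory CategoryTheory.Limits NumberField
open Pool.Agent.W418 Pool.Agent.W418.WR MvPolynomial

variable {E : Type} [Field E]

theorem rc_abs {F A : Type} [NumberField E] [Field F] [Algebra E F]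
    [CommRing A] [Algebra E A]
    (hF : ∀ y : Fin 3 × Bool → F, IntermediateField.adjoin E (Set.range y) = ⊤ →
      AlgebraicIndependent E y) {a b c d : E} (hd : dsc a b c d ≠ 0)
    (𝒜 : ℕ → Submodule E A) [GradedAlgebra 𝒜] (ε : A →ₐ[E] F)
    (hε : ∀ d, ∀ a ∈ 𝒜 d, ε a = 0 → a = 0)
    (hgen : ∀ d, (𝒜 d).map ε.toLinearMap = ((𝒜 1).map ε.toLinearMap) ^ d)
    (h1 : GE ((𝒜 1).map ε.toLinearMap) a b c d)
    (X : Scheme.{0}) (hX : Nonempty (X ≅ Proj 𝒜)) : HasRegularModel X := by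
  classical
  let _ : Algebra (𝓞 E) F := ((algebraMap E F).comp (algebraMap (𝓞 E) E)).toAlgebra
  have hst : IsScalarTower (𝓞 E) E F := IsScalarTower.of_algebraMap_eq fun _ => rfl
  have hfin : ∀ 𝔭 : Ideal (𝓞 E), 𝔭.IsPrime → 𝔭 ≠ ⊥ → Finite (𝓞 E ⧸ 𝔭) := by
    intro 𝔭 _ h0
    exact Ideal.finiteQuotientOfFreeOfNeBot 𝔭 h0
  obtain ⟨M, hM, hML, hLM, hLD⟩ := exists_lattice (O := 𝓞 E) h1 hd
  refine hasRegularModel_of_module' (O := 𝓞 E) 𝒜 ε hε hgen 1 one_pos M ?_ ?_ hM ?_ ?_ X hX
  · intro z hz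
    rw [pow_one]
    exact hML z hz
  · intro z hz
    rw [pow_one] at hz
    exact hLM z hz
  · obtain ⟨u, v, huv, hu, hv, hL⟩ := h1
    obtain ⟨s, hs, hsz⟩ := hLM _ (by
      rw [← hL]
      exact Submodule.subset_span (Or.inl rfl))
    refine ⟨_, hsz, ?_⟩
    rw [Algebra.smul_def]
    refine mul_ne_zero ?_ hu
    intro h
    apply hs
    have h2 : algebraMap E F (algebraMap (𝓞 E) E s) = 0 := h
    rw [map_eq_zero] at h2
    exact (FaithfulSMul.algebraMap_injective (𝓞 E) E) (by rw [h2, map_zero])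
  · intro f hf hf0 q hq
    exact chartG (O := 𝓞 E) (E := E) hfin hF M hLD f hf hf0 _ rfl q

/-- The coordinates. -/
noncomputable def uu (i : Fin 3) : MvPolynomial (Fin 3 × Bool) E := X (i, false)

/-- The coordinates. -/
noncomputable def vv (i : Fin 3) : MvPolynomial (Fin 3 × Bool) E := X (i, true)

/-- The forms. -/
noncomputable def forms (a b c d : E) : Set (MvPolynomial (Fin 3 × Bool) E) :=
  {z | z = nm3 (C a) (C b) (C c) (C d) uu ∨ (∃ i, z = mul3 (C a) (C b) (C c) (C d) vv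
    (sh3 (C a) (C b) (C c) (C d) uu) i) ∨ (∃ i, z = mul3 (C a) (C b) (C c) (C d) uu
    (sh3 (C a) (C b) (C c) (C d) vv) i) ∨ z = nm3 (C a) (C b) (C c) (C d) vv}

theorem rc {A : Type} [NumberField E] {a b c d : E}
    (hd : dsc a b c d ≠ 0) [CommRing A] [Algebra E A]
    (𝒜 : ℕ → Submodule E A) [GradedAlgebra 𝒜]
    (ι : A →ₐ[E] MvPolynomial (Fin 3 × Bool) E) (hι : Function.Injective ι)
    (h𝒜 : ∀ k, (𝒜 k).map ι.toLinearMap = (Submodule.span E (forms a b c d)) ^ k)
    (X : Scheme.{0}) (hX : Nonempty (X ≅ Proj 𝒜)) : HasRegularModel X := by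
  classical
  let F := FractionRing (MvPolynomial (Fin 3 × Bool) E)
  let φ : MvPolynomial (Fin 3 × Bool) E →ₐ[E] F := IsScalarTower.toAlgHom E _ F
  have hφ : Function.Injective φ := IsFractionRing.injective (MvPolynomial (Fin 3 × Bool) E) F
  let x : Fin 3 → F := fun i =>
    algebraMap (MvPolynomial (Fin 3 × Bool) E) F (MvPolynomial.X (i, false))
  let y : Fin 3 → F := fun i =>
    algebraMap (MvPolynomial (Fin 3 × Bool) E) F (MvPolynomial.X (i, true))
  have hCd : ∀ c : E, (φ : MvPolynomial (Fin 3 × Bool) E →+* F) (C c) = algebraMap E F c := fun c => φ.commutes c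
  have hu : (φ : MvPolynomial (Fin 3 × Bool) E →+* F) ∘ uu = x := rfl
  have hv : (φ : MvPolynomial (Fin 3 × Bool) E →+* F) ∘ vv = y := rfl
  have hn1 : φ (nm3 (C a) (C b) (C c) (C d) uu) = nm3 (algebraMap E F a) (algebraMap E F b)
      (algebraMap E F c) (algebraMap E F d) x := by
    have := map_nm3 (φ : MvPolynomial (Fin 3 × Bool) E →+* F) (C a) (C b) (C c) (C d) uu
    rw [hCd, hCd, hCd, hCd, hu] at this
    exact this
  have hn2 : φ (nm3 (C a) (C b) (C c) (C d) vv) = nm3 (algebraMap E F a) (algebraMap E F b)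
      (algebraMap E F c) (algebraMap E F d) y := by
    have := map_nm3 (φ : MvPolynomial (Fin 3 × Bool) E →+* F) (C a) (C b) (C c) (C d) vv
    rw [hCd, hCd, hCd, hCd, hv] at this
    exact this
  have hm1 : ∀ i, φ (mul3 (C a) (C b) (C c) (C d) vv (sh3 (C a) (C b) (C c) (C d) uu) i) =
      mul3 (algebraMap E F a) (algebraMap E F b) (algebraMap E F c) (algebraMap E F d) y
        (sh3 (algebraMap E F a) (algebraMap E F b) (algebraMap E F c) (algebraMap E F d) x) i := by
    intro i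
    have := map_mul3 (φ : MvPolynomial (Fin 3 × Bool) E →+* F) (C a) (C b) (C c) (C d) vv (sh3 (C a) (C b) (C c) (C d) uu) i
    rw [map_sh3', hCd, hCd, hCd, hCd, hu, hv] at this
    exact this
  have hm2 : ∀ i, φ (mul3 (C a) (C b) (C c) (C d) uu (sh3 (C a) (C b) (C c) (C d) vv) i) =
      mul3 (algebraMap E F a) (algebraMap E F b) (algebraMap E F c) (algebraMap E F d) x
        (sh3 (algebraMap E F a) (algebraMap E F b) (algebraMap E F c) (algebraMap E F d) y) i := by
    intro i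
    have := map_mul3 (φ : MvPolynomial (Fin 3 × Bool) E →+* F) (C a) (C b) (C c) (C d) uu (sh3 (C a) (C b) (C c) (C d) vv) i
    rw [map_sh3', hCd, hCd, hCd, hCd, hu, hv] at this
    exact this
  have hnz : ∀ w : Fin 3 → MvPolynomial (Fin 3 × Bool) E,
      (∃ e : Fin 3 × Bool → E, eval e (w 0) = 1 ∧ eval e (w 1) = 0 ∧ eval e (w 2) = 0) →
      nm3 (C a) (C b) (C c) (C d) w ≠ 0 := by
    rintro w ⟨e, h0, h1, h2⟩ h
    have h3 := congrArg (eval e) h
    have h4 := map_nm3 (eval e) (C a) (C b) (C c) (C d) w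
    rw [h4, map_zero] at h3
    simp [nm3, mul3, sh3, h0, h1, h2] at h3
  have hmap : ∀ k, (𝒜 k).map (φ.comp ι).toLinearMap =
      (Submodule.span E (Fm (algebraMap E F a) (algebraMap E F b) (algebraMap E F c)
        (algebraMap E F d) x y)) ^ k := by
    intro k
    have h1 : (φ.comp ι).toLinearMap = φ.toLinearMap.comp ι.toLinearMap := rfl
    have h2 : φ '' forms a b c d = Fm (algebraMap E F a) (algebraMap E F b) (algebraMap E F c)
        (algebraMap E F d) x y := by
      ext z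
      constructor
      · rintro ⟨_, (rfl | ⟨i, rfl⟩ | ⟨i, rfl⟩ | rfl), rfl⟩
        · exact Or.inl hn1
        · exact Or.inr (Or.inl ⟨i, hm1 i⟩)
        · exact Or.inr (Or.inr (Or.inl ⟨i, hm2 i⟩))
        · exact Or.inr (Or.inr (Or.inr hn2))
      · rintro (rfl | ⟨i, rfl⟩ | ⟨i, rfl⟩ | rfl)
        · exact ⟨_, Or.inl rfl, hn1⟩
        · exact ⟨_, Or.inr (Or.inl ⟨i, rfl⟩), hm1 i⟩
        · exact ⟨_, Or.inr (Or.inr (Or.inl ⟨i, rfl⟩)), hm2 i⟩
        · exact ⟨_, Or.inr (Or.inr (Or.inr rfl)), hn2⟩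
    rw [h1, Submodule.map_comp, h𝒜, Submodule.map_pow, ← h2]
    congr 1
    exact Submodule.map_span _ _
  refine rc_abs (fun y => indep_of_gen E (Fin 3 × Bool) y) hd 𝒜 (φ.comp ι) ?_ ?_ ?_ X hX
  · intro k a _ ha
    have h1 : φ (ι a) = 0 := ha
    exact hι (by rw [map_zero]; exact hφ (by rw [h1, map_zero]))
  · intro k
    rw [hmap, hmap, pow_one]
  · refine ⟨x, y, gen_top E, ?_, ?_, ?_⟩
    · rw [← hn1]
      intro h
      refine hnz uu ⟨fun p => if p = (0, false) then 1 else 0, ?_, ?_, ?_⟩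
        (hφ (by rw [h, map_zero]))
      · simp [uu]
      · simp [uu]
      · simp [uu]
    · rw [← hn2]
      intro h
      refine hnz vv ⟨fun p => if p = (0, true) then 1 else 0, ?_, ?_, ?_⟩
        (hφ (by rw [h, map_zero]))
      · simp [vv]
      · simp [vv]
      · simp [vv]
    · rw [hmap, pow_one]

end Pool.Agent.RM558.NFZ
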