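import Pool.Agent.W558.RM.Gen3

/-!
# Two global forms, good at complementary sets of primes
-/

set_option autoImplicit false
set_option linter.unusedVariables false
set_option linter.unusedSectionVars false

universe u

namespace Pool.Agent.RM558

open IsLocalRing Pool.Agent.W418.LU2 Pool.Agent.W418.WR
open scoped nonZeroDivisors

lemma Mx.mono {E : Type u} [Field E] {W R R' : Subring E} {a b c d : E} (h : Mx W R' a b c d)
    (hR : R ≤ R') (ha : a ∈ R) (hb : b ∈ R) (hc : c ∈ R) (hd : d ∈ R) : Mx W R a b c d :=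
  ⟨ha, hb, hc, hd, h.disc, h.prim, fun α ϖ c₁ c₂ h1 h2 h3 h4 h5 h6 h7 h8 =>
    h.ram α ϖ c₁ c₂ (hR h1) (lo_mono hR h2) (lo_mono hR h3) (lo_mono hR h4) h5 h6 h7 h8⟩

lemma MO.smul {O : Type} [CommRing O] [IsDomain O] {a b c d N : O} (h : MO a b c d)
    (hN : IsUnit N) : MO (N * a) (N * b) (N * c) (N * d) := by
  refine ⟨?_, ?_, ?_⟩
  · have h1 : dsc (N * a) (N * b) (N * c) (N * d) = N ^ 4 * dsc a b c d := by unfold dsc; ring
    rw [h1]
    exact mul_ne_zero (pow_ne_zero 4 hN.ne_zero) h.disc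
  · rintro p hp ⟨h1, h2, h3, h4⟩
    exact h.prim p hp ⟨(hN.dvd_mul_left).1 h1, (hN.dvd_mul_left).1 h2, (hN.dvd_mul_left).1 h3,
      (hN.dvd_mul_left).1 h4⟩
  · rintro p hp r ⟨h1, h2⟩
    refine h.ram p hp r ⟨(hN.dvd_mul_left).1 (?_ : p ∣ N * _), (hN.dvd_mul_left).1
      (?_ : p ^ 2 ∣ N * _)⟩
    · convert h1 using 1; ring
    · convert h2 using 1; ring

/-- The form is maximal where the discriminant is a unit. -/
lemma mx_good {E : Type u} [Field E] {W R : Subring E} (hW : Loc W) (hRW : R ≤ W) {a b c d : E}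
    (ha : a ∈ R) (hb : b ∈ R) (hc : c ∈ R) (hd : d ∈ R) (h0 : dsc a b c d ≠ 0)
    (hD : ¬ NU W (dsc a b c d)) : Mx W R a b c d := by
  have haA := hRW ha
  have hbA := hRW hb
  have hcA := hRW hc
  have hdA := hRW hd
  refine ⟨ha, hb, hc, hd, h0, ?_, ?_⟩
  · rintro ⟨h1, h2, h3, h4⟩
    apply hD
    have h5 : dsc a b c d = (b * c ^ 2 - 4 * b ^ 2 * d + 18 * a * c * d) * b -
        (4 * c ^ 3 + 27 * a * d ^ 2) * a := by
      unfold dsc; ring
    rw [h5]
    refine NU.sub hW (NU.mul_left hW ?_ h2) (NU.mul_left hW ?_ h1)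
    · exact W.add_mem (W.sub_mem (W.mul_mem hbA (W.pow_mem hcA 2)) (W.mul_mem (W.mul_mem
        (ofNat_mem W 4) (W.pow_mem hbA 2)) hdA)) (W.mul_mem (W.mul_mem (W.mul_mem
        (ofNat_mem W 18) haA) hcA) hdA)
    · exact W.add_mem (W.mul_mem (ofNat_mem W 4) (W.pow_mem hcA 3)) (W.mul_mem (W.mul_mem
        (ofNat_mem W 27) haA) (W.pow_mem hdA 2))
  · intro α ϖ c₁ c₂ hα hϖ hc₁ hc₂ hϖ0 hϖu h1 h2
    have hαA := hRW hα
    have hϖN : NU W ϖ := ⟨lo_le hRW hϖ, fun h => hϖu h.2⟩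
    have h3 : NU W (3 * a * α ^ 2 + 2 * b * α + c) := by
      rw [h1]
      exact NU.mul_left hW (lo_le hRW hc₁) hϖN
    have h4 : NU W (a * α ^ 3 + b * α ^ 2 + c * α + d) := by
      rw [h2, pow_two, ← mul_assoc]
      exact NU.mul_left hW (W.mul_mem (lo_le hRW hc₂) hϖN.1) hϖN
    apply hD
    set f0 := a * α ^ 3 + b * α ^ 2 + c * α + d with hf0
    set f1 := 3 * a * α ^ 2 + 2 * b * α + c with hf1
    set f2 := b + 3 * a * α with hf2
    have hf2A : f2 ∈ W := W.add_mem hbA (W.mul_mem (W.mul_mem (ofNat_mem W 3) haA) hαA)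
    have h5 : dsc a b c d = (f2 ^ 2 * f1 - 4 * a * f1 ^ 2 +
        18 * a * f2 * f0) * f1 + (-4 * f2 ^ 3 - 27 * a ^ 2 * f0) * f0 := by
      rw [hf0, hf1, hf2]
      unfold dsc
      ring
    rw [h5]
    refine NU.add hW (NU.mul_left hW ?_ h3) (NU.mul_left hW ?_ h4)
    · exact W.add_mem (W.sub_mem (W.mul_mem (W.pow_mem hf2A 2) h3.1)
        (W.mul_mem (W.mul_mem (ofNat_mem W 4) haA) (W.pow_mem h3.1 2)))
        (W.mul_mem (W.mul_mem (W.mul_mem (ofNat_mem W 18) haA) hf2A) h4.1)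
    · exact W.sub_mem (W.mul_mem (W.neg_mem (ofNat_mem W 4)) (W.pow_mem hf2A 3))
        (W.mul_mem (W.mul_mem (ofNat_mem W 27) (W.pow_mem haA 2)) h4.1)

section semi

variable {O E F : Type} [CommRing O] [IsDedekindDomain O] [Field E] [Algebra O E]
  [IsFractionRing O E] [Field F] [Algebra E F]

/-- Integral forms. -/
lemma exists_intO {L : Submodule E F} {a b c d : E} (h : GE L a b c d) (hd : dsc a b c d ≠ 0) :
    ∃ a b c d : O, dsc a b c d ≠ 0 ∧
      GE L (algebraMap O E a) (algebraMap O E b) (algebraMap O E c) (algebraMap O E d) := by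
  classical
  have hinj : Function.Injective (algebraMap O E) := IsFractionRing.injective O E
  obtain ⟨N, hN⟩ := IsLocalization.exist_integer_multiples_of_finset (nonZeroDivisors O)
    ({a, b, c, d} : Finset E)
  have hN0 : algebraMap O E N ≠ 0 :=
    (map_ne_zero_iff _ hinj).2 (nonZeroDivisors.ne_zero N.2)
  have hI : ∀ x ∈ ({a, b, c, d} : Finset E), ∃ y : O, algebraMap O E y = x * algebraMap O E N := by
    intro x hx
    obtain ⟨y, hy⟩ := hN x hx
    refine ⟨y, ?_⟩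
    rw [hy, Algebra.smul_def, mul_comm]
  obtain ⟨a', ha⟩ := hI a (by simp)
  obtain ⟨b', hb⟩ := hI b (by simp)
  obtain ⟨c', hc⟩ := hI c (by simp)
  obtain ⟨d', hd'⟩ := hI d (by simp)
  refine ⟨a', b', c', d', ?_, ?_⟩
  · intro h3
    have h4 := congrArg (algebraMap O E) h3
    rw [map_dsc, map_zero, ha, hb, hc, hd'] at h4
    apply hd
    have h5 : dsc (a * algebraMap O E N) (b * algebraMap O E N) (c * algebraMap O E N)
        (d * algebraMap O E N) = (algebraMap O E N) ^ 4 * dsc a b c d := by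
      unfold dsc; ring
    rw [h5] at h4
    rcases mul_eq_zero.1 h4 with h6 | h6
    · exact absurd h6 (pow_ne_zero 4 hN0)
    · exact h6
  · have h3 := h.diag hN0 hN0
    rw [ha, hb, hc, hd']
    convert h3 using 1
    · field_simp
    · field_simp

/-- The elements which are prime to `D`. -/
def SM (D : O) : Submonoid O where
  carrier := {s | s ≠ 0 ∧ ∀ 𝔭 : Ideal O, 𝔭.IsPrime → D ∈ 𝔭 → s ∉ 𝔭}
  one_mem' := ⟨one_ne_zero, fun 𝔭 h𝔭 _ h => h𝔭.ne_top ((Ideal.eq_top_iff_one _).2 h)⟩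
  mul_mem' := by
    rintro a b ⟨ha0, ha⟩ ⟨hb0, hb⟩
    refine ⟨mul_ne_zero ha0 hb0, fun 𝔭 h𝔭 hD h => ?_⟩
    rcases h𝔭.mem_or_mem h with h | h
    · exact ha 𝔭 h𝔭 hD h
    · exact hb 𝔭 h𝔭 hD h

lemma SM_le (D : O) : SM D ≤ O⁰ := fun s hs => mem_nonZeroDivisors_of_ne_zero hs.1

theorem semi_pid {D : O} (hD : D ≠ 0) (O' : Type) [CommRing O'] [IsDomain O'] [Algebra O O']
    [IsLocalization (SM D) O'] : IsPrincipalIdealRing O' := by
  classical
  have hded : IsDedekindDomain O' := IsLocalization.isDedekindDomain O (SM_le D) O'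
  apply IsPrincipalIdealRing.of_finite_maximals
  have hfin : {𝔭 : Ideal O | 𝔭 = ⊥ ∨ (𝔭.IsPrime ∧ 𝔭 ≠ ⊥ ∧ D ∈ 𝔭)}.Finite := by
    have h1 : Ideal.span {D} ≠ 0 := by
      rw [Ne, Ideal.zero_eq_bot, Ideal.span_singleton_eq_bot]
      exact hD
    have h2 := (Ideal.finite_factors h1).image (fun v => v.asIdeal)
    refine (h2.union (Set.finite_singleton ⊥)).subset ?_
    rintro 𝔭 (rfl | ⟨hp, h0, hD𝔭⟩)
    · exact Or.inr rfl
    · left
      refine ⟨⟨𝔭, hp, h0⟩, ?_, rfl⟩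
      exact Ideal.dvd_span_singleton.2 hD𝔭
  refine Set.Finite.of_finite_image (f := fun I => I.comap (algebraMap O O'))
    (hfin.subset ?_) ?_
  · rintro _ ⟨I, hI, rfl⟩
    have hI' : I.IsMaximal := hI
    have hp : (I.comap (algebraMap O O')).IsPrime := Ideal.IsPrime.comap _
    by_cases h0 : I.comap (algebraMap O O') = ⊥
    · exact Or.inl h0
    right
    refine ⟨hp, h0, ?_⟩
    by_contra hDn
    have hunit : ∀ s ∈ SM D, s ∉ I.comap (algebraMap O O') := by
      intro s hs h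
      exact hI'.ne_top (Ideal.eq_top_of_isUnit_mem _ h (IsLocalization.map_units O' ⟨s, hs⟩))
    have hmax : (I.comap (algebraMap O O')).IsMaximal := hp.isMaximal h0
    obtain ⟨y, q, hq, hyq⟩ := hmax.exists_inv hDn
    have hq1 : ∀ 𝔭 : Ideal O, 𝔭.IsPrime → D ∈ 𝔭 → q ∉ 𝔭 := by
      intro 𝔭 h𝔭 hD𝔭 hq𝔭
      apply h𝔭.ne_top
      rw [Ideal.eq_top_iff_one, ← hyq]
      exact 𝔭.add_mem (𝔭.mul_mem_left y hD𝔭) hq𝔭
    by_cases hq0 : q = 0
    · obtain ⟨z, hz, hz0⟩ := Submodule.exists_mem_ne_zero_of_ne_bot h0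
      refine hunit z ⟨hz0, fun 𝔭 h𝔭 hD𝔭 _ => hq1 𝔭 h𝔭 hD𝔭 ?_⟩ hz
      rw [hq0]
      exact 𝔭.zero_mem
    · exact hunit q ⟨hq0, hq1⟩ hq
  · intro I hI J hJ h
    have h1 : I.comap (algebraMap O O') = J.comap (algebraMap O O') := h
    rw [← IsLocalization.map_under (SM D) O' I, ← IsLocalization.map_under (SM D) O' J]
    exact congrArg (Ideal.map (algebraMap O O')) h1

/-- The center of `W`. -/
lemma center {W : Subring E} (hW : Loc W) (hRW : (algebraMap O E).range ≤ W) :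
    ∃ 𝔭 : Ideal O, 𝔭.IsPrime ∧ ∀ n : O, n ∈ 𝔭 ↔ NU W (algebraMap O E n) := by
  have hloc := isLocalRing_of_loc hW
  let ψ : O →+* W := (algebraMap O E).codRestrict W (fun o => hRW ⟨o, rfl⟩)
  refine ⟨(maximalIdeal W).comap ψ, Ideal.IsPrime.comap _, fun n => ?_⟩
  rw [show algebraMap O E n = ((ψ n : W) : E) from rfl, nu_iff hW (ψ n)]
  exact Iff.rfl

/-- A form which is maximal at all primes containing `D`. -/
theorem exists_bad {L : Submodule E F} {a b c d : E} (h : GE L a b c d) (hd : dsc a b c d ≠ 0)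
    {D : O} (hD : D ≠ 0) :
    ∃ a b c d : O,
      GE L (algebraMap O E a) (algebraMap O E b) (algebraMap O E c) (algebraMap O E d) ∧
      ∀ W : Subring E, Loc W → (algebraMap O E).range ≤ W → NU W (algebraMap O E D) →
        Mx W (algebraMap O E).range (algebraMap O E a) (algebraMap O E b) (algebraMap O E c)
          (algebraMap O E d) ∧
        Mx W (algebraMap O E).range (-algebraMap O E d) (-algebraMap O E c) (-algebraMap O E b)
          (-algebraMap O E a) := by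
  classical
  let O' := Localization.subalgebra E (SM D) (SM_le D)
  have hpid : IsPrincipalIdealRing O' := semi_pid hD O'
  obtain ⟨a', b', c', d', hM, hM', hG⟩ := exists_maxO (O := O') h hd
  obtain ⟨N, hN⟩ := IsLocalization.exist_integer_multiples_of_finset (SM D)
    ({a', b', c', d'} : Finset O')
  have hI : ∀ x ∈ ({a', b', c', d'} : Finset O'), ∃ y : O, algebraMap O O' y =
      algebraMap O O' N * x := by
    intro x hx
    obtain ⟨y, hy⟩ := hN x hx
    refine ⟨y, ?_⟩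
    rw [hy, Algebra.smul_def]
  obtain ⟨a, ha⟩ := hI a' (by simp)
  obtain ⟨b, hb⟩ := hI b' (by simp)
  obtain ⟨c, hc⟩ := hI c' (by simp)
  obtain ⟨d, hd'⟩ := hI d' (by simp)
  have hNu : IsUnit (algebraMap O O' N) := IsLocalization.map_units O' N
  have hM1 := hM.smul hNu
  have hM1' := hM'.smul hNu
  rw [← ha, ← hb, ← hc, ← hd'] at hM1
  rw [mul_neg, mul_neg, mul_neg, mul_neg, ← ha, ← hb, ← hc, ← hd'] at hM1'
  have hst : ∀ x : O, algebraMap O' E (algebraMap O O' x) = algebraMap O E x := fun x => rfl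
  have hN0 : algebraMap O' E (algebraMap O O' N) ≠ 0 := by
    rw [hst]
    exact (map_ne_zero_iff _ (IsFractionRing.injective O E)).2 N.2.1
  refine ⟨a, b, c, d, ?_, ?_⟩
  · have h3 := hG.diag hN0 hN0
    rw [← hst a, ← hst b, ← hst c, ← hst d, ha, hb, hc, hd', map_mul, map_mul, map_mul, map_mul]
    convert h3 using 1
    · field_simp
    · ring
    · ring
    · field_simp
  · intro W hW hRW hDW
    obtain ⟨𝔭, h𝔭, hmem⟩ := center (O := O) hW hRW
    have hRR : (algebraMap O E).range ≤ (algebraMap O' E).range := by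
      rintro _ ⟨x, rfl⟩
      exact ⟨algebraMap O O' x, rfl⟩
    have hOW : (algebraMap O' E).range ≤ W := by
      rintro _ ⟨x, rfl⟩
      obtain ⟨⟨n, s⟩, hns⟩ := IsLocalization.surj (SM D) x
      have hs0 : algebraMap O E s ≠ 0 :=
        (map_ne_zero_iff _ (IsFractionRing.injective O E)).2 s.2.1
      have hsW : (algebraMap O E s)⁻¹ ∈ W := by
        by_contra hcon
        exact s.2.2 𝔭 h𝔭 ((hmem D).2 hDW) ((hmem s).2 ⟨hRW ⟨s, rfl⟩, fun h => hcon h.2⟩)
      have h1 := congrArg (algebraMap O' E) hns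
      rw [map_mul, hst, hst] at h1
      have h2 : algebraMap O' E x = algebraMap O E n * (algebraMap O E s)⁻¹ := by
        rw [← h1, mul_assoc, mul_inv_cancel₀ hs0, mul_one]
      rw [h2]
      exact W.mul_mem (hRW ⟨n, rfl⟩) hsW
    have hR : ∀ x : O, algebraMap O E x ∈ (algebraMap O E).range := fun x => ⟨x, rfl⟩
    constructor
    · have h3 := mx_ofO hM1 W hW hOW
      rw [hst, hst, hst, hst] at h3
      exact h3.mono hRR (hR a) (hR b) (hR c) (hR d)
    · have h3 := mx_ofO hM1' W hW hOW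
      rw [map_neg, map_neg, map_neg, map_neg, hst, hst, hst, hst] at h3
      exact h3.mono hRR (Subring.neg_mem _ (hR d)) (Subring.neg_mem _ (hR c))
        (Subring.neg_mem _ (hR b)) (Subring.neg_mem _ (hR a))

end semi

end Pool.Agent.RM558
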